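import Mathlib
import Pool.Agent.H570.LQ.Single

/-! Two values of a polynomial with two free coefficients. -/

set_option autoImplicit false

namespace Pool.Agent.H570.TH

open Finset Pool.Agent.H570.LQ

/-- sum over pairs of the product of two values `m` and `m + D (d + e)` -/
noncomputable def S2e (s t H W α δ q D e : ℕ) : ℝ :=
  ∑ d ∈ cls t H W δ, ∑ a ∈ cls s H W α, vM (a + q * d) * vM (a + q * d + D * (d + e))

lemma inner_JJe {N : ℕ} {E : ℝ} {R : ℕ} (h : AP N E R) (hE : 0 ≤ E) (s t H W δ q D e n : ℕ) (hW : 1 ≤ W)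
    (hD : 1 ≤ D) (hWD : W ∣ D) (hR : D * W ≤ R) (hN : s + (q + D) * (t + H) + H + D * e ≤ N) :
    |∑ d ∈ (JJ s t H q n).filter (fun d => d ≡ δ [MOD W]), vM (n + D * (d + e)) -
      (if n.Coprime D then (D : ℝ) * (JJ s t H q n).card / (W * (Nat.totient D : ℝ)) else 0)| ≤ 2 * E := by
  have e0 : ∀ d, n + D * (d + e) = (n + D * e) + D * d := fun d => by ring
  simp only [e0]
  rcases exists_Ioc (JJ s t H q n) (t + H) (fun x hx => by
      simp only [JJ, mem_filter, mem_Ioc] at hx; omega) (fun x hx z hz y hxy hyz => by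
      simp only [JJ, mem_filter, mem_Ioc] at hx hz ⊢
      have h1 := Nat.mul_le_mul_left q hxy
      have h2 := Nat.mul_le_mul_left q hyz
      omega) with h0 | ⟨u, v, huv, hv, hJ⟩
  · rw [h0]; simp; exact hE
  · have hv' : v ≤ t + H ∧ n ≤ s + q * v + H := by
      simp only [JJ, mem_filter, mem_Ioc] at hv; omega
    rw [hJ, inner_d (n + D * e) D W δ u v hD]
    have h1 : n + D * e + D * v ≤ N := by
      have h2 := Nat.mul_le_mul_left (q + D) hv'.1
      have h3 : (q + D) * v = q * v + D * v := by ring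
      omega
    have h2 := AP_Ioc h (D * W) (Nat.mul_pos hD hW) hR (n + D * e + D * δ) (n + D * e + D * u) (n + D * e + D * v)
      (by have := Nat.mul_le_mul_left D huv; omega) h1
    rw [totient_mul_of_dvd D W hW hWD] at h2
    have h4 : (n + D * e).Coprime D ↔ n.Coprime D := by simp
    simp only [coprime_shift (n + D * e) D W δ hWD, h4] at h2
    have h3 : (((n + D * e + D * v : ℕ) : ℝ) - ((n + D * e + D * u : ℕ) : ℝ)) / ((W * Nat.totient D : ℕ) : ℝ) =
        (D : ℝ) * ((Ioc u v).card : ℝ) / (W * (Nat.totient D : ℝ)) := by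
      rw [Nat.card_Ioc, Nat.cast_sub huv]; push_cast; ring
    rw [h3] at h2
    exact h2

lemma S2e_swap (s t H W α δ q D e N : ℕ) (hN : s + q * (t + H) + H ≤ N) :
    S2e s t H W α δ q D e = ∑ n ∈ (Icc 1 N).filter (fun n => n ≡ α + q * δ [MOD W]), vM n *
      ∑ d ∈ (JJ s t H q n).filter (fun d => d ≡ δ [MOD W]), vM (n + D * (d + e)) := by
  unfold S2e
  have h1 : ∀ d ∈ cls t H W δ, ∑ a ∈ cls s H W α, vM (a + q * d) * vM (a + q * d + D * (d + e)) =
      ∑ n ∈ (Ioc (s + q * d) (s + q * d + H)).filter (fun n => n ≡ α + q * δ [MOD W]), vM n * vM (n + D * (d + e)) := by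
    intro d hd
    simp only [cls, mem_filter, mem_Ioc] at hd
    have h2 := inner_f (fun n => vM n * vM (n + D * (d + e))) s H W α (q * d)
    rw [h2]
    refine Finset.sum_congr ?_ fun _ _ => rfl
    ext n
    simp only [mem_filter, modEq_iff_shift α δ q W d n hd.2]
  rw [Finset.sum_congr rfl h1]
  simp only [Finset.mul_sum]
  refine Finset.sum_comm' ?_
  intro d n
  simp only [cls, JJ, mem_filter, mem_Ioc, mem_Icc]
  constructor
  · rintro ⟨⟨⟨h2, h3⟩, h4⟩, ⟨⟨h5, h6⟩, h7⟩⟩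
    have := Nat.mul_le_mul_left q h3
    exact ⟨⟨⟨⟨h2, h3⟩, ⟨h5, h6⟩⟩, h4⟩, ⟨⟨by omega, by omega⟩, h7⟩⟩
  · rintro ⟨⟨⟨⟨h2, h3⟩, ⟨h5, h6⟩⟩, h4⟩, ⟨⟨_, _⟩, h7⟩⟩
    exact ⟨⟨⟨h2, h3⟩, h4⟩, ⟨⟨h5, h6⟩, h7⟩⟩

/-- the correlation of two values -/
lemma S2e_est {N : ℕ} {E : ℝ} {R : ℕ} (h : AP N E R) (hE : 0 ≤ E) (hEN : E ≤ N) (s t H W α δ q D e : ℕ) (hW : 1 ≤ W)
    (hD : 1 ≤ D) (hWD : W ∣ D) (hR : D * W ≤ R) (hN : s + (q + D) * (t + H) + H + D * e ≤ N)
    (hcop : (α + q * δ).Coprime W) :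
    |S2e s t H W α δ q D e - (H : ℝ) ^ 2 * D / (W * (Nat.totient W : ℝ) * (Nat.totient D : ℝ))| ≤
      E * N * (D + 2) ^ 2 := by
  have hN' : s + q * (t + H) + H ≤ N := by
    have : (q + D) * (t + H) = q * (t + H) + D * (t + H) := by ring
    have := Nat.zero_le (D * (t + H)); omega
  have hWR : W ≤ R := le_trans (by nlinarith) hR
  have hDR : D ≤ R := le_trans (by nlinarith) hR
  have hφ : (1 : ℝ) ≤ (Nat.totient W : ℝ) := by exact_mod_cast Nat.totient_pos.2 hW
  have hφD : (1 : ℝ) ≤ (Nat.totient D : ℝ) := by exact_mod_cast Nat.totient_pos.2 hD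
  have hWr : (1 : ℝ) ≤ W := by exact_mod_cast hW
  have hDr : (1 : ℝ) ≤ D := by exact_mod_cast hD
  rw [S2e_swap s t H W α δ q D e N hN']
  set M := (Icc 1 N).filter (fun n => n ≡ α + q * δ [MOD W]) with hM
  set G : ℝ := (D : ℝ) / (W * (Nat.totient D : ℝ)) with hG
  have hG0 : 0 ≤ G := by positivity
  have hGD : G ≤ D := div_le_self (by linarith) (by nlinarith)
  -- step 1
  have h1 : |∑ n ∈ M, vM n * ∑ d ∈ (JJ s t H q n).filter (fun d => d ≡ δ [MOD W]), vM (n + D * (d + e)) -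
      ∑ n ∈ M, vM n * (if n.Coprime D then (D : ℝ) * (JJ s t H q n).card / (W * (Nat.totient D : ℝ)) else 0)| ≤
      2 * E * (N + E) := by
    rw [← Finset.sum_sub_distrib]
    calc _ ≤ ∑ n ∈ M, |vM n * ∑ d ∈ (JJ s t H q n).filter (fun d => d ≡ δ [MOD W]), vM (n + D * (d + e)) -
        vM n * (if n.Coprime D then (D : ℝ) * (JJ s t H q n).card / (W * (Nat.totient D : ℝ)) else 0)| :=
          Finset.abs_sum_le_sum_abs _ _
      _ ≤ ∑ n ∈ M, vM n * (2 * E) := by
          refine Finset.sum_le_sum fun n _ => ?_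
          rw [← mul_sub, abs_mul, abs_of_nonneg (vM_nonneg n)]
          exact mul_le_mul_of_nonneg_left (inner_JJe h hE s t H W δ q D e n hW hD hWD hR hN) (vM_nonneg n)
      _ = (∑ n ∈ M, vM n) * (2 * E) := by rw [Finset.sum_mul]
      _ ≤ (N + E) * (2 * E) := by
          refine mul_le_mul_of_nonneg_right ?_ (by linarith)
          have h2 := h W hW hWR (α + q * δ) N le_rfl
          rw [if_pos hcop] at h2
          have h3 : ∑ n ∈ M, vM n = lamAP N W (α + q * δ) := rfl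
          rw [h3]
          have h4 : (N : ℝ) / (Nat.totient W : ℝ) ≤ N := div_le_self (Nat.cast_nonneg _) hφ
          linarith [(abs_le.1 h2).2]
      _ = 2 * E * (N + E) := by ring
  -- step 2
  have h2 : |∑ n ∈ M, vM n * ((JJ s t H q n).card : ℝ) - H * (H / (Nat.totient W : ℝ))| ≤ 2 * E * H := by
    rw [card_swap s t H W (α + q * δ) q N hN']
    have h3 : ((Ioc t (t + H)).card : ℝ) = H := by
      rw [Nat.card_Ioc, Nat.add_sub_cancel_left]
    have h4 : (H : ℝ) * (H / (Nat.totient W : ℝ)) = ∑ d ∈ Ioc t (t + H), (H / (Nat.totient W : ℝ) : ℝ) := by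
      rw [Finset.sum_const, nsmul_eq_mul, h3]
    rw [h4, ← Finset.sum_sub_distrib]
    calc _ ≤ ∑ d ∈ Ioc t (t + H), |∑ n ∈ (Ioc (s + q * d) (s + q * d + H)).filter
          (fun n => n ≡ α + q * δ [MOD W]), vM n - (H / (Nat.totient W : ℝ) : ℝ)| := Finset.abs_sum_le_sum_abs _ _
      _ ≤ ∑ d ∈ Ioc t (t + H), 2 * E := by
          refine Finset.sum_le_sum fun d hd => ?_
          rw [mem_Ioc] at hd
          have hqd := Nat.mul_le_mul_left q hd.2
          have h5 := AP_Ioc h W hW hWR (α + q * δ) (s + q * d) (s + q * d + H) (by omega) (by omega)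
          rw [if_pos hcop] at h5
          have h6 : (((s + q * d + H : ℕ) : ℝ) - ((s + q * d : ℕ) : ℝ)) = H := by push_cast; ring
          rw [h6] at h5
          exact h5
      _ = 2 * E * H := by rw [Finset.sum_const, nsmul_eq_mul, h3]; ring
  -- step 3
  have h3 : ∑ n ∈ M, vM n * (if n.Coprime D then (D : ℝ) * (JJ s t H q n).card / (W * (Nat.totient D : ℝ)) else 0) =
      G * (∑ n ∈ M, vM n * ((JJ s t H q n).card : ℝ)) -
        G * ∑ n ∈ M.filter (fun n => ¬ n.Coprime D), vM n * ((JJ s t H q n).card : ℝ) := by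
    have h30 : ∑ n ∈ M.filter (fun n => ¬ n.Coprime D), vM n * ((JJ s t H q n).card : ℝ) =
        ∑ n ∈ M, if ¬ n.Coprime D then vM n * ((JJ s t H q n).card : ℝ) else 0 := Finset.sum_filter _ _
    rw [← mul_sub, h30, ← Finset.sum_sub_distrib, Finset.mul_sum]
    refine Finset.sum_congr rfl fun n _ => ?_
    by_cases hc : n.Coprime D
    · rw [if_pos hc, if_neg (not_not.2 hc), hG]; ring
    · rw [if_neg hc, if_pos hc]; ring
  have h4 : 0 ≤ ∑ n ∈ M.filter (fun n => ¬ n.Coprime D), vM n * ((JJ s t H q n).card : ℝ) :=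
    Finset.sum_nonneg fun n _ => mul_nonneg (vM_nonneg n) (Nat.cast_nonneg _)
  have h5 : ∑ n ∈ M.filter (fun n => ¬ n.Coprime D), vM n * ((JJ s t H q n).card : ℝ) ≤ D * E * H := by
    calc _ ≤ ∑ n ∈ M.filter (fun n => ¬ n.Coprime D), vM n * H :=
          Finset.sum_le_sum fun n _ => mul_le_mul_of_nonneg_left (card_JJ_le s t H q n) (vM_nonneg n)
      _ = (∑ n ∈ M.filter (fun n => ¬ n.Coprime D), vM n) * H := by rw [Finset.sum_mul]
      _ ≤ (∑ n ∈ (Icc 1 N).filter (fun n => ¬ n.Coprime D), vM n) * H := by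
          refine mul_le_mul_of_nonneg_right ?_ (Nat.cast_nonneg _)
          refine Finset.sum_le_sum_of_subset_of_nonneg ?_ fun _ _ _ => vM_nonneg _
          intro n hn
          simp only [hM, mem_filter] at hn ⊢
          exact ⟨hn.1.1, hn.2⟩
      _ ≤ D * E * H := mul_le_mul_of_nonneg_right (noncop h hE D hD hDR) (Nat.cast_nonneg _)
  have h6 : (H : ℝ) ^ 2 * D / (W * (Nat.totient W : ℝ) * (Nat.totient D : ℝ)) =
      G * (H * (H / (Nat.totient W : ℝ))) := by
    rw [hG]; field_simp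
  rw [h6]
  rw [h3] at h1
  have hHN : (H : ℝ) ≤ N := by
    have : H ≤ N := by omega
    exact_mod_cast this
  have h7 := (abs_le.1 h1)
  have h8 := (abs_le.1 h2)
  set T1 := ∑ n ∈ M, vM n * ∑ d ∈ (JJ s t H q n).filter (fun d => d ≡ δ [MOD W]), vM (n + D * (d + e))
  set T2 := ∑ n ∈ M, vM n * ((JJ s t H q n).card : ℝ)
  set T3 := ∑ n ∈ M.filter (fun n => ¬ n.Coprime D), vM n * ((JJ s t H q n).card : ℝ)
  set T4 := (H : ℝ) * (H / (Nat.totient W : ℝ))
  have hH0 : (0 : ℝ) ≤ H := Nat.cast_nonneg _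
  have h9 : G * (T2 - T4) ≤ D * (2 * E * H) ∧ -(D * (2 * E * H)) ≤ G * (T2 - T4) := by
    have hEH : 0 ≤ 2 * E * H := by positivity
    constructor
    · calc G * (T2 - T4) ≤ G * (2 * E * H) := mul_le_mul_of_nonneg_left (by linarith [h8.2]) hG0
        _ ≤ D * (2 * E * H) := mul_le_mul_of_nonneg_right hGD hEH
    · have h10 : G * (-(2 * E * H)) ≤ G * (T2 - T4) := mul_le_mul_of_nonneg_left (by linarith [h8.1]) hG0
      have h11 : G * (2 * E * H) ≤ D * (2 * E * H) := mul_le_mul_of_nonneg_right hGD hEH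
      linarith
  have h10 : 0 ≤ G * T3 ∧ G * T3 ≤ D * (D * E * H) := by
    refine ⟨mul_nonneg hG0 h4, ?_⟩
    calc G * T3 ≤ D * T3 := mul_le_mul_of_nonneg_right hGD h4
      _ ≤ D * (D * E * H) := mul_le_mul_of_nonneg_left h5 (by linarith)
  have hEH' : E * H ≤ E * N := mul_le_mul_of_nonneg_left hHN hE
  have hEE : E * E ≤ E * N := mul_le_mul_of_nonneg_left hEN hE
  have h11 : 2 * E * (N + E) + D * (2 * E * H) + D * (D * E * H) ≤ E * N * (D + 2) ^ 2 := by
    have a1 : (D : ℝ) * (2 * E * H) ≤ 2 * D * (E * N) := by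
      have := mul_le_mul_of_nonneg_left hEH' (show (0:ℝ) ≤ 2 * D by linarith)
      linarith
    have a2 : (D : ℝ) * (D * E * H) ≤ D * D * (E * N) := by
      have := mul_le_mul_of_nonneg_left hEH' (show (0:ℝ) ≤ D * D by nlinarith)
      linarith
    have a3 : 0 ≤ E * N := mul_nonneg hE (Nat.cast_nonneg _)
    nlinarith
  rw [abs_le]
  constructor <;> nlinarith [h7.1, h7.2, h9.1, h9.2, h10.1, h10.2]

end Pool.Agent.H570.TH
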