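import Mathlib
import Pool.Agent.H570.LQ.Ratio

/-! Quadratic forms in the singular series of pairs: exact expansion and the two special weights. -/

set_option autoImplicit false

namespace Pool.Agent.H570.TH

open Finset Pool.Agent.H570.LQ

/-- the coefficients of the expansion of the singular series of a pair -/
noncomputable def hh (k e : ℕ) : ℝ := ∏ p ∈ e.primeFactors, (((1 - (p : ℝ)⁻¹)⁻¹) ^ k - 1)

lemma loc_ge (p k : ℕ) (hp : 2 ≤ p) : 1 ≤ ((1 - (p : ℝ)⁻¹)⁻¹) ^ k := by
  have hp2 : (2 : ℝ) ≤ p := by exact_mod_cast hp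
  have h1 : (0 : ℝ) < (p : ℝ)⁻¹ := by positivity
  have h2 : (p : ℝ)⁻¹ < 1 := inv_lt_one_of_one_lt₀ (by linarith)
  exact one_le_pow₀ ((one_le_inv₀ (by linarith)).2 (by linarith))

lemma hh_nonneg (k e : ℕ) : 0 ≤ hh k e := by
  refine Finset.prod_nonneg fun p hp => ?_
  have := loc_ge p k (Nat.prime_of_mem_primeFactors hp).two_le
  linarith

lemma hh_le (k e : ℕ) (he : Squarefree e) : hh k e ≤ gw (2 ^ (k + 1)) e := by
  unfold hh gw
  have h1 : (e : ℝ) = ∏ p ∈ e.primeFactors, (p : ℝ) := by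
    have := Nat.prod_primeFactors_of_squarefree he
    have h2 : ((∏ p ∈ e.primeFactors, p : ℕ) : ℝ) = e := by rw [this]
    rw [← h2]; push_cast; rfl
  have h2 : ((2 ^ (k + 1) : ℕ) : ℝ) ^ e.primeFactors.card / (e : ℝ) =
      ∏ p ∈ e.primeFactors, (((2 ^ (k + 1) : ℕ) : ℝ) / p) := by
    rw [Finset.prod_div_distrib, Finset.prod_const, ← h1]
  rw [h2]
  refine Finset.prod_le_prod (fun p hp => ?_) fun p hp => ?_
  · have := loc_ge p k (Nat.prime_of_mem_primeFactors hp).two_le
    linarith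
  · have := local_le p k (Nat.prime_of_mem_primeFactors hp).two_le
    linarith

lemma primeFactors_diff (W l : ℕ) (hW : 1 ≤ W) (hl : 1 ≤ l) :
    (W * l).primeFactors \ W.primeFactors = l.primeFactors \ W.primeFactors := by
  rw [Nat.primeFactors_mul (by omega) (by omega)]
  ext p
  simp only [mem_sdiff, mem_union]
  tauto

/-- exact expansion -/
lemma rat_expand (W l k J : ℕ) (hW : 1 ≤ W) (hl : 1 ≤ l) (hlJ : l ≤ J) :
    rat W (W * l) ^ k = ∑ e ∈ (Icc 1 J).filter (fun e => Squarefree e ∧ e ∣ l ∧ e.Coprime W), hh k e := by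
  rw [rat_eq W (W * l) hW (Nat.mul_pos hW hl) (Dvd.intro _ rfl), ← Finset.prod_pow, primeFactors_diff W l hW hl]
  set S := l.primeFactors \ W.primeFactors with hS
  have hSp : ∀ p ∈ S, p.Prime := fun p hp => Nat.prime_of_mem_primeFactors (Finset.mem_sdiff.1 hp).1
  have h1 : ∏ p ∈ S, ((1 - (p : ℝ)⁻¹)⁻¹) ^ k = ∏ p ∈ S, (1 + (((1 - (p : ℝ)⁻¹)⁻¹) ^ k - 1)) :=
    Finset.prod_congr rfl fun p _ => by ring
  rw [h1, Finset.prod_one_add]
  have h2 : ∑ T ∈ S.powerset, ∏ p ∈ T, (((1 - (p : ℝ)⁻¹)⁻¹) ^ k - 1) = ∑ T ∈ S.powerset, hh k (∏ p ∈ T, p) := by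
    refine Finset.sum_congr rfl fun T hT => ?_
    have hT' : ∀ p ∈ T, p.Prime := fun p hp => hSp p (Finset.mem_powerset.1 hT hp)
    unfold hh
    rw [Nat.primeFactors_prod hT']
  rw [h2]
  refine Finset.sum_bij (fun T _ => ∏ p ∈ T, p) ?_ ?_ ?_ ?_
  · intro T hT
    have hTS := Finset.mem_powerset.1 hT
    have hT' : ∀ p ∈ T, p.Prime := fun p hp => hSp p (hTS hp)
    have h1 : (∏ p ∈ T, p) ∣ l :=
      (Finset.prod_dvd_prod_of_subset _ _ _ (hTS.trans Finset.sdiff_subset)).trans (Nat.prod_primeFactors_dvd l)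
    have h2 : 0 < ∏ p ∈ T, p := Finset.prod_pos fun p hp => (hT' p hp).pos
    simp only [mem_filter, mem_Icc]
    refine ⟨⟨h2, (Nat.le_of_dvd hl h1).trans hlJ⟩, ?_, h1, ?_⟩
    · have h3 : Set.Pairwise (T : Set ℕ) (Function.onFun IsRelPrime (fun p : ℕ => p)) := by
        intro p hp q hq hpq
        have := (Nat.coprime_primes (hT' p hp) (hT' q hq)).2 hpq
        exact Nat.coprime_iff_isRelPrime.1 this
      exact (Finset.squarefree_prod_of_pairwise_isCoprime (s := T) (f := fun p => p) (fun p hp q hq hpq => h3 hp hq hpq)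
        fun p hp => (hT' p hp).prime.squarefree)
    · refine Nat.Coprime.prod_left fun p hp => ?_
      have h3 := Finset.mem_sdiff.1 (hTS hp)
      rw [Nat.Prime.coprime_iff_not_dvd (hT' p hp)]
      intro h4
      exact h3.2 (Nat.mem_primeFactors.2 ⟨hT' p hp, h4, by omega⟩)
  · intro T hT T' hT' heq
    have h1 : ∀ p ∈ T, p.Prime := fun p hp => hSp p (Finset.mem_powerset.1 hT hp)
    have h2 : ∀ p ∈ T', p.Prime := fun p hp => hSp p (Finset.mem_powerset.1 hT' hp)
    have h3 := Nat.primeFactors_prod h1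
    have h4 := Nat.primeFactors_prod h2
    rw [← h3, ← h4]
    exact congrArg Nat.primeFactors heq
  · intro e he
    simp only [mem_filter, mem_Icc] at he
    obtain ⟨⟨he1, heJ⟩, hsq, hel, hcop⟩ := he
    refine ⟨e.primeFactors, ?_, Nat.prod_primeFactors_of_squarefree hsq⟩
    rw [Finset.mem_powerset, hS]
    intro p hp
    have hpp := Nat.prime_of_mem_primeFactors hp
    have hpe := Nat.dvd_of_mem_primeFactors hp
    refine Finset.mem_sdiff.2 ⟨Nat.mem_primeFactors.2 ⟨hpp, hpe.trans hel, by omega⟩, fun h => ?_⟩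
    have hpW := Nat.dvd_of_mem_primeFactors h
    have := Nat.Coprime.eq_one_of_dvd (Nat.Coprime.coprime_dvd_left hpe hcop) hpW
    exact hpp.one_lt.ne' this
  · intro T _; rfl

/-- off-diagonal sums over congruent pairs -/
noncomputable def OO (c : ℕ → ℝ) (J e : ℕ) : ℝ :=
  ∑ j ∈ range J, ∑ j' ∈ (range J).filter (fun j' => j' ≠ j ∧ j' ≡ j [MOD e]), c j * c j'

lemma dd_symm (j j' : ℕ) : dd j j' = dd j' j := by unfold dd; omega

lemma quad_expand (c : ℕ → ℝ) (W k J : ℕ) (hW : 1 ≤ W) :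
    ∑ j ∈ range J, ∑ j' ∈ (range J).filter (fun j' => j' ≠ j), c j * c j' * (rat W (W * dd j j') ^ k - 1) =
      ∑ e ∈ (Icc 2 J).filter (fun e => Squarefree e ∧ e.Coprime W), hh k e * OO c J e := by
  have h1 : ∀ j ∈ range J, ∀ j' ∈ (range J).filter (fun j' => j' ≠ j), c j * c j' * (rat W (W * dd j j') ^ k - 1) =
      ∑ e ∈ (Icc 2 J).filter (fun e => Squarefree e ∧ e.Coprime W),
        if j' ≡ j [MOD e] then hh k e * (c j * c j') else 0 := by
    intro j hj j' hj'
    have hj1 := Finset.mem_range.1 hj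
    have hj2 := Finset.mem_filter.1 hj'
    have hj3 := Finset.mem_range.1 hj2.1
    have hl1 := dd_pos j j' hj2.2
    have hl2 : dd j j' ≤ J := by unfold dd; omega
    rw [rat_expand W (dd j j') k J hW hl1 hl2]
    have h2 : (Icc 1 J).filter (fun e => Squarefree e ∧ e ∣ dd j j' ∧ e.Coprime W) =
        insert 1 ((Icc 2 J).filter (fun e => Squarefree e ∧ e ∣ dd j j' ∧ e.Coprime W)) := by
      ext e
      simp only [mem_filter, mem_Icc, mem_insert]
      constructor
      · rintro ⟨⟨a1, a2⟩, a3⟩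
        rcases Nat.lt_or_ge e 2 with h | h
        · left; omega
        · right; exact ⟨⟨h, a2⟩, a3⟩
      · rintro (rfl | ⟨⟨a1, a2⟩, a3⟩)
        · exact ⟨⟨le_rfl, by omega⟩, squarefree_one, one_dvd _, Nat.coprime_one_left W⟩
        · exact ⟨⟨by omega, a2⟩, a3⟩
    rw [h2, Finset.sum_insert (by simp)]
    have h3 : hh k 1 = 1 := by unfold hh; simp
    rw [h3, add_sub_cancel_left, Finset.mul_sum, Finset.sum_filter, Finset.sum_filter]
    refine Finset.sum_congr rfl fun e _ => ?_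
    have h4 : e ∣ dd j j' ↔ j' ≡ j [MOD e] := dvd_dd_iff e j j'
    by_cases h5 : Squarefree e ∧ e.Coprime W
    · by_cases h6 : j' ≡ j [MOD e]
      · rw [if_pos ⟨h5.1, h4.2 h6, h5.2⟩, if_pos h5, if_pos h6]; ring
      · rw [if_neg (fun h => h6 (h4.1 h.2.1)), if_pos h5, if_neg h6]
    · rw [if_neg (fun h => h5 ⟨h.1, h.2.2⟩), if_neg h5]
  rw [Finset.sum_congr rfl fun j hj => Finset.sum_congr rfl (h1 j hj)]
  have h2 : ∀ e, hh k e * OO c J e = ∑ j ∈ range J, ∑ j' ∈ (range J).filter (fun j' => j' ≠ j),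
      if j' ≡ j [MOD e] then hh k e * (c j * c j') else 0 := by
    intro e
    unfold OO
    rw [Finset.mul_sum]
    refine Finset.sum_congr rfl fun j _ => ?_
    rw [Finset.mul_sum, ← Finset.sum_filter, Finset.filter_filter]
  simp only [h2]
  conv_rhs => rw [Finset.sum_comm]
  refine Finset.sum_congr rfl fun j _ => ?_
  rw [Finset.sum_comm]

lemma card_mod (J e b : ℕ) (he : 1 ≤ e) :
    |(((range J).filter (fun j => j ≡ b [MOD e])).card : ℝ) - J / e| ≤ 1 := by
  have h1 : ((range J).filter (fun j => j ≡ b [MOD e])).card = (cls 0 J e (b + 1)).card := by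
    unfold cls
    refine Finset.card_bij (fun j _ => j + 1) ?_ ?_ ?_
    · intro j hj
      simp only [mem_filter, mem_range, mem_Ioc] at hj ⊢
      exact ⟨⟨by omega, by omega⟩, hj.2.add_right 1⟩
    · intro a _ b _ h; omega
    · intro n hn
      simp only [mem_filter, mem_Ioc] at hn
      refine ⟨n - 1, ?_, by omega⟩
      simp only [mem_filter, mem_range]
      refine ⟨by omega, ?_⟩
      have : (n - 1) + 1 ≡ b + 1 [MOD e] := by
        rw [Nat.sub_add_cancel (by omega)]; exact hn.2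
      exact Nat.ModEq.add_right_cancel' 1 this
  rw [h1, abs_le]
  have a1 := card_cls_le 0 J e (b + 1) he
  have a2 := le_card_cls 0 J e (b + 1) he
  constructor <;> linarith

/-- the normalised indicator function -/
noncomputable def uu (J : ℕ) (j : ℕ) : ℝ := if j < J then 1 / (J : ℝ) else 0

lemma uu_nonneg (J j : ℕ) : 0 ≤ uu J j := by unfold uu; split_ifs <;> positivity

lemma sum_uu (J J' : ℕ) (h : J ≤ J') (hJ : 1 ≤ J) : ∑ j ∈ range J', uu J j = 1 := by
  unfold uu
  rw [← Finset.sum_filter, Finset.sum_const, nsmul_eq_mul]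
  have : (range J').filter (fun j => j < J) = range J := by
    ext j; simp only [mem_filter, mem_range]; omega
  rw [this, Finset.card_range]
  have : (J : ℝ) ≠ 0 := by positivity
  field_simp

lemma sum_uu_sq (J J' : ℕ) (h : J ≤ J') (hJ : 1 ≤ J) : ∑ j ∈ range J', uu J j ^ 2 = 1 / J := by
  have h1 : ∀ j, uu J j ^ 2 = uu J j * (1 / J) := by
    intro j; unfold uu; split_ifs <;> ring
  simp only [h1]
  rw [← Finset.sum_mul, sum_uu J J' h hJ, one_mul]

/-- class sums of the normalised indicator function -/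
lemma cls_uu (J J' e b : ℕ) (h : J ≤ J') (hJ : 1 ≤ J) (he : 1 ≤ e) :
    |∑ j ∈ (range J').filter (fun j => j ≡ b [MOD e]), uu J j - 1 / e| ≤ 1 / J := by
  have h1 : ∑ j ∈ (range J').filter (fun j => j ≡ b [MOD e]), uu J j =
      (((range J).filter (fun j => j ≡ b [MOD e])).card : ℝ) * (1 / J) := by
    unfold uu
    rw [← Finset.sum_filter, Finset.sum_const, nsmul_eq_mul, Finset.filter_filter]
    have : (range J').filter (fun j => j ≡ b [MOD e] ∧ j < J) = (range J).filter (fun j => j ≡ b [MOD e]) := by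
      ext j; simp only [mem_filter, mem_range]
      constructor
      · rintro ⟨a1, a2, a3⟩; exact ⟨a3, a2⟩
      · rintro ⟨a1, a2⟩; exact ⟨by omega, a2, a1⟩
    rw [this]
  rw [h1]
  have hJ' : (0 : ℝ) < J := by exact_mod_cast hJ
  have h2 := card_mod J e b he
  have h3 : (((range J).filter (fun j => j ≡ b [MOD e])).card : ℝ) * (1 / J) - 1 / e =
      ((((range J).filter (fun j => j ≡ b [MOD e])).card : ℝ) - J / e) * (1 / J) := by
    field_simp
  rw [h3, abs_mul, abs_of_nonneg (by positivity : (0 : ℝ) ≤ 1 / J)]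
  calc _ ≤ 1 * (1 / (J : ℝ)) := mul_le_mul_of_nonneg_right h2 (by positivity)
    _ = _ := one_mul _

/-- the off-diagonal sum is a sum of squares minus the diagonal -/
lemma OO_eq (c : ℕ → ℝ) (J e : ℕ) (he : 1 ≤ e) :
    OO c J e = ∑ b ∈ range e, (∑ j ∈ (range J).filter (fun j => j ≡ b [MOD e]), c j) ^ 2 - ∑ j ∈ range J, c j ^ 2 := by
  unfold OO
  have h1 : ∀ j ∈ range J, ∑ j' ∈ (range J).filter (fun j' => j' ≠ j ∧ j' ≡ j [MOD e]), c j * c j' =
      ∑ j' ∈ (range J).filter (fun j' => j' ≡ j [MOD e]), c j * c j' - c j ^ 2 := by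
    intro j hj
    have h2 : (range J).filter (fun j' => j' ≡ j [MOD e]) =
        insert j ((range J).filter (fun j' => j' ≠ j ∧ j' ≡ j [MOD e])) := by
      ext x
      simp only [mem_filter, mem_insert]
      constructor
      · rintro ⟨a1, a2⟩
        by_cases h : x = j
        · exact Or.inl h
        · exact Or.inr ⟨a1, h, a2⟩
      · rintro (rfl | ⟨a1, a2, a3⟩)
        · exact ⟨hj, Nat.ModEq.refl _⟩
        · exact ⟨a1, a3⟩
    rw [h2, Finset.sum_insert (by simp)]
    ring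
  rw [Finset.sum_congr rfl h1, Finset.sum_sub_distrib]
  congr 1
  have h3 : ∀ j ∈ range J, j % e ∈ range e := fun j _ => Finset.mem_range.2 (Nat.mod_lt _ he)
  rw [← Finset.sum_fiberwise_of_maps_to h3]
  refine Finset.sum_congr rfl fun b hb => ?_
  have hb' := Finset.mem_range.1 hb
  have h4 : ∀ j, j % e = b ↔ j ≡ b [MOD e] := fun j => by
    unfold Nat.ModEq; rw [Nat.mod_eq_of_lt hb']
  simp only [h4]
  rw [sq, Finset.sum_mul_sum]
  refine Finset.sum_congr rfl fun j hj => ?_
  have hj' := (Finset.mem_filter.1 hj).2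
  refine Finset.sum_congr ?_ fun _ _ => rfl
  ext x
  simp only [mem_filter]
  exact ⟨fun h => ⟨h.1, h.2.trans hj'⟩, fun h => ⟨h.1, h.2.trans hj'.symm⟩⟩

/-- pairs of congruent numbers below `J` -/
lemma OO_uu (J J' e : ℕ) (h : J ≤ J') (hJ : 1 ≤ J) (he : 1 ≤ e) : OO (uu J) J' e ≤ 1 / e := by
  have hJ' : (0 : ℝ) < J := by exact_mod_cast hJ
  have he' : (0 : ℝ) < e := by exact_mod_cast he
  have key : ∀ j ∈ range J', ∑ j' ∈ (range J').filter (fun j' => j' ≠ j ∧ j' ≡ j [MOD e]), uu J j * uu J j' ≤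
      uu J j * (1 / e) := by
    intro j _
    by_cases hj : j < J
    · rw [← Finset.mul_sum]
      refine mul_le_mul_of_nonneg_left ?_ (uu_nonneg J j)
      have h1 : ∑ j' ∈ (range J').filter (fun j' => j' ≠ j ∧ j' ≡ j [MOD e]), uu J j' =
          ((((range J).filter (fun j' => j' ≡ j [MOD e])).erase j).card : ℝ) * (1 / J) := by
        unfold uu
        rw [← Finset.sum_filter, Finset.sum_const, nsmul_eq_mul, Finset.filter_filter]
        have : (range J').filter (fun j' => (j' ≠ j ∧ j' ≡ j [MOD e]) ∧ j' < J) =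
            ((range J).filter (fun j' => j' ≡ j [MOD e])).erase j := by
          ext x; simp only [mem_filter, mem_range, mem_erase]
          constructor
          · rintro ⟨a1, ⟨a2, a3⟩, a4⟩; exact ⟨a2, a4, a3⟩
          · rintro ⟨a1, a2, a3⟩; exact ⟨by omega, ⟨a1, a3⟩, a2⟩
        rw [this]
      rw [h1]
      have h2 : j ∈ (range J).filter (fun j' => j' ≡ j [MOD e]) :=
        Finset.mem_filter.2 ⟨Finset.mem_range.2 hj, Nat.ModEq.refl _⟩
      have h3 : ((((range J).filter (fun j' => j' ≡ j [MOD e])).erase j).card : ℝ) ≤ J / e := by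
        rw [Finset.card_erase_of_mem h2, Nat.cast_sub (Finset.card_pos.2 ⟨j, h2⟩)]
        have := (abs_le.1 (card_mod J e j he)).2
        push_cast
        linarith
      calc _ ≤ (J / e : ℝ) * (1 / J) := mul_le_mul_of_nonneg_right h3 (by positivity)
        _ = 1 / e := by field_simp
    · have : uu J j = 0 := by unfold uu; rw [if_neg hj]
      simp [this]
  calc OO (uu J) J' e ≤ ∑ j ∈ range J', uu J j * (1 / e) := Finset.sum_le_sum key
    _ = 1 / e := by rw [← Finset.sum_mul, sum_uu J J' h hJ, one_mul]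

/-- the difference of two normalised indicator functions -/
noncomputable def vv (J J' : ℕ) (j : ℕ) : ℝ := uu J j - uu J' j

lemma OO_vv1 (J J' e : ℕ) (h : J ≤ J') (hJ : 1 ≤ J) (he : 1 ≤ e) : OO (vv J J') J' e ≤ e * (4 / (J : ℝ) ^ 2) := by
  have hJr : (0 : ℝ) < J := by exact_mod_cast hJ
  have hJr' : (0 : ℝ) < J' := by exact_mod_cast le_trans hJ h
  have hJJ : (1 : ℝ) / J' ≤ 1 / J := one_div_le_one_div_of_le hJr (by exact_mod_cast h)
  rw [OO_eq _ _ _ he]
  have h1 : ∀ b ∈ range e, (∑ j ∈ (range J').filter (fun j => j ≡ b [MOD e]), vv J J' j) ^ 2 ≤ 4 / (J : ℝ) ^ 2 := by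
    intro b _
    have a1 := cls_uu J J' e b h hJ he
    have a2 := cls_uu J' J' e b le_rfl (le_trans hJ h) he
    have h2 : |∑ j ∈ (range J').filter (fun j => j ≡ b [MOD e]), vv J J' j| ≤ 2 / J := by
      unfold vv
      rw [Finset.sum_sub_distrib]
      rw [abs_le] at a1 a2 ⊢
      have : (2 : ℝ) / J = 1 / J + 1 / J := by ring
      constructor <;> linarith [a1.1, a1.2, a2.1, a2.2]
    calc _ = |∑ j ∈ (range J').filter (fun j => j ≡ b [MOD e]), vv J J' j| ^ 2 := (sq_abs _).symm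
      _ ≤ (2 / (J : ℝ)) ^ 2 := pow_le_pow_left₀ (abs_nonneg _) h2 2
      _ = _ := by ring
  have h3 : 0 ≤ ∑ j ∈ range J', vv J J' j ^ 2 := Finset.sum_nonneg fun j _ => sq_nonneg _
  calc _ ≤ ∑ b ∈ range e, 4 / (J : ℝ) ^ 2 - 0 := by
        have := Finset.sum_le_sum h1
        linarith
    _ = _ := by rw [Finset.sum_const, Finset.card_range, nsmul_eq_mul, sub_zero]

lemma OO_vv2 (J J' e : ℕ) (h : J ≤ J') (hJ : 1 ≤ J) (he : J ≤ e) : OO (vv J J') J' e ≤ 1 / e := by
  have he1 : 1 ≤ e := le_trans hJ he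
  refine le_trans ?_ (OO_uu J' J' e le_rfl (le_trans hJ h) he1)
  unfold OO
  refine Finset.sum_le_sum fun j hj => Finset.sum_le_sum fun j' hj' => ?_
  have h1 := (Finset.mem_filter.1 hj').2
  have h2 : uu J j * uu J j' = 0 := by
    by_cases ha : j < J
    · by_cases hb : j' < J
      · exfalso
        have h3 : j' = j := Nat.ModEq.eq_of_lt_of_lt h1.2 (by omega) (by omega)
        exact h1.1 h3
      · have : uu J j' = 0 := by unfold uu; rw [if_neg hb]
        rw [this, mul_zero]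
    · have : uu J j = 0 := by unfold uu; rw [if_neg ha]
      rw [this, zero_mul]
  have h3 := mul_nonneg (uu_nonneg J j) (uu_nonneg J' j')
  have h4 := mul_nonneg (uu_nonneg J' j) (uu_nonneg J j')
  unfold vv
  nlinarith

/-- the quadratic form of the base weight -/
lemma QF_uu (k : ℕ) : ∃ C1 : ℝ, 1 ≤ C1 ∧ ∀ W z J : ℕ, 1 ≤ W → 1 ≤ z → 1 ≤ J → (∀ p : ℕ, p.Prime → p ≤ z → p ∣ W) →
    ∑ j ∈ range J, ∑ j' ∈ (range J).filter (fun j' => j' ≠ j), uu J j * uu J j' * (rat W (W * dd j j') ^ k - 1) ≤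
      C1 / Real.sqrt z := by
  set b : ℕ := 2 ^ (k + 1) with hb
  have hb1 : 1 ≤ b := Nat.one_le_two_pow
  set Cb' : ℝ := (b : ℝ) ^ (b ^ 2) with hCb'
  have hCb1' : 1 ≤ Cb' := one_le_pow₀ (by exact_mod_cast hb1)
  refine ⟨2 * Cb', by linarith, fun W z J hW hz hJ hzW => ?_⟩
  rw [quad_expand _ W k J hW]
  have h1 : ∀ e ∈ (Icc 2 J).filter (fun e => Squarefree e ∧ e.Coprime W),
      hh k e * OO (uu J) J e ≤ Cb' * (1 / ((e : ℝ) * Real.sqrt e)) := by
    intro e he
    have h2 := Finset.mem_filter.1 he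
    have h3 := mem_Icc.1 h2.1
    calc hh k e * OO (uu J) J e ≤ hh k e * (1 / e) :=
          mul_le_mul_of_nonneg_left (OO_uu J J e le_rfl hJ (by omega)) (hh_nonneg k e)
      _ ≤ gw b e * (1 / e) := mul_le_mul_of_nonneg_right (hh_le k e h2.2.1) (by positivity)
      _ = gw b e / e := by ring
      _ ≤ _ := gw_e b e hb1 (by omega)
  calc _ ≤ ∑ e ∈ (Icc 2 J).filter (fun e => Squarefree e ∧ e.Coprime W), Cb' * (1 / ((e : ℝ) * Real.sqrt e)) :=
        Finset.sum_le_sum h1
    _ ≤ ∑ e ∈ Ioc z J, Cb' * (1 / ((e : ℝ) * Real.sqrt e)) := by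
        refine Finset.sum_le_sum_of_subset_of_nonneg ?_ fun e _ _ => by positivity
        intro e he
        have h2 := Finset.mem_filter.1 he
        have h3 := mem_Icc.1 h2.1
        refine mem_Ioc.2 ⟨?_, h3.2⟩
        by_contra h8
        have h6 : e ≠ 1 := by omega
        have h9 := Nat.minFac_prime h6
        have h10 : e.minFac ≤ z := le_trans (Nat.minFac_le (by omega)) (by omega)
        have h11 := hzW _ h9 h10
        have h12 := Nat.Coprime.eq_one_of_dvd (Nat.Coprime.coprime_dvd_left (Nat.minFac_dvd e) h2.2.2) h11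
        exact h9.one_lt.ne' h12
    _ ≤ Cb' * (2 / Real.sqrt z) := by
        rw [← Finset.mul_sum]
        exact mul_le_mul_of_nonneg_left (tele z J hz) (by linarith)
    _ = _ := by ring

/-- the quadratic form of the difference weight -/
lemma QF_vv (k : ℕ) : ∃ C2 : ℝ, 1 ≤ C2 ∧ ∀ W J J' : ℕ, 1 ≤ W → 1 ≤ J → J ≤ J' →
    ∑ j ∈ range J', ∑ j' ∈ (range J').filter (fun j' => j' ≠ j),
      vv J J' j * vv J J' j' * (rat W (W * dd j j') ^ k - 1) ≤ C2 / Real.sqrt J := by
  set b : ℕ := 2 ^ (k + 1) with hb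
  have hb1 : 1 ≤ b := Nat.one_le_two_pow
  set Cb' : ℝ := (b : ℝ) ^ (b ^ 2) with hCb'
  have hCb1' : 1 ≤ Cb' := one_le_pow₀ (by exact_mod_cast hb1)
  refine ⟨6 * Cb', by linarith, fun W J J' hW hJ hJJ => ?_⟩
  have hJr : (1 : ℝ) ≤ J := by exact_mod_cast hJ
  have hsJ : 0 < Real.sqrt J := Real.sqrt_pos.2 (by linarith)
  have hss : Real.sqrt J * Real.sqrt J = J := Real.mul_self_sqrt (by linarith)
  rw [quad_expand _ W k J' hW]
  have h1 : ∀ e ∈ (Icc 2 J').filter (fun e => Squarefree e ∧ e.Coprime W), e ≤ J →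
      hh k e * OO (vv J J') J' e ≤ 4 * Cb' * Real.sqrt J / (J : ℝ) ^ 2 := by
    intro e he heJ
    have h2 := Finset.mem_filter.1 he
    have h3 := mem_Icc.1 h2.1
    have he0 : (0 : ℝ) < e := by exact_mod_cast (by omega : 0 < e)
    calc hh k e * OO (vv J J') J' e ≤ hh k e * (e * (4 / (J : ℝ) ^ 2)) :=
          mul_le_mul_of_nonneg_left (OO_vv1 J J' e hJJ hJ (by omega)) (hh_nonneg k e)
      _ ≤ gw b e * (e * (4 / (J : ℝ) ^ 2)) := mul_le_mul_of_nonneg_right (hh_le k e h2.2.1) (by positivity)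
      _ = (b : ℝ) ^ e.primeFactors.card * (4 / (J : ℝ) ^ 2) := by unfold gw; field_simp
      _ ≤ (Cb' * Real.sqrt J) * (4 / (J : ℝ) ^ 2) := by
          refine mul_le_mul_of_nonneg_right ?_ (by positivity)
          refine (omega_bound b e hb1 (by omega)).trans (mul_le_mul_of_nonneg_left ?_ (by linarith))
          exact Real.sqrt_le_sqrt (by exact_mod_cast heJ)
      _ = _ := by ring
  have h2 : ∀ e ∈ (Icc 2 J').filter (fun e => Squarefree e ∧ e.Coprime W), J < e →
      hh k e * OO (vv J J') J' e ≤ Cb' * (1 / ((e : ℝ) * Real.sqrt e)) := by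
    intro e he heJ
    have h2 := Finset.mem_filter.1 he
    have h3 := mem_Icc.1 h2.1
    calc hh k e * OO (vv J J') J' e ≤ hh k e * (1 / e) :=
          mul_le_mul_of_nonneg_left (OO_vv2 J J' e hJJ hJ heJ.le) (hh_nonneg k e)
      _ ≤ gw b e * (1 / e) := mul_le_mul_of_nonneg_right (hh_le k e h2.2.1) (by positivity)
      _ = gw b e / e := by ring
      _ ≤ _ := gw_e b e hb1 (by omega)
  rw [← Finset.sum_filter_add_sum_filter_not ((Icc 2 J').filter (fun e => Squarefree e ∧ e.Coprime W)) (fun e => e ≤ J)]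
  have h3 : ∑ e ∈ ((Icc 2 J').filter (fun e => Squarefree e ∧ e.Coprime W)).filter (fun e => e ≤ J),
      hh k e * OO (vv J J') J' e ≤ 4 * Cb' / Real.sqrt J := by
    calc _ ≤ ∑ e ∈ ((Icc 2 J').filter (fun e => Squarefree e ∧ e.Coprime W)).filter (fun e => e ≤ J),
          4 * Cb' * Real.sqrt J / (J : ℝ) ^ 2 := Finset.sum_le_sum fun e he => by
            have := Finset.mem_filter.1 he
            exact h1 e this.1 this.2
      _ = ((((Icc 2 J').filter (fun e => Squarefree e ∧ e.Coprime W)).filter (fun e => e ≤ J)).card : ℝ) *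
          (4 * Cb' * Real.sqrt J / (J : ℝ) ^ 2) := by rw [Finset.sum_const, nsmul_eq_mul]
      _ ≤ J * (4 * Cb' * Real.sqrt J / (J : ℝ) ^ 2) := by
          refine mul_le_mul_of_nonneg_right ?_ (by positivity)
          have : (((Icc 2 J').filter (fun e => Squarefree e ∧ e.Coprime W)).filter (fun e => e ≤ J)) ⊆ Icc 1 J := by
            intro e he
            have h4 := Finset.mem_filter.1 he
            have h5 := mem_Icc.1 (Finset.mem_filter.1 h4.1).1
            exact mem_Icc.2 ⟨by omega, h4.2⟩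
          have := Finset.card_le_card this
          rw [Nat.card_Icc, Nat.add_sub_cancel] at this
          exact_mod_cast this
      _ = 4 * Cb' / Real.sqrt J := by
          rw [eq_div_iff hsJ.ne']
          have : (J : ℝ) * (4 * Cb' * Real.sqrt J / (J : ℝ) ^ 2) * Real.sqrt J =
              4 * Cb' * (Real.sqrt J * Real.sqrt J) / J := by field_simp
          rw [this, hss]
          field_simp
  have h4 : ∑ e ∈ ((Icc 2 J').filter (fun e => Squarefree e ∧ e.Coprime W)).filter (fun e => ¬ e ≤ J),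
      hh k e * OO (vv J J') J' e ≤ 2 * Cb' / Real.sqrt J := by
    calc _ ≤ ∑ e ∈ ((Icc 2 J').filter (fun e => Squarefree e ∧ e.Coprime W)).filter (fun e => ¬ e ≤ J),
          Cb' * (1 / ((e : ℝ) * Real.sqrt e)) := Finset.sum_le_sum fun e he => by
            have := Finset.mem_filter.1 he
            exact h2 e this.1 (not_le.1 this.2)
      _ ≤ ∑ e ∈ Ioc J J', Cb' * (1 / ((e : ℝ) * Real.sqrt e)) := by
          refine Finset.sum_le_sum_of_subset_of_nonneg ?_ fun e _ _ => by positivity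
          intro e he
          have h4 := Finset.mem_filter.1 he
          have h5 := mem_Icc.1 (Finset.mem_filter.1 h4.1).1
          exact mem_Ioc.2 ⟨not_le.1 h4.2, h5.2⟩
      _ ≤ Cb' * (2 / Real.sqrt J) := by
          rw [← Finset.mul_sum]
          exact mul_le_mul_of_nonneg_left (tele J J' hJ) (by linarith)
      _ = _ := by ring
  calc _ ≤ 4 * Cb' / Real.sqrt J + 2 * Cb' / Real.sqrt J := add_le_add h3 h4
    _ = _ := by ring

end Pool.Agent.H570.TH
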