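import Mathlib
import Pool.Agent.H570.LQ.Var
import Pool.Agent.H570.TH.Pair
import Pool.Agent.H570.TH.Wts

/-! Second moments of weighted sums of products of values of the von Mangoldt function. -/

set_option autoImplicit false

namespace Pool.Agent.H570.TH

open Finset Pool.Agent.H570.LQ

/-- the functions `g i` behave like polynomials with non-negative integer coefficients -/
def PolyLike {k : ℕ} (g : Fin k → ℕ → ℕ) : Prop :=
  ∀ i n n', n ≤ n' → g i n ≤ g i n' ∧ (n' - n) ∣ g i n' - g i n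

/-- the product of the values of the von Mangoldt function -/
noncomputable def PG {k : ℕ} (g : Fin k → ℕ → ℕ) (v : Fin k → ℕ × ℕ) (n : ℕ) : ℝ :=
  ∏ i, vM ((v i).1 + n * (v i).2 + g i n)

/-- hypotheses on the parameters -/
structure Hyp {k : ℕ} (g : Fin k → ℕ → ℕ) (s t : Fin k → ℕ) (H W K N R : ℕ) (E ρ L : ℝ) : Prop where
  ap : AP N E R
  hE : 0 ≤ E
  hEN : E ≤ N
  hW : 1 ≤ W
  hR : K * W ≤ R
  hK : 1 ≤ K
  hg : PolyLike g
  hN : ∀ i, s i + g i K + K * (t i + H) + H ≤ N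
  hH : 1 ≤ H
  h1 : (4 * E + 1) * W ^ 2 ≤ ρ * H
  h2 : E * N * (K + 2) ^ 2 * W ^ 2 ≤ ρ * H ^ 2
  hρ : ρ ≤ 1
  hρ0 : 0 ≤ ρ
  hL : Real.log N ≤ L
  hL0 : 0 ≤ L

/-- the residue class `r` is good for the class of the vector -/
def Cop {k : ℕ} (g : Fin k → ℕ → ℕ) (W r : ℕ) (α δ : Fin k → ℕ) : Prop :=
  ∀ i, (α i + r * δ i + g i r).Coprime W

lemma shift_cls (f : ℕ → ℝ) (s H W α x : ℕ) :
    ∑ a ∈ cls s H W α, f (a + x) = ∑ a ∈ cls (s + x) H W (α + x), f a := inner_f f s H W α x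

lemma g_modEq {k : ℕ} {g : Fin k → ℕ → ℕ} (hg : PolyLike g) (i : Fin k) (W n r : ℕ) (h : n ≡ r [MOD W]) :
    g i n ≡ g i r [MOD W] := by
  rcases le_total n r with h1 | h1
  · have h2 := hg i n r h1
    have h3 : W ∣ r - n := (Nat.modEq_iff_dvd' h1).1 h
    exact (Nat.modEq_iff_dvd' h2.1).2 (h3.trans h2.2)
  · have h2 := hg i r n h1
    have h3 : W ∣ n - r := (Nat.modEq_iff_dvd' h1).1 h.symm
    exact ((Nat.modEq_iff_dvd' h2.1).2 (h3.trans h2.2)).symm

section
variable {k : ℕ} {g : Fin k → ℕ → ℕ} {s t : Fin k → ℕ} {H W r K N R : ℕ} {α δ : Fin k → ℕ} {E ρ L : ℝ}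

/-- one value -/
noncomputable def T1 {k : ℕ} (g : Fin k → ℕ → ℕ) (s t : Fin k → ℕ) (H W : ℕ) (α δ : Fin k → ℕ) (i : Fin k) (n : ℕ) : ℝ :=
  ∑ x ∈ cls (s i) H W (α i) ×ˢ cls (t i) H W (δ i), vM (x.1 + n * x.2 + g i n)

/-- two values -/
noncomputable def T2 {k : ℕ} (g : Fin k → ℕ → ℕ) (s t : Fin k → ℕ) (H W : ℕ) (α δ : Fin k → ℕ) (i : Fin k) (n n' : ℕ) : ℝ :=
  ∑ x ∈ cls (s i) H W (α i) ×ˢ cls (t i) H W (δ i), vM (x.1 + n * x.2 + g i n) * vM (x.1 + n' * x.2 + g i n')

lemma T1_eq (i : Fin k) (n : ℕ) :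
    T1 g s t H W α δ i n = S1 (s i + g i n) (t i) H W (α i + g i n) (δ i) n := by
  unfold T1 S1
  rw [Finset.sum_product, Finset.sum_comm]
  refine Finset.sum_congr rfl fun d _ => ?_
  rw [← shift_cls (fun a => vM (a + n * d)) (s i) H W (α i) (g i n)]
  refine Finset.sum_congr rfl fun a _ => ?_
  congr 1; ring

lemma T2_eq (hg : PolyLike g) (i : Fin k) (n D : ℕ) : ∃ e : ℕ, g i (n + D) = g i n + D * e ∧
    T2 g s t H W α δ i n (n + D) = S2e (s i + g i n) (t i) H W (α i + g i n) (δ i) n D e := by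
  obtain ⟨h1, h2⟩ := hg i n (n + D) (Nat.le_add_right n D)
  rw [Nat.add_sub_cancel_left] at h2
  obtain ⟨e, he⟩ := h2
  refine ⟨e, by omega, ?_⟩
  have he' : g i (n + D) = g i n + D * e := by omega
  unfold T2 S2e
  rw [Finset.sum_product, Finset.sum_comm]
  refine Finset.sum_congr rfl fun d _ => ?_
  rw [← shift_cls (fun a => vM (a + n * d) * vM (a + n * d + D * (d + e))) (s i) H W (α i) (g i n)]
  refine Finset.sum_congr rfl fun a _ => ?_
  rw [he']
  have e1 : a + n * d + g i n = a + g i n + n * d := by ring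
  have e2 : a + (n + D) * d + (g i n + D * e) = a + g i n + n * d + D * (d + e) := by ring
  rw [e1, e2]

lemma cop_n (h : Hyp g s t H W K N R E ρ L) (hc : Cop g W r α δ) (n : ℕ) (hn : n ≡ r [MOD W]) (i : Fin k) :
    (α i + g i n + n * δ i).Coprime W := by
  have h1 := hc i
  have h2 := g_modEq h.hg i W n r hn
  have h3 : α i + g i n + n * δ i ≡ α i + r * δ i + g i r [MOD W] := by
    have h4 : α i + g i n + n * δ i ≡ α i + g i r + r * δ i [MOD W] :=
      (h2.add_left (α i)).add (hn.mul_right (δ i))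
    have h5 : α i + g i r + r * δ i = α i + r * δ i + g i r := by ring
    rw [h5] at h4; exact h4
  have h4 := h3.gcd_eq
  unfold Nat.Coprime at h1 ⊢
  rw [h4]; exact h1

lemma T1_bd (h : Hyp g s t H W K N R E ρ L) (hc : Cop g W r α δ) (n : ℕ) (hn : n ≡ r [MOD W]) (hnK : n ≤ K) (i : Fin k) :
    |T1 g s t H W α δ i n - BB H W * ww W| ≤ BB H W * ρ := by
  have hWr : (1 : ℝ) ≤ W := by exact_mod_cast h.hW
  have hHr : (1 : ℝ) ≤ H := by exact_mod_cast h.hH
  have hφ : (1 : ℝ) ≤ (Nat.totient W : ℝ) := by exact_mod_cast Nat.totient_pos.2 h.hW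
  have hWR : W ≤ R := le_trans (Nat.le_mul_of_pos_left W h.hK) h.hR
  have hN : s i + g i n + n * (t i + H) + H ≤ N := by
    have := Nat.mul_le_mul_right (t i + H) hnK
    have := h.hN i
    have := (h.hg i n K hnK).1
    omega
  rw [T1_eq]
  have h1 := S1_est h.ap h.hE (s i + g i n) (t i) H W (α i + g i n) (δ i) n h.hW hWR (cop_n h hc n hn i) hN h.hH
  have h2 : (H : ℝ) ^ 2 / (W * (Nat.totient W : ℝ)) = BB H W * ww W := by
    unfold BB ww; field_simp
  rw [h2] at h1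
  refine h1.trans ?_
  unfold BB
  rw [div_mul_eq_mul_div, le_div_iff₀ (by positivity)]
  have h3 := mul_le_mul_of_nonneg_right h.h1 (show (0 : ℝ) ≤ H by linarith)
  nlinarith

lemma T2_symm (i : Fin k) (n n' : ℕ) : T2 g s t H W α δ i n n' = T2 g s t H W α δ i n' n := by
  unfold T2
  exact Finset.sum_congr rfl fun x _ => mul_comm _ _

lemma T2_bd (h : Hyp g s t H W K N R E ρ L) (hc : Cop g W r α δ) (n n' : ℕ) (hn : n ≡ r [MOD W]) (hnK : n ≤ K)
    (hn' : n' ≡ r [MOD W]) (hnK' : n' ≤ K) (hne : n' ≠ n) (i : Fin k) :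
    |T2 g s t H W α δ i n n' - BB H W * (ww W ^ 2 * rat W (dd n n'))| ≤ BB H W * ρ := by
  wlog hlt : n < n' generalizing n n'
  · have h1 := this n' n hn' hnK' hn hnK hne.symm (by omega)
    rw [T2_symm]
    have h2 : dd n n' = dd n' n := by unfold dd; omega
    rw [h2]; exact h1
  obtain ⟨D, rfl⟩ := Nat.exists_eq_add_of_lt hlt
  have hD : dd n (n + D + 1) = D + 1 := by unfold dd; omega
  rw [hD, add_assoc]
  have hWD : W ∣ D + 1 := by
    rw [← hD, dvd_dd_iff]
    exact hn'.trans hn.symm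
  have hWr : (1 : ℝ) ≤ W := by exact_mod_cast h.hW
  have hHr : (1 : ℝ) ≤ H := by exact_mod_cast h.hH
  have hφ : (1 : ℝ) ≤ (Nat.totient W : ℝ) := by exact_mod_cast Nat.totient_pos.2 h.hW
  have hφD : (1 : ℝ) ≤ (Nat.totient (D + 1) : ℝ) := by exact_mod_cast Nat.totient_pos.2 (Nat.succ_pos D)
  have hDK : D + 1 ≤ K := by omega
  have hDR : (D + 1) * W ≤ R := le_trans (Nat.mul_le_mul_right W hDK) h.hR
  obtain ⟨e, he, hT⟩ := T2_eq (s := s) (t := t) (H := H) (W := W) (α := α) (δ := δ) h.hg i n (D + 1)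
  rw [hT]
  have hN : s i + g i n + (n + (D + 1)) * (t i + H) + H + (D + 1) * e ≤ N := by
    have h3 := Nat.mul_le_mul_right (t i + H) hnK'
    have h4 := h.hN i
    have h5 := (h.hg i (n + (D + 1)) K (by omega)).1
    rw [add_assoc n D 1] at h3
    omega
  have h1 := S2e_est h.ap h.hE h.hEN (s i + g i n) (t i) H W (α i + g i n) (δ i) n (D + 1) e h.hW (by omega) hWD hDR hN
    (cop_n h hc n hn i)
  have h2 : (H : ℝ) ^ 2 * ((D + 1 : ℕ) : ℝ) / (W * (Nat.totient W : ℝ) * (Nat.totient (D + 1) : ℝ)) =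
      BB H W * (ww W ^ 2 * rat W (D + 1)) := by
    unfold BB ww rat; field_simp
  rw [h2] at h1
  refine h1.trans ?_
  unfold BB
  rw [div_mul_eq_mul_div, le_div_iff₀ (by positivity)]
  have h4 : (((D + 1 : ℕ) : ℝ) + 2) ^ 2 ≤ ((K : ℝ) + 2) ^ 2 := by
    have : ((D + 1 : ℕ) : ℝ) ≤ K := by exact_mod_cast hDK
    gcongr
  have h5 : 0 ≤ E * N := mul_nonneg h.hE (Nat.cast_nonneg _)
  calc E * N * (((D + 1 : ℕ) : ℝ) + 2) ^ 2 * (W : ℝ) ^ 2 ≤ E * N * ((K : ℝ) + 2) ^ 2 * (W : ℝ) ^ 2 := by gcongr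
    _ ≤ ρ * H ^ 2 := h.h2
    _ = (H : ℝ) ^ 2 * ρ := by ring

lemma T1_nonneg (i : Fin k) (n : ℕ) : 0 ≤ T1 g s t H W α δ i n := Finset.sum_nonneg fun _ _ => vM_nonneg _

lemma T2_nonneg (i : Fin k) (n n' : ℕ) : 0 ≤ T2 g s t H W α δ i n n' :=
  Finset.sum_nonneg fun _ _ => mul_nonneg (vM_nonneg _) (vM_nonneg _)

lemma T2_diag (h : Hyp g s t H W K N R E ρ L) (hc : Cop g W r α δ) (n : ℕ) (hn : n ≡ r [MOD W]) (hnK : n ≤ K) (i : Fin k) :
    T2 g s t H W α δ i n n ≤ BB H W * (2 * L * ww W) := by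
  have h1 : T2 g s t H W α δ i n n ≤ L * T1 g s t H W α δ i n := by
    unfold T2 T1
    rw [Finset.mul_sum]
    refine Finset.sum_le_sum fun x hx => ?_
    refine mul_le_mul_of_nonneg_right ?_ (vM_nonneg _)
    have hx' := Finset.mem_product.1 hx
    have ha := Finset.mem_Ioc.1 (Finset.mem_filter.1 hx'.1).1
    have hd := Finset.mem_Ioc.1 (Finset.mem_filter.1 hx'.2).1
    have hle : x.1 + n * x.2 + g i n ≤ N := by
      have h2 := Nat.mul_le_mul hnK hd.2
      have := h.hN i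
      have := (h.hg i n K hnK).1
      omega
    refine (vM_le_log _).trans (le_trans ?_ h.hL)
    rcases Nat.eq_zero_or_pos (x.1 + n * x.2 + g i n) with h3 | h3
    · rw [h3]; simp; exact Real.log_natCast_nonneg N
    · exact Real.log_le_log (by exact_mod_cast h3) (by exact_mod_cast hle)
  have h2 := (abs_le.1 (T1_bd h hc n hn hnK i)).2
  have hw := one_le_ww W h.hW
  have hB : 0 ≤ BB H W := by unfold BB; positivity
  have h3 : T1 g s t H W α δ i n ≤ BB H W * (2 * ww W) := by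
    have : BB H W * ρ ≤ BB H W * ww W := mul_le_mul_of_nonneg_left (by linarith [h.hρ]) hB
    linarith
  calc _ ≤ L * T1 g s t H W α δ i n := h1
    _ ≤ L * (BB H W * (2 * ww W)) := mul_le_mul_of_nonneg_left h3 h.hL0
    _ = _ := by ring

lemma sum_PG (n : ℕ) : ∑ v ∈ VV s t H W α δ, PG g v n = ∏ i, T1 g s t H W α δ i n := by
  unfold VV PG
  rw [← Finset.prod_univ_sum (fun i => cls (s i) H W (α i) ×ˢ cls (t i) H W (δ i))
    (fun i (x : ℕ × ℕ) => vM (x.1 + n * x.2 + g i n))]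
  rfl

lemma sum_PG2 (n n' : ℕ) : ∑ v ∈ VV s t H W α δ, PG g v n * PG g v n' = ∏ i, T2 g s t H W α δ i n n' := by
  unfold VV PG
  simp only [← Finset.prod_mul_distrib]
  rw [← Finset.prod_univ_sum (fun i => cls (s i) H W (α i) ×ˢ cls (t i) H W (δ i))
    (fun i (x : ℕ × ℕ) => vM (x.1 + n * x.2 + g i n) * vM (x.1 + n' * x.2 + g i n'))]
  rfl

lemma prod_near (x : Fin k → ℝ) (y ρ : ℝ) (hy : 0 ≤ y) (hρ0 : 0 ≤ ρ) (hρ1 : ρ ≤ 1) (h : ∀ i, |x i - y| ≤ ρ * y) :
    |∏ i, x i - y ^ k| ≤ ((1 + ρ) ^ k - 1) * y ^ k := by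
  have hup : ∏ i, x i ≤ ((1 + ρ) * y) ^ k := by
    calc ∏ i, x i ≤ ∏ i : Fin k, ((1 + ρ) * y) := by
          refine Finset.prod_le_prod (fun i _ => ?_) fun i _ => ?_
          · have := (abs_le.1 (h i)).1; nlinarith
          · have := (abs_le.1 (h i)).2; linarith
      _ = _ := by rw [Finset.prod_const, Finset.card_univ, Fintype.card_fin]
  have hlo : ((1 - ρ) * y) ^ k ≤ ∏ i, x i := by
    calc ((1 - ρ) * y) ^ k = ∏ i : Fin k, ((1 - ρ) * y) := by
          rw [Finset.prod_const, Finset.card_univ, Fintype.card_fin]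
      _ ≤ _ := by
          refine Finset.prod_le_prod (fun i _ => mul_nonneg (by linarith) hy) fun i _ => ?_
          have := (abs_le.1 (h i)).1; linarith
  have h1 : 1 - ((1 + ρ) ^ k - 1) ≤ (1 - ρ) ^ k := by
    have a1 := one_add_mul_le_pow (show (-2 : ℝ) ≤ -ρ by linarith) k
    have a2 := one_add_mul_le_pow (show (-2 : ℝ) ≤ ρ by linarith) k
    have e1 : (1 : ℝ) + -ρ = 1 - ρ := by ring
    rw [e1] at a1
    linarith
  have hyk : 0 ≤ y ^ k := pow_nonneg hy k
  rw [mul_pow] at hup hlo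
  have h2 := mul_le_mul_of_nonneg_right h1 hyk
  rw [abs_le]
  constructor <;> linarith

lemma rat_le (W D : ℕ) (hW : 1 ≤ W) (hD : 1 ≤ D) : rat W D ≤ D := by
  unfold rat
  have hw := one_le_ww W hW
  have hφD : (1 : ℝ) ≤ (Nat.totient D : ℝ) := by exact_mod_cast Nat.totient_pos.2 hD
  have h1 : (D : ℝ) / (Nat.totient D : ℝ) ≤ D := div_le_self (Nat.cast_nonneg _) hφD
  refine le_trans (div_le_self (by positivity) hw) h1

lemma card_VV' (h : Hyp g s t H W K N R E ρ L) :
    |((VV s t H W α δ).card : ℝ) - BB H W ^ k| ≤ BB H W ^ k * ((1 + ρ) ^ (2 * k) - 1) := by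
  have hWr : (1 : ℝ) ≤ W := by exact_mod_cast h.hW
  have hHr : (1 : ℝ) ≤ H := by exact_mod_cast h.hH
  have hB : 0 ≤ BB H W := by unfold BB; positivity
  have hWρ : 1 ≤ ρ * (H / W : ℝ) := by
    have h2 := h.h1
    have h3 : (W : ℝ) ≤ W ^ 2 := by nlinarith
    have h4 : (W : ℝ) ^ 2 ≤ (4 * E + 1) * W ^ 2 := by
      have := mul_nonneg h.hE (sq_nonneg (W : ℝ)); nlinarith
    rw [← mul_div_assoc, le_div_iff₀ (by linarith)]; linarith
  have hρ0 := h.hρ0
  have hρ1 := h.hρ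
  have hHW : 0 ≤ (H / W : ℝ) := by positivity
  have hup : ∀ (u c : ℕ), ((cls u H W c).card : ℝ) ≤ (1 + ρ) * (H / W) := fun u c => by
    have := card_cls_le u H W c h.hW; linarith
  have hlo : ∀ (u c : ℕ), (1 - ρ) * (H / W) ≤ ((cls u H W c).card : ℝ) := fun u c => by
    have := le_card_cls u H W c h.hW; linarith
  have hBB : BB H W = (H / W : ℝ) * (H / W) := by unfold BB; field_simp
  have h1 : ((VV s t H W α δ).card : ℝ) ≤ ((1 + ρ) ^ 2 * BB H W) ^ k := by
    unfold VV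
    rw [Fintype.card_piFinset]
    push_cast
    calc _ ≤ ∏ i : Fin k, ((1 + ρ) ^ 2 * BB H W) := by
          refine Finset.prod_le_prod (fun _ _ => Nat.cast_nonneg _) fun i _ => ?_
          rw [Finset.card_product]; push_cast
          calc _ ≤ ((1 + ρ) * (H / W : ℝ)) * ((1 + ρ) * (H / W)) :=
                mul_le_mul (hup _ _) (hup _ _) (Nat.cast_nonneg _) (by positivity)
            _ = _ := by rw [hBB]; ring
      _ = _ := by rw [Finset.prod_const, Finset.card_univ, Fintype.card_fin]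
  have h2 : ((1 - ρ) ^ 2 * BB H W) ^ k ≤ ((VV s t H W α δ).card : ℝ) := by
    unfold VV
    rw [Fintype.card_piFinset]
    push_cast
    calc _ = ∏ i : Fin k, ((1 - ρ) ^ 2 * BB H W) := by rw [Finset.prod_const, Finset.card_univ, Fintype.card_fin]
      _ ≤ _ := by
          refine Finset.prod_le_prod (fun _ _ => by positivity) fun i _ => ?_
          rw [Finset.card_product]; push_cast
          calc _ = ((1 - ρ) * (H / W : ℝ)) * ((1 - ρ) * (H / W)) := by rw [hBB]; ring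
            _ ≤ _ := mul_le_mul (hlo _ _) (hlo _ _) (mul_nonneg (by linarith) hHW) (Nat.cast_nonneg _)
  rw [mul_pow, ← pow_mul] at h1 h2
  have h3 : 1 - ((1 + ρ) ^ (2 * k) - 1) ≤ (1 - ρ) ^ (2 * k) := by
    have a1 := one_add_mul_le_pow (show (-2 : ℝ) ≤ -ρ by linarith) (2 * k)
    have a2 := one_add_mul_le_pow (show (-2 : ℝ) ≤ ρ by linarith) (2 * k)
    have e1 : (1 : ℝ) + -ρ = 1 - ρ := by ring
    rw [e1] at a1
    linarith
  have hBk : 0 ≤ BB H W ^ k := pow_nonneg hB k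
  have h4 := mul_le_mul_of_nonneg_right h3 hBk
  rw [abs_le]
  constructor <;> linarith

/-- second moment of a weighted sum over one residue class -/
lemma variance_w (h : Hyp g s t H W K N R E ρ L) (hc : Cop g W r α δ) (c : ℕ → ℝ) (J : ℕ) (r0 : ℕ) (hr0 : r0 ≤ W)
    (hrr : r0 ≡ r [MOD W]) (hJ : W * J ≤ K) (hcs : ∑ j ∈ range J, |c j| ≤ 2) :
    ∑ v ∈ VV s t H W α δ, (∑ j ∈ range J, c j * PG g v (r0 + W * j) - ww W ^ k * ∑ j ∈ range J, c j) ^ 2 ≤
      BB H W ^ k * (ww W ^ (2 * k) *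
        (∑ j ∈ range J, ∑ j' ∈ (range J).filter (fun j' => j' ≠ j), c j * c j' * (rat W (W * dd j j') ^ k - 1) +
          (2 * L) ^ k * ∑ j ∈ range J, c j ^ 2 + 16 * K ^ k * ((1 + ρ) ^ (2 * k) - 1))) := by
  have hw := one_le_ww W h.hW
  have hB : 0 ≤ BB H W := by unfold BB; positivity
  have hρ0 := h.hρ0
  have hρ1 := h.hρ
  have hL0 := h.hL0
  have hKr : (1 : ℝ) ≤ K := by exact_mod_cast h.hK
  set B := BB H W with hBd
  set w := ww W with hwd
  set σ := (1 + ρ) ^ (2 * k) - 1 with hσ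
  have hσ1 : (1 + ρ) ^ k - 1 ≤ σ := by
    have : (1 + ρ) ^ k ≤ (1 + ρ) ^ (2 * k) := pow_le_pow_right₀ (by linarith) (by omega)
    linarith
  have hσ0 : 0 ≤ (1 + ρ) ^ k - 1 := by have := one_le_pow₀ (show 1 ≤ 1 + ρ by linarith) (n := k); linarith
  have hσ00 : 0 ≤ σ := hσ0.trans hσ1
  have hK1 : (1 : ℝ) ≤ (K : ℝ) ^ k := one_le_pow₀ hKr
  have hwk : 1 ≤ w ^ k := one_le_pow₀ hw
  have hBk : 0 ≤ B ^ k := pow_nonneg hB k
  -- facts on the arguments
  have hnr : ∀ j, r0 + W * j ≡ r [MOD W] := fun j => by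
    have h1 : r0 + W * j ≡ r0 + 0 [MOD W] := (Nat.modEq_zero_iff_dvd.2 (Dvd.intro _ rfl)).add_left r0
    exact h1.trans hrr
  have hnK : ∀ j ∈ range J, r0 + W * j ≤ K := fun j hj => by
    have h1 := Finset.mem_range.1 hj
    have h2 : W * (j + 1) ≤ W * J := Nat.mul_le_mul_left W h1
    have h3 : W * (j + 1) = W * j + W := by ring
    omega
  have hdd : ∀ j j', dd (r0 + W * j) (r0 + W * j') = W * dd j j' := fun j j' => by
    unfold dd
    rw [Nat.add_sub_add_left, Nat.add_sub_add_left, ← Nat.mul_sub, ← Nat.mul_sub, Nat.mul_add]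
  set S := ∑ j ∈ range J, c j with hS
  have hSabs : |S| ≤ 2 := (Finset.abs_sum_le_sum_abs _ _).trans hcs
  -- first moments
  have f1 : ∀ j ∈ range J, |∏ i, T1 g s t H W α δ i (r0 + W * j) - B ^ k * w ^ k| ≤ B ^ k * w ^ k * σ := by
    intro j hj
    have h1 := prod_near (fun i => T1 g s t H W α δ i (r0 + W * j)) (B * w) ρ (by positivity) hρ0 hρ1 (fun i => by
      have h2 := T1_bd h hc (r0 + W * j) (hnr j) (hnK j hj) i
      refine h2.trans ?_
      have := mul_le_mul_of_nonneg_left hw (mul_nonneg hρ0 hB)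
      nlinarith)
    rw [mul_pow] at h1
    refine h1.trans ?_
    have := mul_le_mul_of_nonneg_right hσ1 (mul_nonneg hBk (by positivity : 0 ≤ w ^ k))
    linarith
  -- second moments
  have f2 : ∀ j ∈ range J, ∀ j' ∈ (range J).filter (fun j' => j' ≠ j),
      |∏ i, T2 g s t H W α δ i (r0 + W * j) (r0 + W * j') - B ^ k * w ^ (2 * k) * rat W (W * dd j j') ^ k| ≤
        B ^ k * w ^ (2 * k) * K ^ k * σ := by
    intro j hj j' hj'
    have hj2 := Finset.mem_filter.1 hj'
    have hjj := dd_pos j j' hj2.2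
    have hWdd : 1 ≤ W * dd j j' := Nat.mul_pos h.hW hjj
    have hr1 := rat_ge_one W (W * dd j j') h.hW hWdd (Dvd.intro _ rfl)
    have hr2 : rat W (W * dd j j') ≤ K := by
      refine (rat_le W (W * dd j j') h.hW hWdd).trans ?_
      have a1 := hnK j hj
      have a2 := hnK j' hj2.1
      have : W * dd j j' ≤ K := by rw [← hdd j j']; exact dd_le _ _ K a1 a2
      exact_mod_cast this
    have h1 := prod_near (fun i => T2 g s t H W α δ i (r0 + W * j) (r0 + W * j')) (B * (w ^ 2 * rat W (W * dd j j'))) ρ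
      (by positivity) hρ0 hρ1 (fun i => by
      have h2 := T2_bd h hc (r0 + W * j) (r0 + W * j') (hnr j) (hnK j hj) (hnr j') (hnK j' hj2.1) (by
        intro heq
        have h5 : W * j' = W * j := by omega
        exact hj2.2 (Nat.eq_of_mul_eq_mul_left h.hW h5)) i
      rw [hdd] at h2
      refine h2.trans ?_
      have h3 : 1 ≤ w ^ 2 * rat W (W * dd j j') := by nlinarith [one_le_pow₀ hw (n := 2)]
      have := mul_le_mul_of_nonneg_left h3 (mul_nonneg hρ0 hB)
      nlinarith)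
    rw [mul_pow, mul_pow, ← pow_mul] at h1
    have e1 : B ^ k * (w ^ (2 * k) * rat W (W * dd j j') ^ k) = B ^ k * w ^ (2 * k) * rat W (W * dd j j') ^ k := by ring
    rw [e1] at h1
    refine h1.trans ?_
    have h4 : rat W (W * dd j j') ^ k ≤ K ^ k := pow_le_pow_left₀ (by linarith) hr2 k
    calc ((1 + ρ) ^ k - 1) * (B ^ k * w ^ (2 * k) * rat W (W * dd j j') ^ k) ≤
          σ * (B ^ k * w ^ (2 * k) * K ^ k) := by
            apply mul_le_mul hσ1 _ (by positivity) hσ00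
            exact mul_le_mul_of_nonneg_left h4 (by positivity)
      _ = _ := by ring
  have f3 : ∀ j ∈ range J, ∏ i, T2 g s t H W α δ i (r0 + W * j) (r0 + W * j) ≤ B ^ k * ((2 * L) ^ k * w ^ (2 * k)) := by
    intro j hj
    calc _ ≤ ∏ i : Fin k, (B * (2 * L * w)) :=
          Finset.prod_le_prod (fun i _ => T2_nonneg i _ _) fun i _ => T2_diag h hc _ (hnr j) (hnK j hj) i
      _ = B ^ k * ((2 * L) ^ k * w ^ k) := by
          rw [Finset.prod_const, Finset.card_univ, Fintype.card_fin, mul_pow, mul_pow]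
      _ ≤ _ := by
          have : w ^ k ≤ w ^ (2 * k) := pow_le_pow_right₀ hw (by omega)
          have := mul_le_mul_of_nonneg_left this (show 0 ≤ B ^ k * (2 * L) ^ k by positivity)
          linarith
  have f4 := card_VV' (s := s) (t := t) (α := α) (δ := δ) h
  -- expansion of the square
  set M := w ^ k * S with hM
  have e3 : ∑ v ∈ VV s t H W α δ, (∑ j ∈ range J, c j * PG g v (r0 + W * j) - M) ^ 2 =
      (∑ j ∈ range J, c j ^ 2 * ∏ i, T2 g s t H W α δ i (r0 + W * j) (r0 + W * j)) +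
      (∑ j ∈ range J, ∑ j' ∈ (range J).filter (fun j' => j' ≠ j), c j * c j' *
        ∏ i, T2 g s t H W α δ i (r0 + W * j) (r0 + W * j')) -
      2 * M * ∑ j ∈ range J, c j * ∏ i, T1 g s t H W α δ i (r0 + W * j) + M ^ 2 * (VV s t H W α δ).card := by
    have g1 : ∀ v : Fin k → ℕ × ℕ, (∑ j ∈ range J, c j * PG g v (r0 + W * j) - M) ^ 2 =
        (∑ j ∈ range J, ∑ j' ∈ range J, (c j * c j') * (PG g v (r0 + W * j) * PG g v (r0 + W * j'))) -
        2 * M * (∑ j ∈ range J, c j * PG g v (r0 + W * j)) + M ^ 2 := by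
      intro v
      have : (∑ j ∈ range J, c j * PG g v (r0 + W * j)) ^ 2 =
          ∑ j ∈ range J, ∑ j' ∈ range J, (c j * c j') * (PG g v (r0 + W * j) * PG g v (r0 + W * j')) := by
        rw [sq, Finset.sum_mul_sum]
        refine Finset.sum_congr rfl fun j _ => Finset.sum_congr rfl fun j' _ => by ring
      rw [← this]; ring
    simp only [g1]
    rw [Finset.sum_add_distrib, Finset.sum_sub_distrib, Finset.sum_const, nsmul_eq_mul, ← Finset.mul_sum]
    have g2 : ∑ v ∈ VV s t H W α δ, ∑ j ∈ range J, c j * PG g v (r0 + W * j) =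
        ∑ j ∈ range J, c j * ∏ i, T1 g s t H W α δ i (r0 + W * j) := by
      rw [Finset.sum_comm]
      refine Finset.sum_congr rfl fun j _ => ?_
      rw [← Finset.mul_sum, sum_PG]
    have g3 : ∑ v ∈ VV s t H W α δ, ∑ j ∈ range J, ∑ j' ∈ range J,
        (c j * c j') * (PG g v (r0 + W * j) * PG g v (r0 + W * j')) =
        (∑ j ∈ range J, c j ^ 2 * ∏ i, T2 g s t H W α δ i (r0 + W * j) (r0 + W * j)) +
        (∑ j ∈ range J, ∑ j' ∈ (range J).filter (fun j' => j' ≠ j), c j * c j' *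
          ∏ i, T2 g s t H W α δ i (r0 + W * j) (r0 + W * j')) := by
      rw [Finset.sum_comm, ← Finset.sum_add_distrib]
      refine Finset.sum_congr rfl fun j hj => ?_
      rw [Finset.sum_comm]
      have g4 : ∀ j' ∈ range J, ∑ v ∈ VV s t H W α δ, (c j * c j') * (PG g v (r0 + W * j) * PG g v (r0 + W * j')) =
          c j * c j' * ∏ i, T2 g s t H W α δ i (r0 + W * j) (r0 + W * j') := fun j' _ => by
        rw [← Finset.mul_sum, sum_PG2]
      rw [Finset.sum_congr rfl g4]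
      have g5 : range J = insert j ((range J).filter (fun j' => j' ≠ j)) := by
        ext x
        simp only [mem_insert, mem_filter]
        constructor
        · intro hx
          by_cases hxj : x = j
          · exact Or.inl hxj
          · exact Or.inr ⟨hx, hxj⟩
        · rintro (rfl | hx)
          · exact hj
          · exact hx.1
      conv_lhs => rw [g5]
      rw [Finset.sum_insert (by simp)]
      ring
    rw [g2, g3]
    ring
  rw [e3]
  set A1 := ∑ j ∈ range J, c j ^ 2 * ∏ i, T2 g s t H W α δ i (r0 + W * j) (r0 + W * j) with hA1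
  set A2 := ∑ j ∈ range J, ∑ j' ∈ (range J).filter (fun j' => j' ≠ j), c j * c j' *
        ∏ i, T2 g s t H W α δ i (r0 + W * j) (r0 + W * j') with hA2
  set A3 := ∑ j ∈ range J, c j * ∏ i, T1 g s t H W α δ i (r0 + W * j) with hA3
  set Qf := ∑ j ∈ range J, ∑ j' ∈ (range J).filter (fun j' => j' ≠ j), c j * c j' * (rat W (W * dd j j') ^ k - 1) with hQf
  set P := B ^ k * w ^ (2 * k) with hP
  have hP0 : 0 ≤ P := by positivity
  have b1 : A1 ≤ P * ((2 * L) ^ k * ∑ j ∈ range J, c j ^ 2) := by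
    rw [hA1]
    calc _ ≤ ∑ j ∈ range J, c j ^ 2 * (B ^ k * ((2 * L) ^ k * w ^ (2 * k))) :=
          Finset.sum_le_sum fun j hj => mul_le_mul_of_nonneg_left (f3 j hj) (sq_nonneg _)
      _ = _ := by rw [← Finset.sum_mul, hP]; ring
  have b2 : A2 ≤ P * (Qf + (S ^ 2 - ∑ j ∈ range J, c j ^ 2)) + 4 * (P * K ^ k * σ) := by
    have g1 : ∑ j ∈ range J, ∑ j' ∈ (range J).filter (fun j' => j' ≠ j), c j * c j' = S ^ 2 - ∑ j ∈ range J, c j ^ 2 := by
      rw [hS, sq, Finset.sum_mul_sum, ← Finset.sum_sub_distrib]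
      refine Finset.sum_congr rfl fun j hj => ?_
      have g5 : range J = insert j ((range J).filter (fun j' => j' ≠ j)) := by
        ext x
        simp only [mem_insert, mem_filter]
        constructor
        · intro hx
          by_cases hxj : x = j
          · exact Or.inl hxj
          · exact Or.inr ⟨hx, hxj⟩
        · rintro (rfl | hx)
          · exact hj
          · exact hx.1
      conv_rhs => rw [g5]
      rw [Finset.sum_insert (by simp)]
      ring
    have g2 : Qf + (S ^ 2 - ∑ j ∈ range J, c j ^ 2) =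
        ∑ j ∈ range J, ∑ j' ∈ (range J).filter (fun j' => j' ≠ j), c j * c j' * rat W (W * dd j j') ^ k := by
      rw [hQf, ← g1, ← Finset.sum_add_distrib]
      refine Finset.sum_congr rfl fun j _ => ?_
      rw [← Finset.sum_add_distrib]
      refine Finset.sum_congr rfl fun j' _ => by ring
    rw [g2, Finset.mul_sum]
    have g3 : ∀ j ∈ range J, ∀ j' ∈ (range J).filter (fun j' => j' ≠ j),
        c j * c j' * ∏ i, T2 g s t H W α δ i (r0 + W * j) (r0 + W * j') ≤
        P * (c j * c j' * rat W (W * dd j j') ^ k) + |c j| * |c j'| * (P * K ^ k * σ) := by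
      intro j hj j' hj'
      have h1 := f2 j hj j' hj'
      have h2 : c j * c j' * (∏ i, T2 g s t H W α δ i (r0 + W * j) (r0 + W * j') - P * rat W (W * dd j j') ^ k) ≤
          |c j| * |c j'| * (P * K ^ k * σ) := by
        calc _ ≤ |c j * c j' * (∏ i, T2 g s t H W α δ i (r0 + W * j) (r0 + W * j') - P * rat W (W * dd j j') ^ k)| :=
              le_abs_self _
          _ = |c j| * |c j'| * |∏ i, T2 g s t H W α δ i (r0 + W * j) (r0 + W * j') - P * rat W (W * dd j j') ^ k| := by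
              rw [abs_mul, abs_mul]
          _ ≤ _ := mul_le_mul_of_nonneg_left h1 (by positivity)
      linarith
    calc A2 ≤ ∑ j ∈ range J, ∑ j' ∈ (range J).filter (fun j' => j' ≠ j),
          (P * (c j * c j' * rat W (W * dd j j') ^ k) + |c j| * |c j'| * (P * K ^ k * σ)) :=
          Finset.sum_le_sum fun j hj => Finset.sum_le_sum (g3 j hj)
      _ = ∑ j ∈ range J, P * ∑ j' ∈ (range J).filter (fun j' => j' ≠ j), c j * c j' * rat W (W * dd j j') ^ k +
          ∑ j ∈ range J, ∑ j' ∈ (range J).filter (fun j' => j' ≠ j), |c j| * |c j'| * (P * K ^ k * σ) := by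
          rw [← Finset.sum_add_distrib]
          refine Finset.sum_congr rfl fun j _ => ?_
          rw [Finset.sum_add_distrib, Finset.mul_sum]
      _ ≤ ∑ j ∈ range J, P * ∑ j' ∈ (range J).filter (fun j' => j' ≠ j), c j * c j' * rat W (W * dd j j') ^ k +
          4 * (P * K ^ k * σ) := by
          refine add_le_add le_rfl ?_
          calc _ ≤ ∑ j ∈ range J, ∑ j' ∈ range J, |c j| * |c j'| * (P * K ^ k * σ) := by
                refine Finset.sum_le_sum fun j _ => ?_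
                refine Finset.sum_le_sum_of_subset_of_nonneg (Finset.filter_subset _ _) fun j' _ _ => by positivity
            _ = (∑ j ∈ range J, |c j|) * (∑ j ∈ range J, |c j|) * (P * K ^ k * σ) := by
                rw [Finset.sum_mul_sum, Finset.sum_mul]
                refine Finset.sum_congr rfl fun j _ => by rw [Finset.sum_mul]
            _ ≤ 2 * 2 * (P * K ^ k * σ) := by
                refine mul_le_mul_of_nonneg_right ?_ (by positivity)
                exact mul_le_mul hcs hcs (Finset.sum_nonneg fun _ _ => abs_nonneg _) (by norm_num)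
            _ = _ := by ring
  have b3 : |A3 - B ^ k * w ^ k * S| ≤ 2 * (B ^ k * w ^ k * σ) := by
    rw [hA3, hS, Finset.mul_sum, ← Finset.sum_sub_distrib]
    calc _ ≤ ∑ j ∈ range J, |c j * ∏ i, T1 g s t H W α δ i (r0 + W * j) - B ^ k * w ^ k * c j| :=
          Finset.abs_sum_le_sum_abs _ _
      _ ≤ ∑ j ∈ range J, |c j| * (B ^ k * w ^ k * σ) := by
          refine Finset.sum_le_sum fun j hj => ?_
          have : c j * ∏ i, T1 g s t H W α δ i (r0 + W * j) - B ^ k * w ^ k * c j =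
              c j * (∏ i, T1 g s t H W α δ i (r0 + W * j) - B ^ k * w ^ k) := by ring
          rw [this, abs_mul]
          exact mul_le_mul_of_nonneg_left (f1 j hj) (abs_nonneg _)
      _ = (∑ j ∈ range J, |c j|) * (B ^ k * w ^ k * σ) := by rw [Finset.sum_mul]
      _ ≤ _ := mul_le_mul_of_nonneg_right hcs (by positivity)
  have hMabs : |M| ≤ 2 * w ^ k := by
    rw [hM, abs_mul, abs_of_nonneg (by positivity : 0 ≤ w ^ k)]
    nlinarith
  have b4 : -(2 * M * A3) ≤ -(2 * M * (B ^ k * w ^ k * S)) + 8 * (P * σ) := by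
    have h1 : |2 * M * (A3 - B ^ k * w ^ k * S)| ≤ 8 * (P * σ) := by
      rw [abs_mul, abs_mul, abs_two]
      calc 2 * |M| * |A3 - B ^ k * w ^ k * S| ≤ 2 * (2 * w ^ k) * (2 * (B ^ k * w ^ k * σ)) := by
            apply mul_le_mul (mul_le_mul_of_nonneg_left hMabs (by norm_num)) b3 (abs_nonneg _) (by positivity)
        _ = 8 * (P * σ) := by rw [hP, pow_mul' w 2 k]; ring
    have := (abs_le.1 h1).1
    linarith
  have b5 : M ^ 2 * ((VV s t H W α δ).card : ℝ) ≤ M ^ 2 * B ^ k + 4 * (P * σ) := by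
    have h1 := (abs_le.1 f4).2
    have h2 : M ^ 2 ≤ 4 * w ^ (2 * k) := by
      calc M ^ 2 = |M| ^ 2 := (sq_abs M).symm
        _ ≤ (2 * w ^ k) ^ 2 := pow_le_pow_left₀ (abs_nonneg _) hMabs 2
        _ = _ := by rw [mul_pow, ← pow_mul, mul_comm k 2]; norm_num
    calc M ^ 2 * ((VV s t H W α δ).card : ℝ) ≤ M ^ 2 * (B ^ k + B ^ k * σ) :=
          mul_le_mul_of_nonneg_left (by linarith) (sq_nonneg _)
      _ = M ^ 2 * B ^ k + M ^ 2 * (B ^ k * σ) := by ring
      _ ≤ M ^ 2 * B ^ k + 4 * w ^ (2 * k) * (B ^ k * σ) := by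
          have := mul_le_mul_of_nonneg_right h2 (show 0 ≤ B ^ k * σ by positivity)
          linarith
      _ = _ := by rw [hP]; ring
  have e5 : M ^ 2 * B ^ k = P * S ^ 2 := by rw [hM, hP, mul_pow, ← pow_mul, mul_comm k 2]; ring
  have e6 : 2 * M * (B ^ k * w ^ k * S) = 2 * (P * S ^ 2) := by rw [hM, hP, pow_mul' w 2 k]; ring
  rw [e5] at b5
  rw [e6] at b4
  have hc2 : 0 ≤ ∑ j ∈ range J, c j ^ 2 := Finset.sum_nonneg fun _ _ => sq_nonneg _
  have hPσ : P * σ ≤ P * K ^ k * σ := by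
    have := mul_le_mul_of_nonneg_left hK1 (show 0 ≤ P * σ by positivity)
    linarith
  have e7 : B ^ k * (w ^ (2 * k) * (Qf + (2 * L) ^ k * ∑ j ∈ range J, c j ^ 2 + 16 * K ^ k * σ)) =
      P * Qf + P * ((2 * L) ^ k * ∑ j ∈ range J, c j ^ 2) + 16 * (P * K ^ k * σ) := by rw [hP]; ring
  rw [e7]
  have e8 : P * (Qf + (S ^ 2 - ∑ j ∈ range J, c j ^ 2)) = P * Qf + P * S ^ 2 - P * ∑ j ∈ range J, c j ^ 2 := by ring
  rw [e8] at b2
  have hPc : 0 ≤ P * ∑ j ∈ range J, c j ^ 2 := mul_nonneg hP0 hc2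
  linarith

end

end Pool.Agent.H570.TH
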