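import Mathlib
import Pool.Agent.H570.TH.Mom
import Pool.Agent.H570.LQ.Par

/-! Chebyshev bounds in one class, all lengths of a grid simultaneously, and the sum over the classes. -/

set_option autoImplicit false

namespace Pool.Agent.H570.TH

open Finset Pool.Agent.H570.LQ

section
variable {k : ℕ} {g : Fin k → ℕ → ℕ} {s t : Fin k → ℕ} {H W K N R : ℕ} {α δ : Fin k → ℕ} {E ρ L : ℝ}

open Classical in
lemma cheb_class (h : Hyp g s t H W K N R E ρ L) (G : Finset ℕ) (hG : ∀ r ∈ G, r ≤ W ∧ Cop g W r α δ)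
    (hG1 : 1 ≤ G.card) (c : ℕ → ℝ) (J : ℕ) (hJ : W * J ≤ K) (hcs : ∑ j ∈ range J, |c j| ≤ 2) (τ θ : ℝ) (hθ : 0 < θ)
    (hτ : ∑ j ∈ range J, ∑ j' ∈ (range J).filter (fun j' => j' ≠ j), c j * c j' * (rat W (W * dd j j') ^ k - 1) +
          (2 * L) ^ k * ∑ j ∈ range J, c j ^ 2 + 16 * K ^ k * ((1 + ρ) ^ (2 * k) - 1) ≤ τ) :
    (((VV s t H W α δ).filter (fun v => θ * (G.card * ww W ^ k) <
      |∑ r ∈ G, ∑ j ∈ range J, c j * PG g v (r + W * j) - G.card * ww W ^ k * ∑ j ∈ range J, c j|)).card : ℝ) ≤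
      BB H W ^ k * (τ / θ ^ 2) := by
  have hw := one_le_ww W h.hW
  have hwk : 1 ≤ ww W ^ k := one_le_pow₀ hw
  have hB : 0 ≤ BB H W := by unfold BB; positivity
  have hRr : (1 : ℝ) ≤ G.card := by exact_mod_cast hG1
  set w := ww W ^ k with hwd
  set S := ∑ j ∈ range J, c j with hS
  set M := θ * (G.card * w) with hM
  have hM0 : 0 < M := by positivity
  -- the second moment
  have h1 : ∑ v ∈ VV s t H W α δ, (∑ r ∈ G, ∑ j ∈ range J, c j * PG g v (r + W * j) - G.card * w * S) ^ 2 ≤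
      (G.card : ℝ) ^ 2 * (BB H W ^ k * (w ^ 2 * τ)) := by
    calc _ ≤ ∑ v ∈ VV s t H W α δ, (G.card : ℝ) * ∑ r ∈ G, (∑ j ∈ range J, c j * PG g v (r + W * j) - w * S) ^ 2 := by
          refine Finset.sum_le_sum fun v _ => ?_
          have h2 : ∑ r ∈ G, ∑ j ∈ range J, c j * PG g v (r + W * j) - G.card * w * S =
              ∑ r ∈ G, (∑ j ∈ range J, c j * PG g v (r + W * j) - w * S) := by
            rw [Finset.sum_sub_distrib, Finset.sum_const, nsmul_eq_mul, mul_assoc]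
          rw [h2]
          exact sq_sum_le_card_mul_sum_sq
      _ = (G.card : ℝ) * ∑ r ∈ G, ∑ v ∈ VV s t H W α δ, (∑ j ∈ range J, c j * PG g v (r + W * j) - w * S) ^ 2 := by
          rw [← Finset.mul_sum, Finset.sum_comm]
      _ ≤ (G.card : ℝ) * ∑ r ∈ G, (BB H W ^ k * (w ^ 2 * τ)) := by
          refine mul_le_mul_of_nonneg_left (Finset.sum_le_sum fun r hr => ?_) (by positivity)
          have h3 := variance_w h (hG r hr).2 c J r (hG r hr).1 (Nat.ModEq.refl r) hJ hcs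
          refine h3.trans ?_
          have h4 : ww W ^ (2 * k) = w ^ 2 := by rw [hwd, ← pow_mul]; congr 1; ring
          rw [h4]
          exact mul_le_mul_of_nonneg_left (mul_le_mul_of_nonneg_left hτ (by positivity)) (by positivity)
      _ = _ := by rw [Finset.sum_const, nsmul_eq_mul]; ring
  -- Chebyshev
  set F := (VV s t H W α δ).filter (fun v => M <
      |∑ r ∈ G, ∑ j ∈ range J, c j * PG g v (r + W * j) - G.card * w * S|) with hF
  have h2 : (F.card : ℝ) * M ^ 2 ≤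
      ∑ v ∈ VV s t H W α δ, (∑ r ∈ G, ∑ j ∈ range J, c j * PG g v (r + W * j) - G.card * w * S) ^ 2 := by
    calc (F.card : ℝ) * M ^ 2 = ∑ v ∈ F, M ^ 2 := by rw [Finset.sum_const, nsmul_eq_mul]
      _ ≤ ∑ v ∈ F, (∑ r ∈ G, ∑ j ∈ range J, c j * PG g v (r + W * j) - G.card * w * S) ^ 2 := by
          refine Finset.sum_le_sum fun v hv => ?_
          rw [← sq_abs (∑ r ∈ G, ∑ j ∈ range J, c j * PG g v (r + W * j) - G.card * w * S)]
          exact pow_le_pow_left₀ hM0.le (Finset.mem_filter.1 hv).2.le 2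
      _ ≤ _ := Finset.sum_le_sum_of_subset_of_nonneg (Finset.filter_subset _ _) fun _ _ _ => sq_nonneg _
  have h3 := h2.trans h1
  have h4 : (F.card : ℝ) ≤ (G.card : ℝ) ^ 2 * (BB H W ^ k * (w ^ 2 * τ)) / M ^ 2 := by
    rw [le_div_iff₀ (by positivity)]; exact h3
  refine h4.trans (le_of_eq ?_)
  rw [hM]
  field_simp

/-- sum over the good residues -/
noncomputable def XX {k : ℕ} (g : Fin k → ℕ → ℕ) (v : Fin k → ℕ × ℕ) (G : Finset ℕ) (W J : ℕ) : ℝ :=
  ∑ r ∈ G, ∑ j ∈ range J, PG g v (r + W * j)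

lemma XX_uu (v : Fin k → ℕ × ℕ) (G : Finset ℕ) (J J' : ℕ) (hJJ : J ≤ J') :
    ∑ r ∈ G, ∑ j ∈ range J', uu J j * PG g v (r + W * j) = XX g v G W J / J := by
  unfold XX
  rw [Finset.sum_div]
  refine Finset.sum_congr rfl fun r _ => ?_
  unfold uu
  rw [Finset.sum_div]
  have h1 : ∀ j ∈ range J', (if j < J then 1 / (J : ℝ) else 0) * PG g v (r + W * j) =
      if j < J then PG g v (r + W * j) / J else 0 := by
    intro j _
    split_ifs <;> ring
  rw [Finset.sum_congr rfl h1, ← Finset.sum_filter]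
  have : (range J').filter (fun j => j < J) = range J := by
    ext j; simp only [mem_filter, mem_range]; omega
  rw [this]

lemma vv_sq_sum (J J' : ℕ) (h : J ≤ J') (hJ : 1 ≤ J) : ∑ j ∈ range J', vv J J' j ^ 2 ≤ 2 / J := by
  have hJr : (1 : ℝ) ≤ J := by exact_mod_cast hJ
  have hJr' : (J : ℝ) ≤ J' := by exact_mod_cast h
  calc _ ≤ ∑ j ∈ range J', (uu J j ^ 2 + uu J' j ^ 2) := by
        refine Finset.sum_le_sum fun j _ => ?_
        unfold vv
        have := mul_nonneg (uu_nonneg J j) (uu_nonneg J' j)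
        nlinarith
    _ = 1 / J + 1 / J' := by
        rw [Finset.sum_add_distrib, sum_uu_sq J J' h hJ, sum_uu_sq J' J' le_rfl (le_trans hJ h)]
    _ ≤ 1 / J + 1 / J := by
        have : (1 : ℝ) / J' ≤ 1 / J := one_div_le_one_div_of_le (by linarith) hJr'
        linarith
    _ = 2 / J := by ring

lemma vv_abs_sum (J J' : ℕ) (h : J ≤ J') (hJ : 1 ≤ J) : ∑ j ∈ range J', |vv J J' j| ≤ 2 := by
  calc _ ≤ ∑ j ∈ range J', (uu J j + uu J' j) := by
        refine Finset.sum_le_sum fun j _ => ?_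
        unfold vv
        rw [abs_le]
        have := uu_nonneg J j
        have := uu_nonneg J' j
        constructor <;> linarith
    _ = 2 := by
        rw [Finset.sum_add_distrib, sum_uu J J' h hJ, sum_uu J' J' le_rfl (le_trans hJ h)]; norm_num

lemma vv_sum (J J' : ℕ) (h : J ≤ J') (hJ : 1 ≤ J) : ∑ j ∈ range J', vv J J' j = 0 := by
  unfold vv
  rw [Finset.sum_sub_distrib, sum_uu J J' h hJ, sum_uu J' J' le_rfl (le_trans hJ h)]; norm_num

end

/-- the constants of the two quadratic forms -/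
def QFC (k : ℕ) (C : ℝ) : Prop :=
  1 ≤ C ∧ (∀ W z J : ℕ, 1 ≤ W → 1 ≤ z → 1 ≤ J → (∀ p : ℕ, p.Prime → p ≤ z → p ∣ W) →
    ∑ j ∈ range J, ∑ j' ∈ (range J).filter (fun j' => j' ≠ j), uu J j * uu J j' * (rat W (W * dd j j') ^ k - 1) ≤
      C / Real.sqrt z) ∧
  (∀ W J J' : ℕ, 1 ≤ W → 1 ≤ J → J ≤ J' →
    ∑ j ∈ range J', ∑ j' ∈ (range J').filter (fun j' => j' ≠ j),
      vv J J' j * vv J J' j' * (rat W (W * dd j j') ^ k - 1) ≤ C / Real.sqrt J)

lemma exists_QFC (k : ℕ) : ∃ C, QFC k C := by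
  obtain ⟨C1, h1, h2⟩ := QF_uu k
  obtain ⟨C2, h3, h4⟩ := QF_vv k
  refine ⟨max C1 C2, le_trans h1 (le_max_left _ _), fun W z J a b c d => (h2 W z J a b c d).trans ?_,
    fun W J J' a b c => (h4 W J J' a b c).trans ?_⟩
  · exact div_le_div_of_nonneg_right (le_max_left _ _) (Real.sqrt_nonneg _)
  · exact div_le_div_of_nonneg_right (le_max_right _ _) (Real.sqrt_nonneg _)

section
variable {k : ℕ} {g : Fin k → ℕ → ℕ} {s t : Fin k → ℕ} {H W K N R : ℕ} {α δ : Fin k → ℕ} {E ρ L : ℝ}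

/-- a vector whose sums deviate -/
def DevG {k : ℕ} (g : Fin k → ℕ → ℕ) (W : ℕ) (G : Finset ℕ) (Jg : ℕ → ℕ) (I : ℕ) (θ : ℝ) (v : Fin k → ℕ × ℕ) : Prop :=
  1 ≤ G.card ∧ ∃ i ∈ range (I + 1), 2 * θ * (G.card * ww W ^ k) <
      |XX g v G W (Jg i) / Jg i - G.card * ww W ^ k|

open Classical in
/-- all lengths of a grid simultaneously -/
lemma class_all {C : ℝ} (hC : QFC k C) (h : Hyp g s t H W K N R E ρ L) (z : ℕ) (hz : 1 ≤ z)
    (hzW : ∀ p : ℕ, p.Prime → p ≤ z → p ∣ W) (G : Finset ℕ) (hG : ∀ r ∈ G, r ≤ W ∧ Cop g W r α δ)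
    (Jg : ℕ → ℕ) (I : ℕ) (hJ1 : ∀ i, 1 ≤ Jg i) (hJm : ∀ i ∈ range I, Jg i ≤ Jg I) (hJI : W * Jg I ≤ K) (θ : ℝ) (hθ : 0 < θ) :
    (((VV s t H W α δ).filter (DevG g W G Jg I θ)).card : ℝ) ≤
      BB H W ^ k * ((C / Real.sqrt z + (2 * L) ^ k / Jg I + 16 * K ^ k * ((1 + ρ) ^ (2 * k) - 1) +
        ∑ i ∈ range I, (C / Real.sqrt (Jg i) + (2 * L) ^ k * (2 / Jg i) + 16 * K ^ k * ((1 + ρ) ^ (2 * k) - 1))) / θ ^ 2) := by
  have hL0 := h.hL0
  have hρ0 := h.hρ0
  have hB : 0 ≤ BB H W := by unfold BB; positivity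
  have hC0 : 0 ≤ C := by linarith [hC.1]
  have hσ0 : 0 ≤ 16 * (K : ℝ) ^ k * ((1 + ρ) ^ (2 * k) - 1) := by
    have := one_le_pow₀ (show 1 ≤ 1 + ρ by linarith) (n := 2 * k)
    have h2 : 0 ≤ (1 + ρ) ^ (2 * k) - 1 := by linarith
    positivity
  by_cases hG1 : 1 ≤ G.card
  swap
  · have : (VV s t H W α δ).filter (DevG g W G Jg I θ) = ∅ := by
      refine Finset.filter_eq_empty_iff.2 fun v _ hv => hG1 hv.1
    rw [this, Finset.card_empty, Nat.cast_zero]
    have : 0 ≤ ∑ i ∈ range I, (C / Real.sqrt (Jg i) + (2 * L) ^ k * (2 / Jg i) + 16 * (K : ℝ) ^ k * ((1 + ρ) ^ (2 * k) - 1)) :=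
      Finset.sum_nonneg fun i _ => by positivity
    positivity
  -- the two kinds of bad sets
  set M := (G.card : ℝ) * ww W ^ k with hM
  set FA := (VV s t H W α δ).filter (fun v => θ * M <
      |∑ r ∈ G, ∑ j ∈ range (Jg I), uu (Jg I) j * PG g v (r + W * j) - M * ∑ j ∈ range (Jg I), uu (Jg I) j|) with hFA
  set FB : ℕ → Finset (Fin k → ℕ × ℕ) := fun i => (VV s t H W α δ).filter (fun v => θ * M <
      |∑ r ∈ G, ∑ j ∈ range (Jg I), vv (Jg i) (Jg I) j * PG g v (r + W * j) - M * ∑ j ∈ range (Jg I), vv (Jg i) (Jg I) j|) with hFB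
  have hA : (FA.card : ℝ) ≤ BB H W ^ k * ((C / Real.sqrt z + (2 * L) ^ k / Jg I + 16 * K ^ k * ((1 + ρ) ^ (2 * k) - 1)) / θ ^ 2) := by
    refine cheb_class h G hG hG1 (uu (Jg I)) (Jg I) hJI ?_ _ θ hθ ?_
    · have : ∑ j ∈ range (Jg I), |uu (Jg I) j| = 1 := by
        rw [← sum_uu (Jg I) (Jg I) le_rfl (hJ1 I)]
        exact Finset.sum_congr rfl fun j _ => abs_of_nonneg (uu_nonneg _ _)
      rw [this]; norm_num
    · have h1 := hC.2.1 W z (Jg I) h.hW hz (hJ1 I) hzW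
      rw [sum_uu_sq (Jg I) (Jg I) le_rfl (hJ1 I)]
      have e1 : (2 * L) ^ k * (1 / (Jg I : ℝ)) = (2 * L) ^ k / Jg I := by ring
      rw [e1]; linarith
  have hBi : ∀ i ∈ range I, ((FB i).card : ℝ) ≤ BB H W ^ k * ((C / Real.sqrt (Jg i) + (2 * L) ^ k * (2 / Jg i) +
      16 * K ^ k * ((1 + ρ) ^ (2 * k) - 1)) / θ ^ 2) := by
    intro i hi
    refine cheb_class h G hG hG1 (vv (Jg i) (Jg I)) (Jg I) hJI (vv_abs_sum _ _ (hJm i hi) (hJ1 i)) _ θ hθ ?_
    have h1 := hC.2.2 W (Jg i) (Jg I) h.hW (hJ1 i) (hJm i hi)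
    have h2 := mul_le_mul_of_nonneg_left (vv_sq_sum (Jg i) (Jg I) (hJm i hi) (hJ1 i)) (show 0 ≤ (2 * L) ^ k by positivity)
    linarith
  have hsub : (VV s t H W α δ).filter (DevG g W G Jg I θ) ⊆ FA ∪ (range I).biUnion FB := by
    intro v hv
    obtain ⟨hvV, -, i, hi, hlt⟩ := Finset.mem_filter.1 hv
    rw [← hM] at hlt
    have eA : ∑ r ∈ G, ∑ j ∈ range (Jg I), uu (Jg I) j * PG g v (r + W * j) = XX g v G W (Jg I) / Jg I :=
      XX_uu v G (Jg I) (Jg I) le_rfl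
    have hMθ : 0 ≤ θ * M := by
      have := one_le_ww W h.hW
      positivity
    by_cases hbA : θ * M < |XX g v G W (Jg I) / Jg I - M|
    · refine Finset.mem_union_left _ (Finset.mem_filter.2 ⟨hvV, ?_⟩)
      rw [eA, sum_uu (Jg I) (Jg I) le_rfl (hJ1 I), mul_one]; exact hbA
    · have hi2 : i ∈ range I := by
        rcases Nat.lt_succ_iff_lt_or_eq.1 (Finset.mem_range.1 hi) with h1 | h1
        · exact Finset.mem_range.2 h1
        · exfalso
          rw [h1] at hlt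
          push Not at hbA
          linarith
      refine Finset.mem_union_right _ (Finset.mem_biUnion.2 ⟨i, hi2, Finset.mem_filter.2 ⟨hvV, ?_⟩⟩)
      have eB : ∑ r ∈ G, ∑ j ∈ range (Jg I), vv (Jg i) (Jg I) j * PG g v (r + W * j) =
          XX g v G W (Jg i) / Jg i - XX g v G W (Jg I) / Jg I := by
        rw [← XX_uu v G (Jg i) (Jg I) (hJm i hi2), ← eA, ← Finset.sum_sub_distrib]
        refine Finset.sum_congr rfl fun r _ => ?_
        rw [← Finset.sum_sub_distrib]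
        refine Finset.sum_congr rfl fun j _ => by unfold vv; ring
      rw [eB, vv_sum _ _ (hJm i hi2) (hJ1 i), mul_zero, sub_zero]
      push Not at hbA
      have h5 : |XX g v G W (Jg i) / Jg i - M| ≤ |XX g v G W (Jg i) / Jg i - XX g v G W (Jg I) / Jg I| +
          |XX g v G W (Jg I) / Jg I - M| := by
        have := abs_add_le (XX g v G W (Jg i) / Jg i - XX g v G W (Jg I) / Jg I) (XX g v G W (Jg I) / Jg I - M)
        rw [sub_add_sub_cancel] at this
        exact this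
      linarith
  calc _ ≤ ((FA ∪ (range I).biUnion FB).card : ℝ) := by exact_mod_cast Finset.card_le_card hsub
    _ ≤ (FA.card : ℝ) + ∑ i ∈ range I, ((FB i).card : ℝ) := by
        have h1 := Finset.card_union_le FA ((range I).biUnion FB)
        have h2 : ((range I).biUnion FB).card ≤ ∑ i ∈ range I, (FB i).card := Finset.card_biUnion_le
        exact_mod_cast h1.trans (Nat.add_le_add_left h2 _)
    _ ≤ BB H W ^ k * ((C / Real.sqrt z + (2 * L) ^ k / Jg I + 16 * K ^ k * ((1 + ρ) ^ (2 * k) - 1)) / θ ^ 2) +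
        ∑ i ∈ range I, BB H W ^ k * ((C / Real.sqrt (Jg i) + (2 * L) ^ k * (2 / Jg i) +
      16 * K ^ k * ((1 + ρ) ^ (2 * k) - 1)) / θ ^ 2) := add_le_add hA (Finset.sum_le_sum hBi)
    _ = _ := by
        rw [← Finset.mul_sum, ← Finset.sum_div]; ring

end

/-- the good residues of a vector -/
def GV {k : ℕ} (g : Fin k → ℕ → ℕ) (W : ℕ) (v : Fin k → ℕ × ℕ) : Finset ℕ :=
  (Icc 1 W).filter (fun r => ∀ i, ((v i).1 + r * (v i).2 + g i r).Coprime W)

lemma GV_cls {k : ℕ} (g : Fin k → ℕ → ℕ) (W : ℕ) (s t : Fin k → ℕ) (H : ℕ) (α δ : Fin k → ℕ)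
    (v : Fin k → ℕ × ℕ) (hv : v ∈ VV s t H W α δ) : GV g W v = GV g W (fun i => (α i, δ i)) := by
  unfold GV
  refine Finset.filter_congr fun r _ => forall_congr' fun i => ?_
  have h1 : v i ∈ cls (s i) H W (α i) ×ˢ cls (t i) H W (δ i) := by
    unfold VV at hv; exact Fintype.mem_piFinset.1 hv i
  have h2 := Finset.mem_product.1 h1
  have h3 : (v i).1 ≡ α i [MOD W] := (Finset.mem_filter.1 h2.1).2
  have h4 : (v i).2 ≡ δ i [MOD W] := (Finset.mem_filter.1 h2.2).2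
  have h5 : (v i).1 + r * (v i).2 + g i r ≡ α i + r * δ i + g i r [MOD W] :=
    ((h3.add (h4.mul_left r)).add_right (g i r))
  show Nat.gcd _ _ = 1 ↔ Nat.gcd _ _ = 1
  rw [h5.gcd_eq]

open Classical in
/-- the sum over all classes -/
lemma sum_classes {k : ℕ} (s t : Fin k → ℕ) (H W : ℕ) (hW : 1 ≤ W) (τ : ℝ)
    (P : (Fin k → ℕ × ℕ) → Prop)
    (h : ∀ α δ : Fin k → ℕ, (((VV s t H W α δ).filter P).card : ℝ) ≤ BB H W ^ k * τ) :
    (((Box s t H).filter P).card : ℝ) ≤ τ * (H : ℝ) ^ (2 * k) := by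
  have hWr : (1 : ℝ) ≤ W := by exact_mod_cast hW
  set F := (Box s t H).filter P with hFd
  set cl : Finset (Fin k → ℕ × ℕ) := (Fintype.piFinset (fun _ : Fin k => range W ×ˢ range W)) with hcl
  have h1 : ∀ v ∈ F, (fun i => ((v i).1 % W, (v i).2 % W)) ∈ cl := by
    intro v _
    rw [hcl, Fintype.mem_piFinset]
    intro i
    exact Finset.mem_product.2 ⟨Finset.mem_range.2 (Nat.mod_lt _ hW), Finset.mem_range.2 (Nat.mod_lt _ hW)⟩
  rw [Finset.card_eq_sum_card_fiberwise h1]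
  push_cast
  have h2 : ∀ c ∈ cl, ((F.filter (fun v => (fun i => ((v i).1 % W, (v i).2 % W)) = c)).card : ℝ) ≤ BB H W ^ k * τ := by
    intro c _
    refine le_trans ?_ (h (fun i => (c i).1) (fun i => (c i).2))
    have h5 : (F.filter (fun v => (fun i => ((v i).1 % W, (v i).2 % W)) = c)) ⊆
        ((VV s t H W (fun i => (c i).1) (fun i => (c i).2)).filter P) := by
      intro v hv
      have h6 := Finset.mem_filter.1 hv
      have h7 := Finset.mem_filter.1 h6.1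
      refine Finset.mem_filter.2 ⟨?_, h7.2⟩
      unfold VV
      rw [Fintype.mem_piFinset]
      intro i
      have h8 : v i ∈ Ioc (s i) (s i + H) ×ˢ Ioc (t i) (t i + H) := by
        have := h7.1
        unfold Box at this
        exact Fintype.mem_piFinset.1 this i
      have h9 := Finset.mem_product.1 h8
      have h10 : c i = ((v i).1 % W, (v i).2 % W) := by rw [← h6.2]
      refine Finset.mem_product.2 ⟨Finset.mem_filter.2 ⟨h9.1, ?_⟩, Finset.mem_filter.2 ⟨h9.2, ?_⟩⟩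
      · show (v i).1 ≡ (c i).1 [MOD W]
        rw [h10]; exact (Nat.mod_modEq _ _).symm
      · show (v i).2 ≡ (c i).2 [MOD W]
        rw [h10]; exact (Nat.mod_modEq _ _).symm
    exact_mod_cast Finset.card_le_card h5
  calc _ ≤ ∑ c ∈ cl, BB H W ^ k * τ := Finset.sum_le_sum h2
    _ = τ * (H : ℝ) ^ (2 * k) := by
        rw [Finset.sum_const, nsmul_eq_mul, hcl, Fintype.card_piFinset]
        simp only [Finset.card_product, Finset.card_range, Finset.prod_const, Finset.card_univ, Fintype.card_fin]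
        push_cast
        unfold BB
        rw [div_pow, ← pow_mul, ← pow_mul, ← pow_two, ← pow_mul]
        field_simp

/-- a vector whose sums deviate -/
def Dev {k : ℕ} (g : Fin k → ℕ → ℕ) (W : ℕ) (Jg : ℕ → ℕ) (I : ℕ) (θ : ℝ) (v : Fin k → ℕ × ℕ) : Prop :=
  DevG g W (GV g W v) Jg I θ v

open Classical in
lemma box_all {k : ℕ} {g : Fin k → ℕ → ℕ} {s t : Fin k → ℕ} {H W K N R : ℕ} {E ρ L : ℝ}
    {C : ℝ} (hC : QFC k C) (h : Hyp g s t H W K N R E ρ L) (z : ℕ) (hz : 1 ≤ z)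
    (hzW : ∀ p : ℕ, p.Prime → p ≤ z → p ∣ W)
    (Jg : ℕ → ℕ) (I : ℕ) (hJ1 : ∀ i, 1 ≤ Jg i) (hJm : ∀ i ∈ range I, Jg i ≤ Jg I) (hJI : W * Jg I ≤ K) (θ : ℝ) (hθ : 0 < θ) :
    (((Box s t H).filter (Dev g W Jg I θ)).card : ℝ) ≤
      ((C / Real.sqrt z + (2 * L) ^ k / Jg I + 16 * K ^ k * ((1 + ρ) ^ (2 * k) - 1) +
        ∑ i ∈ range I, (C / Real.sqrt (Jg i) + (2 * L) ^ k * (2 / Jg i) + 16 * K ^ k * ((1 + ρ) ^ (2 * k) - 1))) / θ ^ 2) *
        (H : ℝ) ^ (2 * k) := by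
  refine sum_classes s t H W h.hW _ _ fun α δ => ?_
  refine le_trans ?_ (class_all (α := α) (δ := δ) hC h z hz hzW (GV g W (fun i => (α i, δ i))) (fun r hr => ?_) Jg I hJ1 hJm hJI θ hθ)
  · have h0 : (VV s t H W α δ).filter (Dev g W Jg I θ) =
        (VV s t H W α δ).filter (DevG g W (GV g W (fun i => (α i, δ i))) Jg I θ) := by
      refine Finset.filter_congr fun v hv => ?_
      unfold Dev
      rw [GV_cls g W s t H α δ v hv]
    rw [h0]
  · have h1 := Finset.mem_filter.1 hr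
    exact ⟨(Finset.mem_Icc.1 h1.1).2, h1.2⟩

end Pool.Agent.H570.TH
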