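import Mathlib
import Pool.Agent.H570.TH.Cls

/-! The parameters. -/

set_option autoImplicit false

namespace Pool.Agent.H570.TH

open Finset Filter Topology Pool.Agent.H570.LQ

/-- the bound for the values -/
noncomputable def NG (B H : ℕ) : ℕ := ⌊(H : ℝ) * Real.log H ^ B⌋₊

lemma NG_facts (B : ℕ) (κ : ℝ) (hκ : 0 < κ) : ∀ᶠ H : ℕ in atTop, H ≤ NG B H ∧ (NG B H : ℝ) ≤ H * Real.log H ^ B ∧
    Real.log (NG B H) ≤ (1 + κ) * Real.log H ∧ Real.log H ≤ Real.log (NG B H) := by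
  filter_upwards [ev1 4, ev3 (κ / ((B + 1 : ℕ) : ℝ)) (by positivity), eventually_ge_atTop 3] with H h1 h2 h3
  set x := Real.log H with hx
  have hH : (3 : ℝ) ≤ H := by exact_mod_cast h3
  have hxB : 1 ≤ x ^ B := one_le_pow₀ (by linarith)
  have f0 : (H : ℝ) ≤ H * x ^ B := le_mul_of_one_le_right (by linarith) hxB
  have f1 : H ≤ NG B H := Nat.le_floor f0
  have f2 : (NG B H : ℝ) ≤ H * x ^ B := Nat.floor_le (by positivity)
  have f1r : (H : ℝ) ≤ NG B H := by exact_mod_cast f1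
  refine ⟨f1, f2, ?_, Real.log_le_log (by linarith) f1r⟩
  have h4 : Real.log (NG B H) ≤ Real.log (H * x ^ B) := Real.log_le_log (by linarith) f2
  rw [Real.log_mul (by linarith) (by positivity), Real.log_pow] at h4
  have hlx : 0 ≤ Real.log x := Real.log_nonneg (by linarith)
  have h5 : (B : ℝ) * Real.log x ≤ κ * x := by
    have hp : (0 : ℝ) < ((B + 1 : ℕ) : ℝ) := by positivity
    have := mul_le_mul_of_nonneg_left h2 hp.le
    have e1 : ((B + 1 : ℕ) : ℝ) * (κ / ((B + 1 : ℕ) : ℝ) * x) = κ * x := by field_simp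
    rw [e1] at this
    push_cast at this
    nlinarith
  linarith

lemma params (k A B1 W m : ℕ) (hW : 1 ≤ W) : ∀ᶠ H : ℕ in atTop,
    ∀ K : ℕ, 1 ≤ K → (K : ℝ) ≤ Real.log H ^ B1 → ∀ s t : Fin k → ℕ, ∀ g : Fin k → ℕ → ℕ, PolyLike g →
    (∀ i, (s i : ℝ) ≤ H * Real.log H ^ A ∧ (t i : ℝ) ≤ H * Real.log H ^ A ∧ (g i K : ℝ) ≤ H * Real.log H ^ A) →
    ∃ (R : ℕ) (E : ℝ), Hyp g s t H W K (NG (A + B1 + 1) H) R E (1 / Real.log H ^ m) (2 * Real.log H) := by
  set B := A + B1 + 1 with hB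
  set U := 2 * B + 2 * B1 + m + 7 with hU
  obtain ⟨N0, hap⟩ := Pool.Agent.H373R2.T7.lam_ap (B1 + 1) U
  filter_upwards [NG_facts B 1 one_pos, ev1 (max W 8), ev4 (m + 2) (1 / Real.sqrt 2) (by positivity),
    eventually_ge_atTop (max N0 3)] with H h1 h2 h4 h5 K hK1 hK s t g hg hst
  obtain ⟨f1, f2, f3, f4⟩ := h1
  set N := NG B H with hN
  set x := Real.log H with hx
  have hH3 : 3 ≤ H := le_trans (le_max_right _ _) h5
  have hHr : (3 : ℝ) ≤ H := by exact_mod_cast hH3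
  have hx8 : (8 : ℝ) ≤ x := le_trans (le_max_right _ _) h2
  have hWx : (W : ℝ) ≤ x := le_trans (le_max_left _ _) h2
  have hNN0 : N0 ≤ N := le_trans (le_trans (le_max_left _ _) h5) f1
  have hNr : (3 : ℝ) ≤ N := by
    have : (H : ℝ) ≤ N := by exact_mod_cast f1
    linarith
  have hWr : (1 : ℝ) ≤ W := by exact_mod_cast hW
  have hx0 : 0 < x := by linarith
  have hx1 : 1 ≤ x := by linarith
  have hlN : x ≤ Real.log N := f4
  have hxm : 1 ≤ x ^ m := one_le_pow₀ hx1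
  set R := ⌊Real.log N ^ (B1 + 1)⌋₊ with hR
  set E := (N : ℝ) / Real.log N ^ U with hE
  have hE0 : 0 ≤ E := by positivity
  have hE1 : E ≤ H / x ^ (B + 2 * B1 + m + 7) := by
    have hEb : E ≤ H * x ^ B / x ^ U := by
      rw [hE]
      exact div_le_div₀ (by positivity) f2 (by positivity) (pow_le_pow_left₀ hx0.le hlN U)
    refine hEb.trans (le_of_eq ?_)
    have : x ^ U = x ^ B * x ^ (B + 2 * B1 + m + 7) := by rw [← pow_add]; congr 1; omega
    rw [this]; field_simp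
  refine ⟨R, E, ⟨?_, hE0, ?_, hW, ?_, hK1, hg, ?_, by omega, ?_, ?_, ?_, by positivity, by linarith, by linarith⟩⟩
  · intro q hq hqR c y hy
    refine hap N hNN0 q hq ?_ c y hy
    have : (q : ℝ) ≤ R := by exact_mod_cast hqR
    exact this.trans (Nat.floor_le (by positivity))
  · rw [hE]
    exact div_le_self (by linarith) (one_le_pow₀ (by linarith))
  · apply Nat.le_floor
    push_cast
    calc (K : ℝ) * W ≤ x ^ B1 * x := mul_le_mul hK hWx (by linarith) (by positivity)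
      _ = x ^ (B1 + 1) := (pow_succ x B1).symm
      _ ≤ _ := pow_le_pow_left₀ hx0.le hlN _
  · intro i
    obtain ⟨hs, ht, hgk⟩ := hst i
    apply Nat.le_floor
    push_cast
    have hxA : 1 ≤ x ^ A := one_le_pow₀ hx1
    have hAB : x ^ A ≤ x ^ (A + B1) := pow_le_pow_right₀ hx1 (by omega)
    have hs' : (s i : ℝ) ≤ H * x ^ (A + B1) := hs.trans (mul_le_mul_of_nonneg_left hAB (by linarith))
    have hg' : (g i K : ℝ) ≤ H * x ^ (A + B1) := hgk.trans (mul_le_mul_of_nonneg_left hAB (by linarith))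
    have h6 : (K : ℝ) * (t i + H) ≤ 2 * (H * x ^ (A + B1)) := by
      have h7 : (t i : ℝ) + H ≤ 2 * (H * x ^ A) := by
        have : (H : ℝ) ≤ H * x ^ A := le_mul_of_one_le_right (by linarith) hxA
        linarith
      calc (K : ℝ) * (t i + H) ≤ x ^ B1 * (2 * (H * x ^ A)) :=
            mul_le_mul hK h7 (by positivity) (by positivity)
        _ = 2 * (H * x ^ (A + B1)) := by rw [pow_add]; ring
    have h8 : (H : ℝ) ≤ H * x ^ (A + B1) := le_mul_of_one_le_right (by linarith) (one_le_pow₀ hx1)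
    calc (s i : ℝ) + g i K + K * (t i + H) + H ≤ 5 * (H * x ^ (A + B1)) := by linarith
      _ ≤ x * (H * x ^ (A + B1)) := mul_le_mul_of_nonneg_right (by linarith) (by positivity)
      _ = H * x ^ B := by rw [hB]; ring
  · -- h1
    have e1 : 4 * E * W ^ 2 ≤ (1 / x ^ m) * H / 2 := by
      calc 4 * E * W ^ 2 ≤ 4 * (H / x ^ (B + 2 * B1 + m + 7)) * x ^ 2 := by
            have := pow_le_pow_left₀ (by linarith) hWx 2
            gcongr
        _ ≤ (1 / x ^ m) * H / 2 := by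
            have e2 : 4 * (H / x ^ (B + 2 * B1 + m + 7)) * x ^ 2 = (H / x ^ m) * (4 / x ^ (B + 2 * B1 + 5)) := by
              have : x ^ (B + 2 * B1 + m + 7) = x ^ m * x ^ (B + 2 * B1 + 5) * x ^ 2 := by ring
              rw [this]; field_simp
            have e3 : 4 / x ^ (B + 2 * B1 + 5) ≤ 1 / 2 := by
              rw [div_le_div_iff₀ (by positivity) (by norm_num)]
              have : x ≤ x ^ (B + 2 * B1 + 5) := le_self_pow₀ hx1 (by omega)
              linarith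
            rw [e2]
            calc (H / x ^ m) * (4 / x ^ (B + 2 * B1 + 5)) ≤ (H / x ^ m) * (1 / 2) :=
                  mul_le_mul_of_nonneg_left e3 (by positivity)
              _ = _ := by ring
    have e4 : (W : ℝ) ^ 2 ≤ (1 / x ^ m) * H / 2 := by
      have h6 : (x ^ (m + 2)) ^ 2 ≤ (1 / Real.sqrt 2 * Real.sqrt H) ^ 2 := pow_le_pow_left₀ (by positivity) h4 2
      rw [mul_pow, div_pow, Real.sq_sqrt (by norm_num), Real.sq_sqrt (by linarith)] at h6
      have h7 : x ^ (m + 2) ≤ H / 2 := by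
        have : 1 ≤ x ^ (m + 2) := one_le_pow₀ hx1
        nlinarith
      have h8 : (W : ℝ) ^ 2 ≤ x ^ 2 := pow_le_pow_left₀ (by linarith) hWx 2
      have h9 : x ^ 2 ≤ (1 / x ^ m) * H / 2 := by
        rw [show (1 / x ^ m) * (H : ℝ) / 2 = (H / 2) / x ^ m by ring, le_div_iff₀ (by positivity), ← pow_add, add_comm 2 m]
        exact h7
      linarith
    nlinarith
  · -- h2
    have hK2 : ((K : ℝ) + 2) ^ 2 ≤ x ^ (2 * B1 + 2) := by
      have h6 : (K : ℝ) + 2 ≤ x ^ (B1 + 1) := by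
        have h7 : 1 ≤ x ^ B1 := one_le_pow₀ hx1
        calc (K : ℝ) + 2 ≤ x ^ B1 + 2 * x ^ B1 := by linarith
          _ ≤ x ^ B1 * x := by nlinarith
          _ = x ^ (B1 + 1) := (pow_succ x B1).symm
      calc ((K : ℝ) + 2) ^ 2 ≤ (x ^ (B1 + 1)) ^ 2 := pow_le_pow_left₀ (by positivity) h6 2
        _ = x ^ (2 * B1 + 2) := by rw [← pow_mul]; congr 1; ring
    have hEN : E * N ≤ H ^ 2 / x ^ (2 * B1 + m + 7) := by
      calc E * N ≤ (H / x ^ (B + 2 * B1 + m + 7)) * (H * x ^ B) := mul_le_mul hE1 f2 (by positivity) (by positivity)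
        _ = H ^ 2 / x ^ (2 * B1 + m + 7) := by
            have : x ^ (B + 2 * B1 + m + 7) = x ^ B * x ^ (2 * B1 + m + 7) := by rw [← pow_add]; congr 1; omega
            rw [this]; field_simp
    calc E * N * ((K : ℝ) + 2) ^ 2 * (W : ℝ) ^ 2 ≤ (H ^ 2 / x ^ (2 * B1 + m + 7)) * x ^ (2 * B1 + 2) * x ^ 2 := by
          apply mul_le_mul (mul_le_mul hEN hK2 (by positivity) (by positivity)) (pow_le_pow_left₀ (by linarith) hWx 2)
            (by positivity) (by positivity)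
      _ = (H ^ 2 / x ^ m) / x ^ 3 := by
          have : x ^ (2 * B1 + m + 7) = x ^ (2 * B1 + 2) * x ^ 2 * x ^ m * x ^ 3 := by ring
          rw [this]; field_simp
      _ ≤ 1 / x ^ m * H ^ 2 := by
          have : 1 ≤ x ^ 3 := one_le_pow₀ hx1
          calc (H ^ 2 / x ^ m) / x ^ 3 ≤ (H ^ 2 / x ^ m) := div_le_self (by positivity) this
            _ = _ := by ring
  · rw [div_le_one (by positivity)]; exact hxm

/-- the grid of lengths -/
noncomputable def JJ (X0 η : ℝ) (i : ℕ) : ℕ := ⌈X0 * (1 + η) ^ i⌉₊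

lemma JJ_ge (X0 η : ℝ) (i : ℕ) : X0 * (1 + η) ^ i ≤ JJ X0 η i := Nat.le_ceil _

lemma JJ_le (X0 η : ℝ) (hX : 1 ≤ X0) (hη : 0 < η) (i : ℕ) : (JJ X0 η i : ℝ) ≤ X0 * (1 + η) ^ i + 1 :=
  (Nat.ceil_lt_add_one (by positivity)).le

lemma JJ_pos (X0 η : ℝ) (hX : 1 ≤ X0) (hη : 0 < η) (i : ℕ) : 1 ≤ JJ X0 η i := by
  have h1 := JJ_ge X0 η i
  have h2 : 1 ≤ (1 + η) ^ i := one_le_pow₀ (by linarith)
  have h3 : 1 ≤ X0 * (1 + η) ^ i := by nlinarith
  have : (1 : ℝ) ≤ JJ X0 η i := h3.trans h1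
  exact_mod_cast this

lemma JJ_mono (X0 η : ℝ) (hX : 1 ≤ X0) (hη : 0 < η) (i j : ℕ) (h : i ≤ j) : JJ X0 η i ≤ JJ X0 η j := by
  unfold JJ
  exact Nat.ceil_le_ceil (mul_le_mul_of_nonneg_left (pow_le_pow_right₀ (by linarith) h) (by linarith))

lemma JJ_step (X0 η : ℝ) (hX : 1 ≤ X0) (hη : 0 < η) (hX2 : 1 / η ≤ X0) (i : ℕ) :
    (JJ X0 η (i + 1) : ℝ) ≤ (1 + 2 * η) * JJ X0 η i := by
  have h1 := JJ_le X0 η hX hη (i + 1)
  have h2 := JJ_ge X0 η i
  have h3 : 1 ≤ (1 + η) ^ i := one_le_pow₀ (by linarith)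
  have h4 : 1 ≤ η * JJ X0 η i := by
    have h5 : X0 ≤ X0 * (1 + η) ^ i := le_mul_of_one_le_right (by linarith) h3
    rw [div_le_iff₀ hη] at hX2
    nlinarith
  have h5 : X0 * (1 + η) ^ (i + 1) = (1 + η) * (X0 * (1 + η) ^ i) := by ring
  rw [h5] at h1
  have h6 : (1 + η) * (X0 * (1 + η) ^ i) ≤ (1 + η) * JJ X0 η i := mul_le_mul_of_nonneg_left h2 (by linarith)
  linarith

lemma exists_I (X0 η Y : ℝ) (hX : 1 ≤ X0) (hη : 0 < η) (hη1 : η ≤ 1) (hY : 0 ≤ Y) : ∃ I : ℕ, Y ≤ JJ X0 η I ∧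
    (JJ X0 η I : ℝ) ≤ 2 * Y + X0 + 1 ∧ (I : ℝ) ≤ 1 + Y / η := by
  classical
  have hex : ∃ I : ℕ, Y ≤ X0 * (1 + η) ^ I := by
    obtain ⟨n, hn⟩ := pow_unbounded_of_one_lt Y (show 1 < 1 + η by linarith)
    refine ⟨n, hn.le.trans ?_⟩
    exact le_mul_of_one_le_left (by positivity) hX
  set I := Nat.find hex with hI
  have h1 : Y ≤ X0 * (1 + η) ^ I := Nat.find_spec hex
  refine ⟨I, h1.trans (JJ_ge _ _ _), ?_, ?_⟩
  · refine (JJ_le X0 η hX hη I).trans ?_
    rcases Nat.eq_zero_or_pos I with h0 | h0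
    · rw [h0, pow_zero, mul_one]; linarith
    · obtain ⟨j, hj⟩ : ∃ j, I = j + 1 := ⟨I - 1, by omega⟩
      have h2 : ¬ Y ≤ X0 * (1 + η) ^ j := Nat.find_min hex (by omega)
      push Not at h2
      rw [hj, pow_succ]
      have : X0 * ((1 + η) ^ j * (1 + η)) = (1 + η) * (X0 * (1 + η) ^ j) := by ring
      rw [this]
      have h3 : 0 ≤ X0 * (1 + η) ^ j := by positivity
      nlinarith
  · rcases Nat.eq_zero_or_pos I with h0 | h0
    · rw [h0]; push_cast; positivity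
    · obtain ⟨j, hj⟩ : ∃ j, I = j + 1 := ⟨I - 1, by omega⟩
      have h2 : ¬ Y ≤ X0 * (1 + η) ^ j := Nat.find_min hex (by omega)
      push Not at h2
      have h3 := one_add_mul_le_pow (show (-2 : ℝ) ≤ η by linarith) j
      have h4 : (j : ℝ) * η ≤ Y := by
        have h5 : (1 + η) ^ j ≤ X0 * (1 + η) ^ j := le_mul_of_one_le_left (by positivity) hX
        linarith
      have h5 : (j : ℝ) ≤ Y / η := by rw [le_div_iff₀ hη]; exact h4
      rw [hj]; push_cast; linarith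

/-- the constant of the geometric series -/
noncomputable def Gam (η : ℝ) : ℝ := 1 / (1 - (Real.sqrt (1 + η))⁻¹)

lemma Gam_pos (η : ℝ) (hη : 0 < η) : 0 < Gam η := by
  unfold Gam
  have h1 : 1 < Real.sqrt (1 + η) := by
    rw [Real.lt_sqrt (by norm_num)]; linarith
  have h2 : (Real.sqrt (1 + η))⁻¹ < 1 := inv_lt_one_of_one_lt₀ h1
  have : 0 < 1 - (Real.sqrt (1 + η))⁻¹ := by linarith
  positivity

lemma geo_le (η : ℝ) (hη : 0 < η) (I : ℕ) : ∑ i ∈ range I, ((Real.sqrt (1 + η))⁻¹) ^ i ≤ Gam η := by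
  unfold Gam
  have h1 : 1 < Real.sqrt (1 + η) := by
    rw [Real.lt_sqrt (by norm_num)]; linarith
  have h2 : (Real.sqrt (1 + η))⁻¹ < 1 := inv_lt_one_of_one_lt₀ h1
  have h3 : 0 ≤ (Real.sqrt (1 + η))⁻¹ := by positivity
  have h4 := (summable_geometric_of_lt_one h3 h2).sum_le_tsum (range I) (fun i _ => by positivity)
  rw [tsum_geometric_of_lt_one h3 h2] at h4
  rw [one_div]; exact h4

lemma sum_JJ_sqrt (X0 η : ℝ) (hX : 1 ≤ X0) (hη : 0 < η) (I : ℕ) :
    ∑ i ∈ range I, 1 / Real.sqrt (JJ X0 η i) ≤ Gam η / Real.sqrt X0 := by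
  have h0 : 0 < Real.sqrt X0 := Real.sqrt_pos.2 (by linarith)
  calc _ ≤ ∑ i ∈ range I, ((Real.sqrt (1 + η))⁻¹) ^ i / Real.sqrt X0 := by
        refine Finset.sum_le_sum fun i _ => ?_
        have h1 : Real.sqrt X0 * Real.sqrt (1 + η) ^ i ≤ Real.sqrt (JJ X0 η i) := by
          have h2 : Real.sqrt X0 * Real.sqrt (1 + η) ^ i = Real.sqrt (X0 * (1 + η) ^ i) := by
            rw [Real.sqrt_mul (by linarith)]
            have h9 : (1 + η) ^ i = (Real.sqrt (1 + η) ^ i) ^ 2 := by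
              rw [← pow_mul, mul_comm i 2, pow_mul, Real.sq_sqrt (by linarith)]
            have h10 : Real.sqrt ((1 + η) ^ i) = Real.sqrt (1 + η) ^ i := by
              rw [h9, Real.sqrt_sq (by positivity)]
            rw [h10]
          rw [h2]
          exact Real.sqrt_le_sqrt (JJ_ge _ _ _)
        have h3 : 0 < Real.sqrt (1 + η) := Real.sqrt_pos.2 (by linarith)
        rw [inv_pow, div_le_div_iff₀ (lt_of_lt_of_le (by positivity) h1) h0, one_mul]
        calc Real.sqrt X0 = (Real.sqrt (1 + η) ^ i)⁻¹ * (Real.sqrt X0 * Real.sqrt (1 + η) ^ i) := by field_simp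
          _ ≤ _ := mul_le_mul_of_nonneg_left h1 (by positivity)
    _ = (∑ i ∈ range I, ((Real.sqrt (1 + η))⁻¹) ^ i) / Real.sqrt X0 := by rw [Finset.sum_div]
    _ ≤ _ := div_le_div_of_nonneg_right (geo_le η hη I) h0.le

lemma sum_JJ_inv (X0 η : ℝ) (hX : 1 ≤ X0) (hη : 0 < η) (I : ℕ) :
    ∑ i ∈ range I, 1 / (JJ X0 η i : ℝ) ≤ Gam η / X0 := by
  have h3 : 0 < Real.sqrt (1 + η) := Real.sqrt_pos.2 (by linarith)
  have h4 : 1 ≤ Real.sqrt (1 + η) := by rw [Real.one_le_sqrt]; linarith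
  calc _ ≤ ∑ i ∈ range I, ((Real.sqrt (1 + η))⁻¹) ^ i / X0 := by
        refine Finset.sum_le_sum fun i _ => ?_
        have h1 := JJ_ge X0 η i
        have h2 : Real.sqrt (1 + η) ^ i ≤ (1 + η) ^ i := by
          refine pow_le_pow_left₀ h3.le ?_ i
          have := Real.mul_self_sqrt (show 0 ≤ 1 + η by linarith)
          nlinarith
        have h5 : X0 * Real.sqrt (1 + η) ^ i ≤ JJ X0 η i := (mul_le_mul_of_nonneg_left h2 (by linarith)).trans h1
        rw [inv_pow, div_le_div_iff₀ (lt_of_lt_of_le (by positivity) h5) (by linarith), one_mul]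
        calc X0 = (Real.sqrt (1 + η) ^ i)⁻¹ * (X0 * Real.sqrt (1 + η) ^ i) := by field_simp
          _ ≤ _ := mul_le_mul_of_nonneg_left h5 (by positivity)
    _ = (∑ i ∈ range I, ((Real.sqrt (1 + η))⁻¹) ^ i) / X0 := by rw [Finset.sum_div]
    _ ≤ _ := div_le_div_of_nonneg_right (geo_le η hη I) (by linarith)

end Pool.Agent.H570.TH
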