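import Mathlib
import Pool.Agent.H570.TH.Prm
import Pool.Agent.H570.LQ.Par

/-! From sums of products of values of the von Mangoldt function to counting. -/

set_option autoImplicit false

namespace Pool.Agent.H570.TH

open Finset Filter Topology Pool.Agent.H570.LQ

/-- all values at `n` are primes -/
def AllP {k : ℕ} (g : Fin k → ℕ → ℕ) (v : Fin k → ℕ × ℕ) (n : ℕ) : Prop :=
  ∀ i, ((v i).1 + n * (v i).2 + g i n).Prime

open Classical in
/-- the number of `n ≤ K` for which all values are primes -/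
noncomputable def PiK {k : ℕ} (g : Fin k → ℕ → ℕ) (v : Fin k → ℕ × ℕ) (K : ℕ) : ℕ := ((Icc 1 K).filter (AllP g v)).card

lemma PiK_mono {k : ℕ} (g : Fin k → ℕ → ℕ) (v : Fin k → ℕ × ℕ) (K K' : ℕ) (h : K ≤ K') : PiK g v K ≤ PiK g v K' := by
  classical
  unfold PiK
  refine Finset.card_le_card (Finset.filter_subset_filter _ ?_)
  intro n hn
  have := mem_Icc.1 hn
  exact mem_Icc.2 ⟨this.1, this.2.trans h⟩

/-- the vectors for which the counting works -/
structure Nice {k : ℕ} (g : Fin k → ℕ → ℕ) (v : Fin k → ℕ × ℕ) (K N z : ℕ) (x δ : ℝ) : Prop where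
  small : ∀ i, z < (v i).1
  lower : ∀ i, (1 - δ) * x ≤ Real.log (v i).1
  le : ∀ n, 1 ≤ n → n ≤ K → ∀ i, (v i).1 + n * (v i).2 + g i n ≤ N
  upper : Real.log N ≤ (1 + δ) * x
  pp : ∀ n, 1 ≤ n → n ≤ K → ∀ i, (v i).1 + n * (v i).2 + g i n ∉ PPw N

lemma sum_blocks (F : ℕ → ℝ) (W J : ℕ) :
    ∑ r ∈ Icc 1 W, ∑ j ∈ range J, F (r + W * j) = ∑ n ∈ Icc 1 (W * J), F n := by
  induction J with
  | zero => simp
  | succ J ih =>
    simp only [Finset.sum_range_succ, Finset.sum_add_distrib]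
    rw [ih]
    have h1 : Icc 1 (W * (J + 1)) = Icc 1 (W * J) ∪ (Icc 1 W).image (fun r => r + W * J) := by
      ext n
      simp only [mem_union, mem_image, mem_Icc]
      have e : W * (J + 1) = W * J + W := by ring
      rw [e]
      constructor
      · rintro ⟨h1, h2⟩
        by_cases h3 : n ≤ W * J
        · exact Or.inl ⟨h1, h3⟩
        · exact Or.inr ⟨n - W * J, ⟨by omega, by omega⟩, by omega⟩
      · rintro (⟨h1, h2⟩ | ⟨r, ⟨h1, h2⟩, h3⟩)
        · exact ⟨h1, by omega⟩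
        · exact ⟨by omega, by omega⟩
    rw [h1, Finset.sum_union, Finset.sum_image]
    · intro a _ b _ hab
      have : a + W * J = b + W * J := hab
      omega
    · rw [Finset.disjoint_left]
      intro n hn hn'
      have h2 := mem_Icc.1 hn
      obtain ⟨r, hr, hr'⟩ := Finset.mem_image.1 hn'
      have h3 := mem_Icc.1 hr
      omega

section
variable {k : ℕ} {g : Fin k → ℕ → ℕ} {v : Fin k → ℕ × ℕ} {K N z : ℕ} {x δ : ℝ}

lemma good_of_AllP (hg : PolyLike g) (h : Nice g v K N z x δ) (r j : ℕ) (hr : r ∈ Icc 1 (PW z))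
    (hA : AllP g v (r + PW z * j)) : r ∈ GV g (PW z) v := by
  refine Finset.mem_filter.2 ⟨hr, fun i => ?_⟩
  have h1 : ((v i).1 + (r + PW z * j) * (v i).2 + g i (r + PW z * j)).Coprime (PW z) := by
    refine coprime_PW z _ fun p hp hpz hd => ?_
    have h2 := (Nat.prime_dvd_prime_iff_eq hp (hA i)).1 hd
    have h3 := h.small i
    have : (v i).1 ≤ (v i).1 + (r + PW z * j) * (v i).2 + g i (r + PW z * j) := by
      rw [add_assoc]; exact Nat.le_add_right _ _
    omega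
  have h2 : r + PW z * j ≡ r [MOD PW z] := by
    have h1 : r + PW z * j ≡ r + 0 [MOD PW z] := (Nat.modEq_zero_iff_dvd.2 (Dvd.intro _ rfl)).add_left r
    exact h1
  have h3 : (v i).1 + (r + PW z * j) * (v i).2 + g i (r + PW z * j) ≡ (v i).1 + r * (v i).2 + g i r [MOD PW z] :=
    ((h2.mul_right (v i).2).add_left (v i).1).add (g_modEq hg i _ _ _ h2)
  unfold Nat.Coprime at h1 ⊢
  rw [← h3.gcd_eq]; exact h1

lemma PG_zero (h : Nice g v K N z x δ) (n : ℕ) (hn : 1 ≤ n) (hnK : n ≤ K) (hA : ¬ AllP g v n) : PG g v n = 0 := by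
  unfold AllP at hA
  push Not at hA
  obtain ⟨i, hi⟩ := hA
  unfold PG
  refine Finset.prod_eq_zero (Finset.mem_univ i) ?_
  by_contra hne
  refine h.pp n hn hnK i ?_
  unfold PPw
  have hpos : 0 < (v i).1 := by have := h.small i; omega
  have := h.le n hn hnK i
  refine Finset.mem_filter.2 ⟨mem_Icc.2 ⟨?_, this⟩, hi, hne⟩
  have : (v i).1 ≤ (v i).1 + n * (v i).2 + g i n := by
    rw [add_assoc]; exact Nat.le_add_right _ _
  omega

open Classical in
lemma XX_eq (hg : PolyLike g) (h : Nice g v K N z x δ) (J : ℕ) (hJ : PW z * J ≤ K) :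
    XX g v (GV g (PW z) v) (PW z) J = ∑ n ∈ Icc 1 (PW z * J), if AllP g v n then PG g v n else 0 := by
  rw [← sum_blocks]
  unfold XX
  have h1 : GV g (PW z) v ⊆ Icc 1 (PW z) := Finset.filter_subset _ _
  have hle : ∀ r ∈ Icc 1 (PW z), ∀ j ∈ range J, 1 ≤ r + PW z * j ∧ r + PW z * j ≤ K := by
    intro r hr j hj
    have h2 := mem_Icc.1 hr
    have h3 := Finset.mem_range.1 hj
    have h4 : PW z * (j + 1) ≤ PW z * J := Nat.mul_le_mul_left _ h3
    have h5 : PW z * (j + 1) = PW z * j + PW z := by ring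
    constructor <;> omega
  rw [← Finset.sum_subset h1 (f := fun r => ∑ j ∈ range J, if AllP g v (r + PW z * j) then PG g v (r + PW z * j) else 0)]
  · refine Finset.sum_congr rfl fun r hr => Finset.sum_congr rfl fun j hj => ?_
    obtain ⟨h2, h3⟩ := hle r (h1 hr) j hj
    split_ifs with hA
    · rfl
    · exact PG_zero h _ h2 h3 hA
  · intro r hr hrn
    refine Finset.sum_eq_zero fun j _ => ?_
    rw [if_neg]
    exact fun hA => hrn (good_of_AllP hg h r j hr hA)

open Classical in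
lemma XX_bounds (hg : PolyLike g) (h : Nice g v K N z x δ) (hδ : δ ≤ 1) (hx : 0 ≤ x) (J : ℕ) (hJ : PW z * J ≤ K) :
    ((1 - δ) * x) ^ k * (PiK g v (PW z * J) : ℝ) ≤ XX g v (GV g (PW z) v) (PW z) J ∧
    XX g v (GV g (PW z) v) (PW z) J ≤ ((1 + δ) * x) ^ k * (PiK g v (PW z * J) : ℝ) := by
  rw [XX_eq hg h J hJ, ← Finset.sum_filter]
  unfold PiK
  have hval : ∀ n ∈ (Icc 1 (PW z * J)).filter (AllP g v), ((1 - δ) * x) ^ k ≤ PG g v n ∧ PG g v n ≤ ((1 + δ) * x) ^ k := by
    intro n hn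
    obtain ⟨hn1, hA⟩ := Finset.mem_filter.1 hn
    have hn2 := mem_Icc.1 hn1
    have e1 : PG g v n = ∏ i, Real.log ((v i).1 + n * (v i).2 + g i n : ℕ) := by
      unfold PG
      refine Finset.prod_congr rfl fun i _ => ?_
      exact ArithmeticFunction.vonMangoldt_apply_prime (hA i)
    have hpos : ∀ i, (0 : ℝ) < (v i).1 := fun i => by
      have := h.small i
      exact_mod_cast (by omega : 0 < (v i).1)
    have hlow : ∀ i, (1 - δ) * x ≤ Real.log ((v i).1 + n * (v i).2 + g i n : ℕ) := fun i => by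
      refine (h.lower i).trans (Real.log_le_log (hpos i) ?_)
      have : (v i).1 ≤ (v i).1 + n * (v i).2 + g i n := by
        rw [add_assoc]; exact Nat.le_add_right _ _
      exact_mod_cast this
    have hup : ∀ i, Real.log ((v i).1 + n * (v i).2 + g i n : ℕ) ≤ (1 + δ) * x := fun i => by
      refine le_trans (Real.log_le_log ?_ ?_) h.upper
      · exact_mod_cast (hA i).pos
      · exact_mod_cast h.le n hn2.1 (hn2.2.trans hJ) i
    have h0 : 0 ≤ (1 - δ) * x := mul_nonneg (by linarith) hx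
    rw [e1]
    constructor
    · calc ((1 - δ) * x) ^ k = ∏ i : Fin k, ((1 - δ) * x) := by rw [Finset.prod_const, Finset.card_univ, Fintype.card_fin]
        _ ≤ _ := Finset.prod_le_prod (fun i _ => h0) fun i _ => hlow i
    · calc _ ≤ ∏ i : Fin k, ((1 + δ) * x) := Finset.prod_le_prod (fun i _ => h0.trans (hlow i)) fun i _ => hup i
        _ = _ := by rw [Finset.prod_const, Finset.card_univ, Fintype.card_fin]
  constructor
  · calc ((1 - δ) * x) ^ k * (((Icc 1 (PW z * J)).filter (AllP g v)).card : ℝ) =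
        ∑ n ∈ (Icc 1 (PW z * J)).filter (AllP g v), ((1 - δ) * x) ^ k := by
          rw [Finset.sum_const, nsmul_eq_mul]; ring
      _ ≤ _ := Finset.sum_le_sum fun n hn => (hval n hn).1
  · calc _ ≤ ∑ n ∈ (Icc 1 (PW z * J)).filter (AllP g v), ((1 + δ) * x) ^ k := Finset.sum_le_sum fun n hn => (hval n hn).2
      _ = _ := by rw [Finset.sum_const, nsmul_eq_mul]; ring

end

lemma XX_mono {k : ℕ} (g : Fin k → ℕ → ℕ) (v : Fin k → ℕ × ℕ) (G : Finset ℕ) (W J J' : ℕ) (h : J ≤ J') :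
    XX g v G W J ≤ XX g v G W J' := by
  unfold XX
  refine Finset.sum_le_sum fun r _ => Finset.sum_le_sum_of_subset_of_nonneg (Finset.range_mono h) fun j _ _ => ?_
  unfold PG
  exact Finset.prod_nonneg fun i _ => vM_nonneg _

/-- interpolation between the points of the grid -/
lemma interp (X : ℕ → ℝ) (hX : ∀ J J', J ≤ J' → X J ≤ X J') (M : ℝ) (hM : 0 ≤ M) (Jg : ℕ → ℕ) (I : ℕ) (η θ : ℝ)
    (hη : 0 < η) (hθ : 0 < θ) (hθ1 : 2 * θ ≤ 1)
    (hstep : ∀ i, (Jg (i + 1) : ℝ) ≤ (1 + 2 * η) * Jg i) (hJ1 : ∀ i, 1 ≤ Jg i)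
    (hdev : ∀ i ∈ range (I + 1), |X (Jg i) / Jg i - M| ≤ 2 * θ * M) (j : ℕ) (hj0 : Jg 0 ≤ j) (hjI : j ≤ Jg I) :
    (1 - 2 * θ) / (1 + 2 * η) * (j * M) ≤ X j ∧ X j ≤ (1 + 2 * θ) * (1 + 2 * η) * (j * M) := by
  have hex : ∀ I : ℕ, j ≤ Jg I → ∃ i i', i ≤ I ∧ i' ≤ I ∧ Jg i ≤ j ∧ j ≤ Jg i' ∧ (Jg i' : ℝ) ≤ (1 + 2 * η) * Jg i := by
    intro I
    induction I with
    | zero =>
      intro h
      refine ⟨0, 0, le_rfl, le_rfl, hj0, h, ?_⟩
      have : (0 : ℝ) ≤ Jg 0 := Nat.cast_nonneg _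
      nlinarith
    | succ I ih =>
      intro h
      by_cases h1 : j ≤ Jg I
      · obtain ⟨i, i', a, b, c⟩ := ih h1
        exact ⟨i, i', by omega, by omega, c⟩
      · exact ⟨I, I + 1, by omega, le_rfl, by omega, h, hstep I⟩
  obtain ⟨i, i', hi, hi', h1, h2, h3⟩ := hex I hjI
  have hd := hdev i (Finset.mem_range.2 (by omega))
  have hd' := hdev i' (Finset.mem_range.2 (by omega))
  have hp : (1 : ℝ) ≤ Jg i := by exact_mod_cast hJ1 i
  have hp' : (1 : ℝ) ≤ Jg i' := by exact_mod_cast hJ1 i'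
  have h1r : (Jg i : ℝ) ≤ j := by exact_mod_cast h1
  have h2r : (j : ℝ) ≤ Jg i' := by exact_mod_cast h2
  have a1 : X (Jg i) = (X (Jg i) / Jg i) * Jg i := by field_simp
  have a2 : X (Jg i') = (X (Jg i') / Jg i') * Jg i' := by field_simp
  have b1 : (1 - 2 * θ) * M ≤ X (Jg i) / Jg i := by have := (abs_le.1 hd).1; linarith
  have b2 : X (Jg i') / Jg i' ≤ (1 + 2 * θ) * M := by have := (abs_le.1 hd').2; linarith
  constructor
  · refine le_trans ?_ (hX _ _ h1)
    rw [a1]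
    calc (1 - 2 * θ) / (1 + 2 * η) * (j * M) ≤ (1 - 2 * θ) / (1 + 2 * η) * (((1 + 2 * η) * Jg i) * M) := by
          have : (j : ℝ) * M ≤ ((1 + 2 * η) * Jg i) * M := mul_le_mul_of_nonneg_right (h2r.trans h3) hM
          exact mul_le_mul_of_nonneg_left this (div_nonneg (by linarith) (by linarith))
      _ = (1 - 2 * θ) * M * Jg i := by field_simp
      _ ≤ _ := mul_le_mul_of_nonneg_right b1 (by linarith)
  · refine le_trans (hX _ _ h2) ?_
    rw [a2]
    calc (X (Jg i') / Jg i') * Jg i' ≤ ((1 + 2 * θ) * M) * ((1 + 2 * η) * j) := by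
          apply mul_le_mul b2 (h3.trans (mul_le_mul_of_nonneg_left h1r (by linarith))) (by linarith) (by positivity)
      _ = _ := by ring

/-- truncated singular series -/
noncomputable def SZ {k : ℕ} (g : Fin k → ℕ → ℕ) (v : Fin k → ℕ × ℕ) (z : ℕ) : ℝ :=
  ww (PW z) ^ k * (GV g (PW z) v).card / (PW z : ℕ)

/-- the final count -/
lemma final_count {k : ℕ} {g : Fin k → ℕ → ℕ} {v : Fin k → ℕ × ℕ} {K N z : ℕ} {x u : ℝ} (hg : PolyLike g)
    (h : Nice g v K N z x u) (hu : 0 < u) (hu1 : u ≤ 1 / 4) (hx : 0 < x)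
    (Jg : ℕ → ℕ) (I : ℕ) (hstep : ∀ i, (Jg (i + 1) : ℝ) ≤ (1 + 2 * u) * Jg i) (hJ1 : ∀ i, 1 ≤ Jg i)
    (hdev : ¬ Dev g (PW z) Jg I u v) (hK : PW z * Jg I ≤ K) (T : ℕ) (hT0 : PW z * Jg 0 ≤ T) (hT1 : T < PW z * Jg I)
    (hT2 : (PW z : ℝ) / u ≤ T) :
    (1 - 2 * u) * (1 - u) / ((1 + 2 * u) * (1 + u) ^ k) * (SZ g v z * T / x ^ k) ≤ PiK g v T ∧
    (PiK g v T : ℝ) ≤ (1 + 2 * u) ^ 2 * (1 + u) / (1 - u) ^ k * (SZ g v z * T / x ^ k) := by
  set W := PW z with hWd
  have hW : 1 ≤ W := PW_pos z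
  have hWr : (1 : ℝ) ≤ W := by exact_mod_cast hW
  have hw := one_le_ww W hW
  have hxk : 0 < x ^ k := by positivity
  have hu1k : 0 < (1 - u) ^ k := pow_pos (by linarith) k
  set J := T / W with hJ
  have hJ0 : Jg 0 ≤ J := (Nat.le_div_iff_mul_le hW).2 (by rw [mul_comm]; exact hT0)
  have hJT : W * J ≤ T := Nat.mul_div_le T W
  have hTJ : T < W * (J + 1) := Nat.lt_mul_div_succ T hW
  have hJI : J + 1 ≤ Jg I := by
    have : J < Jg I := (Nat.div_lt_iff_lt_mul hW).2 (by rw [mul_comm]; exact hT1)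
    omega
  have hTr : 0 < (T : ℝ) := lt_of_lt_of_le (by positivity) hT2
  have hJTr : (W : ℝ) * J ≤ T := by exact_mod_cast hJT
  have hTJr : (T : ℝ) ≤ W * (J + 1) := by exact_mod_cast hTJ.le
  have hWT : (W : ℝ) ≤ u * T := by rw [div_le_iff₀ hu] at hT2; linarith
  rcases Nat.eq_zero_or_pos (GV g W v).card with h0 | h0
  · -- no good residues
    have hz : PiK g v T = 0 := by
      classical
      unfold PiK
      rw [Finset.card_eq_zero, Finset.filter_eq_empty_iff]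
      intro n hn hA
      have hn1 := mem_Icc.1 hn
      obtain ⟨r, j, hr, hrj⟩ : ∃ r j : ℕ, r ∈ Icc 1 W ∧ n = r + W * j := by
        refine ⟨(n - 1) % W + 1, (n - 1) / W, mem_Icc.2 ⟨by omega, Nat.mod_lt _ hW⟩, ?_⟩
        have := Nat.mod_add_div (n - 1) W
        omega
      rw [hrj] at hA
      have := good_of_AllP hg h r j hr hA
      rw [← hWd, Finset.card_eq_zero.1 h0] at this
      exact absurd this (Finset.notMem_empty _)
    unfold SZ
    rw [hz, ← hWd, h0]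
    simp
  have hR : (1 : ℝ) ≤ (GV g W v).card := by exact_mod_cast h0
  set M := ((GV g W v).card : ℝ) * ww W ^ k with hM
  have hM0 : 0 < M := by positivity
  have hSZ : SZ g v z = M / W := by unfold SZ; rw [hM, ← hWd]; ring
  have hdev' : ∀ i ∈ range (I + 1), |XX g v (GV g W v) W (Jg i) / Jg i - M| ≤ 2 * u * M := by
    intro i hi
    by_contra hcon
    push Not at hcon
    exact hdev ⟨h0, i, hi, hcon⟩
  have hint := fun j h1 h2 => interp (fun J => XX g v (GV g W v) W J) (fun J J' h => XX_mono g v _ W J J' h) M hM0.le Jg I u u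
    hu hu (by linarith) hstep hJ1 hdev' j h1 h2
  constructor
  · have h1 := (hint J hJ0 (by omega)).1
    have h2 := (XX_bounds hg h (by linarith) hx.le J (by
      have h9 : W * J ≤ W * Jg I := Nat.mul_le_mul_left W (by omega)
      exact h9.trans hK)).2
    have h3 : (PiK g v (W * J) : ℝ) ≤ PiK g v T := by exact_mod_cast PiK_mono g v _ _ hJT
    have h4 : (1 - u) * (T / W) ≤ J := by
      rw [mul_div_assoc', div_le_iff₀ (by linarith)]
      nlinarith
    have h5 : (1 - 2 * u) / (1 + 2 * u) * ((1 - u) * (T / W) * M) ≤ ((1 + u) * x) ^ k * (PiK g v T : ℝ) := by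
      calc (1 - 2 * u) / (1 + 2 * u) * ((1 - u) * (T / W) * M) ≤ (1 - 2 * u) / (1 + 2 * u) * (J * M) :=
            mul_le_mul_of_nonneg_left (mul_le_mul_of_nonneg_right h4 hM0.le) (div_nonneg (by linarith) (by linarith))
        _ ≤ _ := h1
        _ ≤ _ := h2
        _ ≤ _ := mul_le_mul_of_nonneg_left h3 (by positivity)
    rw [hSZ]
    have hden : 0 < ((1 + u) * x) ^ k := by positivity
    have h6 : (1 - 2 * u) * (1 - u) / ((1 + 2 * u) * (1 + u) ^ k) * (M / W * T / x ^ k) =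
        ((1 - 2 * u) / (1 + 2 * u) * ((1 - u) * (T / W) * M)) / ((1 + u) * x) ^ k := by
      rw [mul_pow]; field_simp
    rw [h6, div_le_iff₀ hden]
    linarith
  · have h1 := (hint (J + 1) (by omega) hJI).2
    have h2 := (XX_bounds hg h (by linarith) hx.le (J + 1) (by
      have h9 : W * (J + 1) ≤ W * Jg I := Nat.mul_le_mul_left W hJI
      exact h9.trans hK)).1
    have h3 : (PiK g v T : ℝ) ≤ PiK g v (W * (J + 1)) := by exact_mod_cast PiK_mono g v _ _ hTJ.le
    have h4 : ((J + 1 : ℕ) : ℝ) ≤ (1 + u) * (T / W) := by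
      rw [mul_div_assoc', le_div_iff₀ (by linarith)]
      push_cast
      nlinarith
    have hden : 0 < ((1 - u) * x) ^ k := by
      rw [mul_pow]; positivity
    have h5 : ((1 - u) * x) ^ k * (PiK g v T : ℝ) ≤ (1 + 2 * u) * (1 + 2 * u) * ((1 + u) * (T / W) * M) := by
      calc ((1 - u) * x) ^ k * (PiK g v T : ℝ) ≤ ((1 - u) * x) ^ k * (PiK g v (W * (J + 1)) : ℝ) :=
            mul_le_mul_of_nonneg_left h3 hden.le
        _ ≤ _ := h2
        _ ≤ _ := h1
        _ ≤ _ := mul_le_mul_of_nonneg_left (mul_le_mul_of_nonneg_right h4 hM0.le) (by positivity)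
    rw [hSZ]
    have h6 : (1 + 2 * u) ^ 2 * (1 + u) / (1 - u) ^ k * (M / W * T / x ^ k) =
        ((1 + 2 * u) * (1 + 2 * u) * ((1 + u) * (T / W) * M)) / ((1 - u) * x) ^ k := by
      rw [mul_pow]; field_simp
    rw [h6, le_div_iff₀ hden]
    linarith

end Pool.Agent.H570.TH
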