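import Mathlib
import Pool.Agent.H570.TH.Cnt

/-! The truncated singular series as a product over primes. -/

set_option autoImplicit false

namespace Pool.Agent.H570.TH

open Finset Filter Topology Pool.Agent.H570.LQ

/-- number of residues `n` modulo `p` such that `p` divides one of the values at `n` -/
def nuG {k : ℕ} (g : Fin k → ℕ → ℕ) (v : Fin k → ℕ × ℕ) (p : ℕ) : ℕ :=
  ((range p).filter (fun n => ∃ i, p ∣ (v i).1 + n * (v i).2 + g i n)).card

/-- local factor of the singular series -/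
noncomputable def sf {k : ℕ} (g : Fin k → ℕ → ℕ) (v : Fin k → ℕ × ℕ) (p : ℕ) : ℝ :=
  (1 - (nuG g v p : ℝ) / p) / (1 - 1 / (p : ℝ)) ^ k

/-- truncated singular series, as a product over primes -/
noncomputable def SP {k : ℕ} (g : Fin k → ℕ → ℕ) (v : Fin k → ℕ × ℕ) (z : ℕ) : ℝ :=
  ∏ p ∈ (Icc 1 z).filter Nat.Prime, sf g v p

lemma crt_count (M p : ℕ) (hM : 1 ≤ M) (hp : 1 ≤ p) (hc : M.Coprime p) (A B : ℕ → Prop) [DecidablePred A] [DecidablePred B]
    (hA : ∀ r, A (r % M) ↔ A r) (hB : ∀ r, B (r % p) ↔ B r) :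
    ((range (M * p)).filter (fun r => A r ∧ B r)).card = ((range M).filter A).card * ((range p).filter B).card := by
  rw [← Finset.card_product]
  refine Finset.card_bij (fun r _ => (r % M, r % p)) ?_ ?_ ?_
  · intro r hr
    have h1 := Finset.mem_filter.1 hr
    exact Finset.mem_product.2 ⟨Finset.mem_filter.2 ⟨Finset.mem_range.2 (Nat.mod_lt _ hM), (hA r).2 h1.2.1⟩,
      Finset.mem_filter.2 ⟨Finset.mem_range.2 (Nat.mod_lt _ hp), (hB r).2 h1.2.2⟩⟩
  · intro r hr r' hr' h
    have h1 := Finset.mem_range.1 (Finset.mem_filter.1 hr).1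
    have h2 := Finset.mem_range.1 (Finset.mem_filter.1 hr').1
    simp only [Prod.mk.injEq] at h
    have h3 : r ≡ r' [MOD M] := h.1
    have h4 : r ≡ r' [MOD p] := h.2
    have h5 := (Nat.modEq_and_modEq_iff_modEq_mul hc).1 ⟨h3, h4⟩
    exact Nat.ModEq.eq_of_lt_of_lt h5 h1 h2
  · rintro ⟨a, b⟩ hab
    have h1 := Finset.mem_product.1 hab
    obtain ⟨ha1, ha2⟩ := Finset.mem_filter.1 h1.1
    obtain ⟨hb1, hb2⟩ := Finset.mem_filter.1 h1.2
    have ha3 : a < M := Finset.mem_range.1 ha1
    have hb3 : b < p := Finset.mem_range.1 hb1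
    obtain ⟨r, hr1, hr2⟩ := Nat.chineseRemainder hc a b
    have e1 : r % (M * p) % M = a := by
      rw [Nat.mod_mul_right_mod]
      exact (show r % M = a % M from hr1).trans (Nat.mod_eq_of_lt ha3)
    have e2 : r % (M * p) % p = b := by
      rw [Nat.mod_mul_left_mod]
      exact (show r % p = b % p from hr2).trans (Nat.mod_eq_of_lt hb3)
    refine ⟨r % (M * p), Finset.mem_filter.2 ⟨Finset.mem_range.2 (Nat.mod_lt _ (Nat.mul_pos hM hp)), ?_, ?_⟩, ?_⟩
    · rw [← hA, e1]; exact ha2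
    · rw [← hB, e2]; exact hb2
    · simp only [e1, e2]

/-- all values are coprime to `W` -/
def CopV {k : ℕ} (g : Fin k → ℕ → ℕ) (v : Fin k → ℕ × ℕ) (W r : ℕ) : Prop :=
  ∀ i, ((v i).1 + r * (v i).2 + g i r).Coprime W

lemma CopV_mod {k : ℕ} {g : Fin k → ℕ → ℕ} (hg : PolyLike g) (v : Fin k → ℕ × ℕ) (W r r' : ℕ) (h : r ≡ r' [MOD W]) :
    CopV g v W r ↔ CopV g v W r' := by
  unfold CopV
  refine forall_congr' fun i => ?_
  have h3 : (v i).1 + r * (v i).2 + g i r ≡ (v i).1 + r' * (v i).2 + g i r' [MOD W] :=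
    ((h.mul_right (v i).2).add_left (v i).1).add (g_modEq hg i _ _ _ h)
  show Nat.gcd _ _ = 1 ↔ Nat.gcd _ _ = 1
  rw [h3.gcd_eq]

open Classical in
lemma card_GV {k : ℕ} {g : Fin k → ℕ → ℕ} (hg : PolyLike g) (v : Fin k → ℕ × ℕ) (W : ℕ) :
    (GV g W v).card = ((range W).filter (CopV g v W)).card := by
  have hper : Function.Periodic (CopV g v W) W := by
    intro r
    refine propext (CopV_mod hg v W _ _ ?_)
    show (r + W) % W = r % W
    exact Nat.add_mod_right r W
  have h1 := Nat.filter_Ico_card_eq_of_periodic 1 W (CopV g v W) hper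
  rw [Nat.count_eq_card_filter_range] at h1
  rw [← h1]
  unfold GV
  have h2 : Icc 1 W = Ico 1 (1 + W) := by
    ext r; simp only [mem_Icc, mem_Ico]; omega
  rw [h2]
  congr 1
  refine Finset.filter_congr fun r _ => Iff.rfl

open Classical in
lemma card_prime {k : ℕ} (g : Fin k → ℕ → ℕ) (v : Fin k → ℕ × ℕ) (p : ℕ) (hp : p.Prime) :
    ((range p).filter (CopV g v p)).card = p - nuG g v p := by
  have h1 := Finset.card_filter_add_card_filter_not (s := range p) (fun n => ∃ i, p ∣ (v i).1 + n * (v i).2 + g i n)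
  rw [Finset.card_range] at h1
  have h2 : (range p).filter (CopV g v p) = (range p).filter (fun n => ¬ ∃ i, p ∣ (v i).1 + n * (v i).2 + g i n) := by
    refine Finset.filter_congr fun n _ => ?_
    unfold CopV
    push Not
    refine forall_congr' fun i => ?_
    rw [Nat.coprime_comm, Nat.Prime.coprime_iff_not_dvd hp]
  rw [h2]
  unfold nuG
  have h3 : ((range p).filter (fun n => ∃ i, p ∣ (v i).1 + n * (v i).2 + g i n)).card =
      ((range p).filter (fun n => ∃ i, p ∣ (v i).1 + n * (v i).2 + g i n)).card := rfl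
  have h4 : (filter (fun n => ∃ i, p ∣ (v i).1 + n * (v i).2 + g i n) (range p)).card +
      (filter (fun n => ¬ ∃ i, p ∣ (v i).1 + n * (v i).2 + g i n) (range p)).card = p := by
    convert h1
  have h5 : ((@filter ℕ (fun n => ∃ i, p ∣ (v i).1 + n * (v i).2 + g i n) (fun a => Fintype.decidableExistsFintype) (range p)).card) =
      (filter (fun n => ∃ i, p ∣ (v i).1 + n * (v i).2 + g i n) (range p)).card := by congr
  omega

lemma nuG_le {k : ℕ} (g : Fin k → ℕ → ℕ) (v : Fin k → ℕ × ℕ) (p : ℕ) : nuG g v p ≤ p := by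
  unfold nuG
  calc _ ≤ (range p).card := Finset.card_le_card (Finset.filter_subset _ _)
    _ = p := Finset.card_range p

lemma PW_succ_prime (z : ℕ) (h : (z + 1).Prime) : PW (z + 1) = PW z * (z + 1) := by
  unfold PW
  have h1 : (Icc 1 (z + 1)).filter Nat.Prime = insert (z + 1) ((Icc 1 z).filter Nat.Prime) := by
    ext p
    simp only [mem_filter, mem_Icc, mem_insert]
    constructor
    · rintro ⟨⟨a, b⟩, c⟩
      by_cases hp : p = z + 1
      · exact Or.inl hp
      · exact Or.inr ⟨⟨a, by omega⟩, c⟩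
    · rintro (rfl | ⟨⟨a, b⟩, c⟩)
      · exact ⟨⟨by omega, le_rfl⟩, h⟩
      · exact ⟨⟨a, by omega⟩, c⟩
  rw [h1, Finset.prod_insert (by simp), mul_comm]

lemma filter_succ_not (z : ℕ) (h : ¬ (z + 1).Prime) : (Icc 1 (z + 1)).filter Nat.Prime = (Icc 1 z).filter Nat.Prime := by
  ext p
  simp only [mem_filter, mem_Icc]
  constructor
  · rintro ⟨⟨a, b⟩, c⟩
    refine ⟨⟨a, ?_⟩, c⟩
    by_contra hb
    have : p = z + 1 := by omega
    rw [this] at c
    exact h c
  · rintro ⟨⟨a, b⟩, c⟩
    exact ⟨⟨a, by omega⟩, c⟩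

open Classical in
lemma card_all {k : ℕ} {g : Fin k → ℕ → ℕ} (hg : PolyLike g) (v : Fin k → ℕ × ℕ) (z : ℕ) :
    ((range (PW z)).filter (CopV g v (PW z))).card = ∏ p ∈ (Icc 1 z).filter Nat.Prime, (p - nuG g v p) := by
  induction z with
  | zero =>
    have h1 : PW 0 = 1 := by unfold PW; simp
    rw [h1]
    have h2 : (range 1).filter (CopV g v 1) = {0} := by
      ext r
      simp only [mem_filter, mem_range, mem_singleton]
      constructor
      · rintro ⟨a, _⟩; omega
      · rintro rfl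
        exact ⟨by omega, fun i => Nat.coprime_one_right _⟩
    rw [h2]; simp
  | succ z ih =>
    by_cases hz : (z + 1).Prime
    · rw [PW_succ_prime z hz]
      have hc : (PW z).Coprime (z + 1) := by
        rw [Nat.coprime_comm]
        refine coprime_PW z (z + 1) fun p hp hpz hd => ?_
        have := (Nat.prime_dvd_prime_iff_eq hp hz).1 hd
        omega
      have h1 : (range (PW z * (z + 1))).filter (CopV g v (PW z * (z + 1))) =
          (range (PW z * (z + 1))).filter (fun r => CopV g v (PW z) r ∧ CopV g v (z + 1) r) := by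
        refine Finset.filter_congr fun r _ => ?_
        unfold CopV
        rw [← forall_and]
        exact forall_congr' fun i => Nat.coprime_mul_iff_right
      rw [h1, crt_count (PW z) (z + 1) (PW_pos z) (by omega) hc (CopV g v (PW z)) (CopV g v (z + 1))
        (fun r => CopV_mod hg v _ _ _ (Nat.mod_modEq _ _)) (fun r => CopV_mod hg v _ _ _ (Nat.mod_modEq _ _)), ih,
        card_prime g v (z + 1) hz]
      have h2 : (Icc 1 (z + 1)).filter Nat.Prime = insert (z + 1) ((Icc 1 z).filter Nat.Prime) := by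
        ext p
        simp only [mem_filter, mem_Icc, mem_insert]
        constructor
        · rintro ⟨⟨a, b⟩, c⟩
          by_cases hp : p = z + 1
          · exact Or.inl hp
          · exact Or.inr ⟨⟨a, by omega⟩, c⟩
        · rintro (rfl | ⟨⟨a, b⟩, c⟩)
          · exact ⟨⟨by omega, le_rfl⟩, hz⟩
          · exact ⟨⟨a, by omega⟩, c⟩
      rw [h2, Finset.prod_insert (by simp), mul_comm]
    · have h1 : PW (z + 1) = PW z := by unfold PW; rw [filter_succ_not z hz]
      rw [h1, filter_succ_not z hz, ih]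

lemma primeFactors_PW (z : ℕ) : (PW z).primeFactors = (Icc 1 z).filter Nat.Prime :=
  Nat.primeFactors_prod fun p hp => (Finset.mem_filter.1 hp).2

lemma SZ_eq_SP {k : ℕ} {g : Fin k → ℕ → ℕ} (hg : PolyLike g) (v : Fin k → ℕ × ℕ) (z : ℕ) : SZ g v z = SP g v z := by
  classical
  unfold SZ SP
  rw [card_GV hg, card_all hg]
  have h1 : ww (PW z) = ∏ p ∈ (Icc 1 z).filter Nat.Prime, (1 - (p : ℝ)⁻¹)⁻¹ := by
    unfold ww
    rw [totient_ratio _ (PW_pos z), primeFactors_PW]
  rw [h1, ← Finset.prod_pow]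
  have h2 : ((PW z : ℕ) : ℝ) = ∏ p ∈ (Icc 1 z).filter Nat.Prime, (p : ℝ) := by
    unfold PW; push_cast; rfl
  rw [h2]
  push_cast
  rw [← Finset.prod_mul_distrib, ← Finset.prod_div_distrib]
  refine Finset.prod_congr rfl fun p hp => ?_
  have hp1 := (Finset.mem_filter.1 hp).2
  have hp2 : (2 : ℝ) ≤ p := by exact_mod_cast hp1.two_le
  rw [Nat.cast_sub (nuG_le g v p)]
  unfold sf
  have h3 : (0 : ℝ) < 1 - (p : ℝ)⁻¹ := by
    rw [sub_pos]; exact inv_lt_one_of_one_lt₀ (by linarith)
  have h4 : (1 : ℝ) - 1 / p = 1 - (p : ℝ)⁻¹ := by rw [one_div]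
  rw [h4, inv_pow]
  field_simp

end Pool.Agent.H570.TH
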