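import Mathlib
import Pool.Agent.H570.TH.Cnt

set_option autoImplicit false

namespace Pool.Agent.H570.TH

open Finset Filter Topology Pool.Agent.H570.LQ

lemma exists_u (k : ℕ) (ε : ℝ) (hε : 0 < ε) : ∃ u : ℝ, 0 < u ∧ u ≤ 1 / 4 ∧
    (1 + 2 * u) ^ 2 * (1 + u) / (1 - u) ^ k ≤ 1 + ε ∧ 1 - ε ≤ (1 - 2 * u) * (1 - u) / ((1 + 2 * u) * (1 + u) ^ k) := by
  have h1 : ContinuousAt (fun u : ℝ => (1 + 2 * u) ^ 2 * (1 + u) / (1 - u) ^ k) 0 := by
    refine ContinuousAt.div (by fun_prop) (by fun_prop) (by simp)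
  have h2 : ContinuousAt (fun u : ℝ => (1 - 2 * u) * (1 - u) / ((1 + 2 * u) * (1 + u) ^ k)) 0 := by
    refine ContinuousAt.div (by fun_prop) (by fun_prop) (by simp)
  have e1 : ∀ᶠ u in 𝓝 (0 : ℝ), (1 + 2 * u) ^ 2 * (1 + u) / (1 - u) ^ k < 1 + ε := by
    have := h1.tendsto
    simp only [mul_zero, add_zero, sub_zero, one_pow, mul_one, div_one] at this
    exact this.eventually (gt_mem_nhds (by linarith))
  have e2 : ∀ᶠ u in 𝓝 (0 : ℝ), 1 - ε < (1 - 2 * u) * (1 - u) / ((1 + 2 * u) * (1 + u) ^ k) := by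
    have := h2.tendsto
    simp only [mul_zero, add_zero, sub_zero, one_pow, mul_one, div_one] at this
    exact this.eventually (lt_mem_nhds (by linarith))
  obtain ⟨δ, hδ, hb⟩ := Metric.eventually_nhds_iff.1 (e1.and e2)
  have hm : 0 < min (δ / 2) (1 / 4) := by positivity
  refine ⟨min (δ / 2) (1 / 4), hm, min_le_right _ _, ?_, ?_⟩
  · refine (hb ?_).1.le
    rw [Real.dist_eq, sub_zero, abs_of_pos hm]
    have := min_le_left (δ / 2) (1 / 4); linarith
  · refine (hb ?_).2.le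
    rw [Real.dist_eq, sub_zero, abs_of_pos hm]
    have := min_le_left (δ / 2) (1 / 4); linarith

/-- few vectors with a proper prime power -/
lemma bad_pp {k : ℕ} (g : Fin k → ℕ → ℕ) (s t : Fin k → ℕ) (H K N : ℕ) (hH : 1 ≤ H) :
    (((Box s t H).filter (fun v => ∃ n ∈ Icc 1 K, ∃ i, (v i).1 + n * (v i).2 + g i n ∈ PPw N)).card : ℝ) ≤
      K * k * ((PPw N).card / H) * (H : ℝ) ^ (2 * k) := by
  classical
  have hHr : (1 : ℝ) ≤ H := by exact_mod_cast hH
  have h1 : (Box s t H).filter (fun v => ∃ n ∈ Icc 1 K, ∃ i, (v i).1 + n * (v i).2 + g i n ∈ PPw N) ⊆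
      (Icc 1 K ×ˢ (univ : Finset (Fin k))).biUnion
        (fun x => (Box s t H).filter (fun v => (v x.2).1 + x.1 * (v x.2).2 + g x.2 x.1 ∈ PPw N)) := by
    intro v hv
    have h2 := Finset.mem_filter.1 hv
    obtain ⟨q, hq, i, hi⟩ := h2.2
    exact Finset.mem_biUnion.2 ⟨(q, i), Finset.mem_product.2 ⟨hq, Finset.mem_univ i⟩, Finset.mem_filter.2 ⟨h2.1, hi⟩⟩
  calc _ ≤ ((((Icc 1 K ×ˢ (univ : Finset (Fin k))).biUnion
        (fun x => (Box s t H).filter (fun v => (v x.2).1 + x.1 * (v x.2).2 + g x.2 x.1 ∈ PPw N))).card : ℕ) : ℝ) := by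
          exact_mod_cast Finset.card_le_card h1
    _ ≤ ∑ x ∈ Icc 1 K ×ˢ (univ : Finset (Fin k)), ((PPw N).card / H : ℝ) * (H : ℝ) ^ (2 * k) := by
        calc _ ≤ ∑ x ∈ Icc 1 K ×ˢ (univ : Finset (Fin k)),
              (((Box s t H).filter (fun v => (v x.2).1 + x.1 * (v x.2).2 + g x.2 x.1 ∈ PPw N)).card : ℝ) := by
                exact_mod_cast Finset.card_biUnion_le
          _ ≤ _ := by
                refine Finset.sum_le_sum fun x hx => ?_
                refine card_coord s t H x.2 (fun y => y.1 + x.1 * y.2 + g x.2 x.1 ∈ PPw N) _ (by positivity) ?_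
                have h4 : ((Ioc (s x.2) (s x.2 + H) ×ˢ Ioc (t x.2) (t x.2 + H)).filter
                    (fun y => y.1 + x.1 * y.2 + g x.2 x.1 ∈ PPw N)).card ≤ (PPw N ×ˢ Ioc (t x.2) (t x.2 + H)).card := by
                  refine Finset.card_le_card_of_injOn (fun y => (y.1 + x.1 * y.2 + g x.2 x.1, y.2)) ?_ ?_
                  · intro y hy
                    have hy' := Finset.mem_filter.1 (Finset.mem_coe.1 hy)
                    exact Finset.mem_coe.2 (Finset.mem_product.2 ⟨hy'.2, (Finset.mem_product.1 hy'.1).2⟩)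
                  · rintro ⟨a, d⟩ _ ⟨a', d'⟩ _ h
                    simp only [Prod.mk.injEq] at h
                    obtain ⟨h2, h3⟩ := h
                    subst h3
                    simp only [Prod.mk.injEq, and_true]
                    omega
                rw [Finset.card_product, Nat.card_Ioc, Nat.add_sub_cancel_left] at h4
                have h5 : (((Ioc (s x.2) (s x.2 + H) ×ˢ Ioc (t x.2) (t x.2 + H)).filter
                    (fun y => y.1 + x.1 * y.2 + g x.2 x.1 ∈ PPw N)).card : ℝ) ≤ (((PPw N).card * H : ℕ) : ℝ) := by exact_mod_cast h4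
                refine h5.trans (le_of_eq ?_)
                push_cast; field_simp
    _ = _ := by
        rw [Finset.sum_const, Finset.card_product, Nat.card_Icc, Finset.card_univ, Fintype.card_fin, nsmul_eq_mul]
        push_cast
        ring

/-- few vectors with a small coordinate -/
lemma bad_small {k : ℕ} (s t : Fin k → ℕ) (H Z : ℕ) (hH : 1 ≤ H) :
    (((Box s t H).filter (fun v => ∃ i, (v i).1 ≤ Z)).card : ℝ) ≤ k * (Z / H) * (H : ℝ) ^ (2 * k) := by
  classical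
  have hHr : (1 : ℝ) ≤ H := by exact_mod_cast hH
  have h1 : (Box s t H).filter (fun v => ∃ i, (v i).1 ≤ Z) ⊆
      (univ : Finset (Fin k)).biUnion (fun i => (Box s t H).filter (fun v => (v i).1 ≤ Z)) := by
    intro v hv
    have h2 := Finset.mem_filter.1 hv
    obtain ⟨i, hi⟩ := h2.2
    exact Finset.mem_biUnion.2 ⟨i, Finset.mem_univ i, Finset.mem_filter.2 ⟨h2.1, hi⟩⟩
  calc _ ≤ ((((univ : Finset (Fin k)).biUnion (fun i => (Box s t H).filter (fun v => (v i).1 ≤ Z))).card : ℕ) : ℝ) := by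
          exact_mod_cast Finset.card_le_card h1
    _ ≤ ∑ i : Fin k, (((Box s t H).filter (fun v => (v i).1 ≤ Z)).card : ℝ) := by
          exact_mod_cast Finset.card_biUnion_le
    _ ≤ ∑ i : Fin k, (Z / H : ℝ) * (H : ℝ) ^ (2 * k) := by
          refine Finset.sum_le_sum fun i _ => ?_
          refine card_coord s t H i (fun y => y.1 ≤ Z) _ (by positivity) ?_
          have h4 : ((Ioc (s i) (s i + H) ×ˢ Ioc (t i) (t i + H)).filter (fun y => y.1 ≤ Z)).card ≤
              (Icc 1 Z ×ˢ Ioc (t i) (t i + H)).card := by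
            refine Finset.card_le_card fun y hy => ?_
            have hy' := Finset.mem_filter.1 hy
            have hy2 := Finset.mem_product.1 hy'.1
            have := mem_Ioc.1 hy2.1
            exact Finset.mem_product.2 ⟨mem_Icc.2 ⟨by omega, hy'.2⟩, hy2.2⟩
          rw [Finset.card_product, Nat.card_Ioc, Nat.add_sub_cancel_left, Nat.card_Icc, Nat.add_sub_cancel] at h4
          have h5 : (((Ioc (s i) (s i + H) ×ˢ Ioc (t i) (t i + H)).filter (fun y => y.1 ≤ Z)).card : ℝ) ≤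
              ((Z * H : ℕ) : ℝ) := by exact_mod_cast h4
          refine h5.trans (le_of_eq ?_)
          push_cast; field_simp
    _ = _ := by
        rw [Finset.sum_const, Finset.card_univ, Fintype.card_fin, nsmul_eq_mul]; ring

/-- the formula holds for all lengths between `lo` and `hi` -/
def Form {k : ℕ} (g : Fin k → ℕ → ℕ) (z : ℕ) (ε lo hi x : ℝ) (v : Fin k → ℕ × ℕ) : Prop :=
  ∀ T : ℕ, lo ≤ T → (T : ℝ) ≤ hi → |(PiK g v T : ℝ) - SZ g v z * T / x ^ k| ≤ ε * (SZ g v z * T / x ^ k)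

lemma abs_of_two (P S ε a b : ℝ) (hS : 0 ≤ S) (ha : 1 - ε ≤ a) (hb : b ≤ 1 + ε) (h1 : a * S ≤ P) (h2 : P ≤ b * S) :
    |P - S| ≤ ε * S := by
  have h3 := mul_le_mul_of_nonneg_right ha hS
  have h4 := mul_le_mul_of_nonneg_right hb hS
  rw [abs_le]
  constructor <;> linarith

lemma SZ_nonneg {k : ℕ} (g : Fin k → ℕ → ℕ) (v : Fin k → ℕ × ℕ) (z : ℕ) : 0 ≤ SZ g v z := by
  unfold SZ ww; positivity

/-- the sum of the variances is small -/
lemma total_le (k : ℕ) (C0 u ε lam x X0 : ℝ) (I K : ℕ) (z : ℕ) (B1 A m : ℕ) (hC0 : 1 ≤ C0) (hu : 0 < u) (hε : 0 < ε)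
    (hz : C0 / Real.sqrt z ≤ u ^ 2 * ε / 32) (hx : 1 ≤ x) (hX0 : X0 = lam * x ^ k)
    (hX1 : 1 ≤ X0) (hlam0 : 0 < lam) (hlam : 32 * 4 ^ k * (1 + 2 * Gam u) / (u ^ 2 * ε) ≤ lam)
    (hX3 : C0 * Gam u / Real.sqrt X0 ≤ u ^ 2 * ε / 32)
    (hK : (K : ℝ) ≤ x ^ B1) (hI : ((I : ℝ) + 1) ≤ x ^ (A + 1)) (hm : m = B1 * k + A + 3)
    (hxl : 16 * 4 ^ k * (16 / (u ^ 2 * ε)) ≤ x) :
    (C0 / Real.sqrt z + (2 * (2 * x)) ^ k / JJ X0 u I + 16 * K ^ k * ((1 + 1 / x ^ m) ^ (2 * k) - 1) +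
        ∑ i ∈ range I, (C0 / Real.sqrt (JJ X0 u i) + (2 * (2 * x)) ^ k * (2 / JJ X0 u i) +
          16 * K ^ k * ((1 + 1 / x ^ m) ^ (2 * k) - 1))) / u ^ 2 ≤ ε / 4 := by
  have hx0 : 0 < x := by linarith
  have hΓ := Gam_pos u hu
  have hxk : 0 < x ^ k := by positivity
  have e4 : (2 * (2 * x)) ^ k = 4 ^ k * x ^ k := by rw [← mul_assoc, mul_pow]; norm_num
  have hJI : X0 ≤ JJ X0 u I := by
    have h1 := JJ_ge X0 u I
    have h2 : X0 ≤ X0 * (1 + u) ^ I := le_mul_of_one_le_right (by linarith) (one_le_pow₀ (by linarith))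
    linarith
  have hX0p : 0 < X0 := by linarith
  have b1 : (2 * (2 * x)) ^ k / JJ X0 u I ≤ 4 ^ k / lam := by
    calc _ ≤ (2 * (2 * x)) ^ k / X0 := div_le_div_of_nonneg_left (by positivity) hX0p hJI
      _ = 4 ^ k / lam := by rw [e4, hX0]; field_simp
  have b2 : ∑ i ∈ range I, C0 / Real.sqrt (JJ X0 u i) ≤ u ^ 2 * ε / 32 := by
    have h1 := sum_JJ_sqrt X0 u hX1 hu I
    calc _ = C0 * ∑ i ∈ range I, 1 / Real.sqrt (JJ X0 u i) := by
          rw [Finset.mul_sum]; exact Finset.sum_congr rfl fun i _ => by ring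
      _ ≤ C0 * (Gam u / Real.sqrt X0) := mul_le_mul_of_nonneg_left h1 (by linarith)
      _ = C0 * Gam u / Real.sqrt X0 := by ring
      _ ≤ _ := hX3
  have b3 : ∑ i ∈ range I, (2 * (2 * x)) ^ k * (2 / JJ X0 u i) ≤ 4 ^ k * (2 * Gam u) / lam := by
    have h1 := sum_JJ_inv X0 u hX1 hu I
    calc _ = (2 * (2 * x)) ^ k * 2 * ∑ i ∈ range I, 1 / (JJ X0 u i : ℝ) := by
          rw [Finset.mul_sum]; exact Finset.sum_congr rfl fun i _ => by ring
      _ ≤ (2 * (2 * x)) ^ k * 2 * (Gam u / X0) := mul_le_mul_of_nonneg_left h1 (by positivity)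
      _ = _ := by rw [e4, hX0]; field_simp
  have b4 : 4 ^ k / lam + 4 ^ k * (2 * Gam u) / lam ≤ u ^ 2 * ε / 32 := by
    rw [← add_div, div_le_iff₀ hlam0]
    rw [div_le_iff₀ (by positivity)] at hlam
    calc 4 ^ k + 4 ^ k * (2 * Gam u) = (32 * 4 ^ k * (1 + 2 * Gam u)) / 32 := by ring
      _ ≤ (lam * (u ^ 2 * ε)) / 32 := div_le_div_of_nonneg_right hlam (by norm_num)
      _ = _ := by ring
  set σ := 16 * (K : ℝ) ^ k * ((1 + 1 / x ^ m) ^ (2 * k) - 1) with hσ
  have b5 : (I + 1) * σ ≤ u ^ 2 * ε / 16 := by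
    have h0 : (0 : ℝ) ≤ 1 / x ^ m := by positivity
    have h1 : 1 / x ^ m ≤ 1 := by rw [div_le_one (by positivity)]; exact one_le_pow₀ hx
    have h2 : (1 + 1 / x ^ m) ^ (2 * k) - 1 ≤ 4 ^ k * (1 / x ^ m) := by
      have h3 := one_add_pow_le (1 / x ^ m) h0 h1 (2 * k)
      have h4 : (2 : ℝ) ^ (2 * k) = 4 ^ k := by rw [pow_mul]; norm_num
      rw [h4] at h3
      nlinarith
    have h20 : 0 ≤ (1 + 1 / x ^ m) ^ (2 * k) - 1 := by
      have := one_le_pow₀ (show 1 ≤ 1 + 1 / x ^ m by linarith) (n := 2 * k)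
      linarith
    have h3 : (K : ℝ) ^ k ≤ x ^ (B1 * k) := by
      rw [pow_mul]; exact pow_le_pow_left₀ (Nat.cast_nonneg _) hK k
    have h4 : σ ≤ 16 * x ^ (B1 * k) * (4 ^ k * (1 / x ^ m)) := by
      rw [hσ]
      apply mul_le_mul (mul_le_mul_of_nonneg_left h3 (by norm_num)) h2 h20 (by positivity)
    have h5 : 0 ≤ 16 * x ^ (B1 * k) * (4 ^ k * (1 / x ^ m)) := by positivity
    calc (I + 1) * σ ≤ x ^ (A + 1) * (16 * x ^ (B1 * k) * (4 ^ k * (1 / x ^ m))) := by
          apply (mul_le_mul_of_nonneg_left h4 (by positivity)).trans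
          exact mul_le_mul_of_nonneg_right hI h5
      _ = 16 * 4 ^ k / x ^ 2 := by
          rw [hm]
          have : x ^ (B1 * k + A + 3) = x ^ (B1 * k) * x ^ (A + 1) * x ^ 2 := by ring
          rw [this]; field_simp
      _ ≤ 16 * 4 ^ k / x := by
          apply div_le_div_of_nonneg_left (by positivity) hx0
          nlinarith
      _ ≤ u ^ 2 * ε / 16 := by
          rw [div_le_iff₀ hx0]
          calc (16 : ℝ) * 4 ^ k = (u ^ 2 * ε / 16) * (16 * 4 ^ k * (16 / (u ^ 2 * ε))) := by field_simp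
            _ ≤ _ := mul_le_mul_of_nonneg_left hxl (by positivity)
  rw [div_le_iff₀ (by positivity), Finset.sum_add_distrib, Finset.sum_add_distrib, Finset.sum_const, Finset.card_range,
    nsmul_eq_mul]
  have h0 : 0 < u ^ 2 * ε := by positivity
  nlinarith

theorem main_trunc (k : ℕ) (hk : 1 ≤ k) (ε : ℝ) (hε : 0 < ε) : ∃ z0 : ℕ, ∀ z ≥ z0, ∃ C : ℝ, 0 < C ∧ ∀ A : ℕ,
    ∀ᶠ H : ℕ in atTop, ∀ (s t : Fin k → ℕ) (g : Fin k → ℕ → ℕ), PolyLike g →
    (∀ i, (s i : ℝ) ≤ H * Real.log H ^ A ∧ (t i : ℝ) ≤ H * Real.log H ^ A ∧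
      (g i ⌊Real.log H ^ (A + k + 1)⌋₊ : ℝ) ≤ H * Real.log H ^ A) →
    ∀ F : Finset (Fin k → ℕ × ℕ), (∀ v ∈ F, v ∈ Box s t H ∧
      ¬ Form g z ε (C * Real.log H ^ k) (Real.log H ^ A) (Real.log H) v) →
    (F.card : ℝ) ≤ ε * (H : ℝ) ^ (2 * k) := by
  classical
  obtain ⟨u, hu, hu1, hup, hlo⟩ := exists_u k ε hε
  obtain ⟨C0, hC0⟩ := exists_QFC k
  have hC01 : 1 ≤ C0 := hC0.1
  set κ : ℝ := u ^ 2 * ε / 32 with hκ
  have hκ0 : 0 < κ := by positivity
  obtain ⟨z0, hz0⟩ := exists_nat_ge ((C0 / κ) ^ 2 + 1)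
  have hz00 : (1 : ℝ) ≤ z0 := le_trans (by nlinarith [sq_nonneg (C0 / κ)]) hz0
  refine ⟨z0, fun z hz => ?_⟩
  have hzr : (z0 : ℝ) ≤ z := by exact_mod_cast hz
  have hz1 : 1 ≤ z := by
    have : (1 : ℝ) ≤ z := hz00.trans hzr
    exact_mod_cast this
  have hzC : C0 / Real.sqrt z ≤ u ^ 2 * ε / 32 := by
    have h1 : C0 / κ ≤ Real.sqrt z := by
      apply Real.le_sqrt_of_sq_le; linarith
    have h2 : 0 < Real.sqrt z := Real.sqrt_pos.2 (by linarith)
    rw [← hκ, div_le_iff₀ h2]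
    rw [div_le_iff₀ hκ0] at h1
    linarith
  set W := PW z with hWd
  have hW : 1 ≤ W := PW_pos z
  have hWr : (1 : ℝ) ≤ W := by exact_mod_cast hW
  have hΓ := Gam_pos u hu
  set lam : ℝ := 32 * 4 ^ k * (1 + 2 * Gam u) / (u ^ 2 * ε) + 1 / u + 1 with hlam
  have hlam1 : 1 ≤ lam := by
    have : 0 < 32 * 4 ^ k * (1 + 2 * Gam u) / (u ^ 2 * ε) := by positivity
    have : 0 < 1 / u := by positivity
    linarith
  have hlamu : 1 / u ≤ lam := by
    have : 0 < 32 * 4 ^ k * (1 + 2 * Gam u) / (u ^ 2 * ε) := by positivity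
    linarith
  have hlam2 : 32 * 4 ^ k * (1 + 2 * Gam u) / (u ^ 2 * ε) ≤ lam := by
    have : 0 < 1 / u := by positivity
    linarith
  refine ⟨W * (lam + 2) + W / u, by positivity, fun A => ?_⟩
  set B1 := A + k + 1 with hB1
  set m := B1 * k + A + 3 with hm
  filter_upwards [params k A B1 W m hW, NG_facts (A + B1 + 1) u hu,
    ev1 (max (max (max 8 (z + 3)) (W * (5 + lam))) (max (2 + 2 / u) (16 * 4 ^ k * (16 / (u ^ 2 * ε))))),
    ev1 (max ((C0 * Gam u / κ) ^ 2) (32 * k / (ε * u))), ev4 (A + 2 * B1 + 3) (ε / (32 * k)) (by positivity),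
    eventually_ge_atTop (max 3 (⌈32 * k * (z + 1) / ε⌉₊))] with H hpar hNf hx hx2 hsm hH3 s t g hg hst F hF
  obtain ⟨f1, f2, f3, f4⟩ := hNf
  set N := NG (A + B1 + 1) H with hN
  set x := Real.log H with hxd
  have hkr : (1 : ℝ) ≤ k := by exact_mod_cast hk
  have hx8 : 8 ≤ x := le_trans (le_trans (le_max_left _ _) (le_trans (le_max_left _ _) (le_max_left _ _))) hx
  have hxz : (z : ℝ) + 3 ≤ x := le_trans (le_trans (le_max_right _ _) (le_trans (le_max_left _ _) (le_max_left _ _))) hx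
  have hxW : W * (5 + lam) ≤ x := le_trans (le_trans (le_max_right _ _) (le_max_left _ _)) hx
  have hxu : 2 + 2 / u ≤ x := le_trans (le_trans (le_max_left _ _) (le_max_right _ _)) hx
  have hxl : 16 * 4 ^ k * (16 / (u ^ 2 * ε)) ≤ x := le_trans (le_trans (le_max_right _ _) (le_max_right _ _)) hx
  have hxC : (C0 * Gam u / κ) ^ 2 ≤ x := le_trans (le_max_left _ _) hx2
  have hxe : 32 * k / (ε * u) ≤ x := le_trans (le_max_right _ _) hx2
  have hx0 : 0 < x := by linarith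
  have hx1 : 1 ≤ x := by linarith
  have hxk1 : 1 ≤ x ^ k := one_le_pow₀ hx1
  have hH3' : 3 ≤ H := le_trans (le_max_left _ _) hH3
  have hHr : (3 : ℝ) ≤ H := by exact_mod_cast hH3'
  set X0 : ℝ := lam * x ^ k with hX0
  have hX01 : 1 ≤ X0 := by nlinarith
  have hX0u : 1 / u ≤ X0 := by nlinarith
  -- the grid
  obtain ⟨I, hI1, hI2, hI3⟩ := exists_I X0 u (x ^ A + 1) hX01 hu (by linarith) (by positivity)
  set K := W * JJ X0 u I with hK
  have hxA : 1 ≤ x ^ A := one_le_pow₀ hx1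
  have hKx : (K : ℝ) ≤ x ^ B1 := by
    rw [hK]; push_cast
    have hAk : x ^ A ≤ x ^ (A + k) := pow_le_pow_right₀ hx1 (by omega)
    have hkk : x ^ k ≤ x ^ (A + k) := pow_le_pow_right₀ hx1 (by omega)
    have h1k : 1 ≤ x ^ (A + k) := one_le_pow₀ hx1
    have h1 : (JJ X0 u I : ℝ) ≤ (5 + lam) * x ^ (A + k) := by
      have h2 : X0 ≤ lam * x ^ (A + k) := mul_le_mul_of_nonneg_left hkk (by linarith)
      calc (JJ X0 u I : ℝ) ≤ 2 * (x ^ A + 1) + X0 + 1 := hI2
        _ ≤ _ := by linarith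
    calc (W : ℝ) * JJ X0 u I ≤ W * ((5 + lam) * x ^ (A + k)) := mul_le_mul_of_nonneg_left h1 (by linarith)
      _ = (W * (5 + lam)) * x ^ (A + k) := by ring
      _ ≤ x * x ^ (A + k) := mul_le_mul_of_nonneg_right hxW (by positivity)
      _ = x ^ B1 := by rw [hB1]; ring
  have hJpos := JJ_pos X0 u hX01 hu
  have hK1 : 1 ≤ K := Nat.mul_pos hW (hJpos I)
  have hKfl : K ≤ ⌊x ^ (A + k + 1)⌋₊ := Nat.le_floor hKx
  obtain ⟨R, E, hyp⟩ := hpar K hK1 hKx s t g hg (fun i => ⟨(hst i).1, (hst i).2.1, by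
    refine le_trans ?_ (hst i).2.2
    exact_mod_cast (hg i K _ hKfl).1⟩)
  have hIx : (I : ℝ) + 1 ≤ x ^ (A + 1) := by
    have h1 : (I : ℝ) + 1 ≤ (2 + 2 / u) * x ^ A := by
      have h2 : (x ^ A + 1) / u ≤ 2 / u * x ^ A := by
        rw [div_mul_eq_mul_div]
        apply div_le_div_of_nonneg_right _ hu.le
        linarith
      have h3 : (2 + 2 / u) * x ^ A = 2 * x ^ A + 2 / u * x ^ A := by ring
      linarith
    calc _ ≤ (2 + 2 / u) * x ^ A := h1
      _ ≤ x * x ^ A := mul_le_mul_of_nonneg_right hxu (by positivity)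
      _ = x ^ (A + 1) := by ring
  have hXs : C0 * Gam u / Real.sqrt X0 ≤ u ^ 2 * ε / 32 := by
    have h1 : C0 * Gam u / κ ≤ Real.sqrt X0 := by
      apply Real.le_sqrt_of_sq_le
      refine hxC.trans ?_
      have h2 : x ≤ x ^ k := le_self_pow₀ hx1 (by omega)
      nlinarith
    have h2 : 0 < Real.sqrt X0 := Real.sqrt_pos.2 (by linarith)
    rw [← hκ, div_le_iff₀ h2]
    rw [div_le_iff₀ hκ0] at h1
    linarith
  have htot := total_le k C0 u ε lam x X0 I K z B1 A m hC01 hu hε hzC hx1 hX0 hX01 (by linarith) hlam2 hXs hKx hIx hm hxl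
  have hbox := box_all hC0 hyp z hz1 (fun p hp hpz => dvd_PW z p hp hpz) (JJ X0 u) I hJpos
    (fun i hi => JJ_mono X0 u hX01 hu i I (Finset.mem_range.1 hi).le) le_rfl u hu
  have hH2k : 0 ≤ (H : ℝ) ^ (2 * k) := by positivity
  have c1 : (((Box s t H).filter (Dev g W (JJ X0 u) I u)).card : ℝ) ≤ ε / 4 * (H : ℝ) ^ (2 * k) :=
    hbox.trans (mul_le_mul_of_nonneg_right htot hH2k)
  -- prime powers
  have c2 : (((Box s t H).filter (fun v => ∃ n ∈ Icc 1 K, ∃ i, (v i).1 + n * (v i).2 + g i n ∈ PPw N)).card : ℝ) ≤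
      ε / 4 * (H : ℝ) ^ (2 * k) := by
    refine (bad_pp g s t H K N (by omega)).trans (mul_le_mul_of_nonneg_right ?_ hH2k)
    have hN1 : 1 ≤ N := by omega
    have h1 := card_PPw N hN1
    have hs0 : 0 < Real.sqrt H := Real.sqrt_pos.2 (by linarith)
    have h2 : Real.sqrt N ≤ Real.sqrt H * x ^ (A + B1 + 1) := by
      apply Real.sqrt_le_iff.2
      refine ⟨by positivity, f2.trans ?_⟩
      rw [mul_pow, Real.sq_sqrt (by linarith)]
      have : 1 ≤ x ^ (A + B1 + 1) := one_le_pow₀ hx1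
      have h5 : x ^ (A + B1 + 1) ≤ (x ^ (A + B1 + 1)) ^ 2 := by nlinarith
      exact mul_le_mul_of_nonneg_left h5 (by linarith)
    have h3 : Real.log N ≤ 2 * x := by
      refine f3.trans ?_
      have : (1 + u) * x ≤ 2 * x := mul_le_mul_of_nonneg_right (by linarith) hx0.le
      exact this
    have hlogN : 0 ≤ Real.log N := Real.log_natCast_nonneg N
    have h4 : ((PPw N).card : ℝ) ≤ 4 * (Real.sqrt H * x ^ (A + B1 + 1)) * (2 * x) := by
      refine h1.trans ?_
      gcongr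
    calc (K : ℝ) * k * ((PPw N).card / H) ≤ x ^ B1 * k * ((4 * (Real.sqrt H * x ^ (A + B1 + 1)) * (2 * x)) / H) := by
          gcongr
      _ = 8 * k * x ^ (A + 2 * B1 + 2) * (Real.sqrt H / H) := by
          have : x ^ (A + 2 * B1 + 2) = x ^ B1 * x ^ (A + B1 + 1) * x := by ring
          rw [this]; ring
      _ ≤ 8 * k * (ε / (32 * k) * Real.sqrt H) * (Real.sqrt H / H) := by
          have h6 : x ^ (A + 2 * B1 + 2) ≤ ε / (32 * k) * Real.sqrt H :=
            (pow_le_pow_right₀ hx1 (by omega)).trans hsm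
          gcongr
      _ = ε / 4 := by
          have h7 : Real.sqrt H * Real.sqrt H = H := Real.mul_self_sqrt (by linarith)
          calc _ = ε / 4 * ((Real.sqrt H * Real.sqrt H) / H) := by field_simp; ring
            _ = _ := by rw [h7, div_self (by linarith), mul_one]
  -- small coordinates
  set Z : ℕ := z + ⌈(H : ℝ) / (1 + u * x)⌉₊ with hZ
  have c3 : (((Box s t H).filter (fun v => ∃ i, (v i).1 ≤ Z)).card : ℝ) ≤ ε / 4 * (H : ℝ) ^ (2 * k) := by
    refine (bad_small s t H Z (by omega)).trans (mul_le_mul_of_nonneg_right ?_ hH2k)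
    have h1 : (Z : ℝ) ≤ z + 1 + H / (1 + u * x) := by
      rw [hZ]; push_cast
      have := (Nat.ceil_lt_add_one (show 0 ≤ (H : ℝ) / (1 + u * x) by positivity)).le
      linarith
    have h2 : 32 * k * (z + 1) / ε ≤ H := (Nat.le_ceil _).trans (by exact_mod_cast le_trans (le_max_right _ _) hH3)
    have h3 : k * ((z + 1) / H : ℝ) ≤ ε / 32 := by
      rw [div_le_iff₀ hε] at h2
      rw [mul_div_assoc', div_le_div_iff₀ (by linarith) (by norm_num)]
      linarith
    have h4 : k * (1 / (1 + u * x)) ≤ ε / 32 := by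
      rw [div_le_iff₀ (by positivity)] at hxe
      rw [mul_div_assoc', mul_one, div_le_div_iff₀ (by positivity) (by norm_num)]
      have h5 : ε * (1 + u * x) = ε + x * (ε * u) := by ring
      rw [h5]
      linarith
    calc (k : ℝ) * (Z / H) ≤ k * ((z + 1 + H / (1 + u * x)) / H) := by gcongr
      _ = k * ((z + 1) / H : ℝ) + k * (1 / (1 + u * x)) := by field_simp
      _ ≤ ε / 4 := by linarith
  -- union
  have hsub : F ⊆ (Box s t H).filter (Dev g W (JJ X0 u) I u) ∪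
      ((Box s t H).filter (fun v => ∃ n ∈ Icc 1 K, ∃ i, (v i).1 + n * (v i).2 + g i n ∈ PPw N) ∪
        (Box s t H).filter (fun v => ∃ i, (v i).1 ≤ Z)) := by
    intro v hv
    obtain ⟨hvB, hvF⟩ := hF v hv
    by_contra hnot
    rw [Finset.mem_union, Finset.mem_union, not_or, not_or, Finset.mem_filter, Finset.mem_filter, Finset.mem_filter] at hnot
    obtain ⟨n1, n2, n3⟩ := hnot
    have m1 : ¬ Dev g W (JJ X0 u) I u v := fun h => n1 ⟨hvB, h⟩
    have m2 : ∀ n ∈ Icc 1 K, ∀ i, (v i).1 + n * (v i).2 + g i n ∉ PPw N := fun n hn i h => n2 ⟨hvB, n, hn, i, h⟩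
    have m3 : ∀ i, Z < (v i).1 := fun i => by
      by_contra h
      exact n3 ⟨hvB, i, by omega⟩
    have hnice : Nice g v K N z x u := by
      refine ⟨fun i => ?_, fun i => ?_, fun n hn hnK i => ?_, f3, fun n hn hnK i => m2 n (mem_Icc.2 ⟨hn, hnK⟩) i⟩
      · have := m3 i; omega
      · have h1 := m3 i
        have h2 : (H : ℝ) / (1 + u * x) ≤ (v i).1 := by
          have h3 : ⌈(H : ℝ) / (1 + u * x)⌉₊ ≤ (v i).1 := by omega
          exact (Nat.le_ceil _).trans (by exact_mod_cast h3)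
        have h4 : Real.log ((H : ℝ) / (1 + u * x)) ≤ Real.log (v i).1 := Real.log_le_log (by positivity) h2
        rw [Real.log_div (by linarith) (by positivity)] at h4
        have h5 : Real.log (1 + u * x) ≤ u * x := by
          have := Real.log_le_sub_one_of_pos (show 0 < 1 + u * x by positivity)
          linarith
        have h6 : (1 - u) * x = x - u * x := by ring
        rw [h6]
        linarith
      · have hbox : v i ∈ Ioc (s i) (s i + H) ×ˢ Ioc (t i) (t i + H) := by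
          unfold Box at hvB
          exact Fintype.mem_piFinset.1 hvB i
        have hb := Finset.mem_product.1 hbox
        have hb1 := mem_Ioc.1 hb.1
        have hb2 := mem_Ioc.1 hb.2
        have h2 := Nat.mul_le_mul hnK hb2.2
        have h3 := hyp.hN i
        have h4 := (hg i n K hnK).1
        omega
    refine hvF fun T hT0 hT1 => ?_
    have hT0' : (W : ℝ) * JJ X0 u 0 ≤ T := by
      have h1 := JJ_le X0 u hX01 hu 0
      rw [pow_zero, mul_one] at h1
      have h2 : (W : ℝ) * JJ X0 u 0 ≤ W * (X0 + 1) := mul_le_mul_of_nonneg_left h1 (by linarith)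
      refine h2.trans (le_trans ?_ hT0)
      have h3 : (W : ℝ) * (X0 + 1) ≤ W * (lam + 2) * x ^ k := by
        rw [hX0]
        have h31 : lam * x ^ k + 1 ≤ (lam + 2) * x ^ k := by
          have : (lam + 2) * x ^ k = lam * x ^ k + 2 * x ^ k := by ring
          linarith
        calc (W : ℝ) * (lam * x ^ k + 1) ≤ W * ((lam + 2) * x ^ k) := mul_le_mul_of_nonneg_left h31 (by linarith)
          _ = _ := by ring
      have h4 : 0 ≤ (W : ℝ) / u * x ^ k := by positivity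
      have h5 : (W * (lam + 2) + W / u) * x ^ k = W * (lam + 2) * x ^ k + (W : ℝ) / u * x ^ k := by ring
      rw [h5]
      linarith
    have hT2 : (W : ℝ) / u ≤ T := by
      refine le_trans ?_ hT0
      have h4 : (W : ℝ) / u ≤ (W : ℝ) / u * x ^ k := le_mul_of_one_le_right (by positivity) hxk1
      have h5 : 0 ≤ (W : ℝ) * (lam + 2) * x ^ k := by positivity
      have h6 : (W * (lam + 2) + W / u) * x ^ k = W * (lam + 2) * x ^ k + (W : ℝ) / u * x ^ k := by ring
      rw [h6]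
      linarith
    have hT3 : T < W * JJ X0 u I := by
      have h1 : (T : ℝ) < JJ X0 u I := by linarith
      have h2 : T < JJ X0 u I := by exact_mod_cast h1
      exact lt_of_lt_of_le h2 (Nat.le_mul_of_pos_left _ hW)
    obtain ⟨h1, h2⟩ := final_count hg hnice hu hu1 hx0 (JJ X0 u) I (JJ_step X0 u hX01 hu hX0u) hJpos m1 le_rfl T
      (by exact_mod_cast hT0') hT3 hT2
    exact abs_of_two _ _ ε _ _ (by have := SZ_nonneg g v z; positivity) hlo hup h1 h2
  have hu := (Finset.card_le_card hsub).trans ((Finset.card_union_le _ _).trans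
      (Nat.add_le_add_left (Finset.card_union_le _ _) _))
  have hu' : (F.card : ℝ) ≤ ((Box s t H).filter (Dev g W (JJ X0 u) I u)).card +
      (((Box s t H).filter (fun v => ∃ n ∈ Icc 1 K, ∃ i, (v i).1 + n * (v i).2 + g i n ∈ PPw N)).card +
        ((Box s t H).filter (fun v => ∃ i, (v i).1 ≤ Z)).card) := by exact_mod_cast hu
  have : 0 ≤ ε * (H : ℝ) ^ (2 * k) := by positivity
  linarith

end Pool.Agent.H570.TH
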