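import Mathlib
import Pool.Agent.H570.TH.SS2
import Pool.Agent.H570.LQ.Par

/-! Few vectors have an unusual singular series. -/

set_option autoImplicit false

namespace Pool.Agent.H570.TH

open Finset Filter Topology Pool.Agent.H570.LQ

open Classical in
/-- counting along one coordinate -/
lemma card_fib {k : ℕ} (s t : Fin k → ℕ) (H : ℕ) (i : Fin k) (Q : (Fin k → ℕ × ℕ) → Prop) (κ : ℝ)
    (h : ∀ w : Fin k → ℕ × ℕ, (((Ioc (s i) (s i + H) ×ˢ Ioc (t i) (t i + H)).filter
      (fun x => Q (Function.update w i x))).card : ℝ) ≤ κ * (H : ℝ) ^ 2) :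
    (((Box s t H).filter Q).card : ℝ) ≤ κ * (H : ℝ) ^ (2 * k) := by
  set φ : (Fin k → ℕ × ℕ) → (Fin k → ℕ × ℕ) := fun v => Function.update v i (0, 0) with hφ
  set T : Finset (Fin k → ℕ × ℕ) := Fintype.piFinset
    (fun j => if j = i then {((0, 0) : ℕ × ℕ)} else Ioc (s j) (s j + H) ×ˢ Ioc (t j) (t j + H)) with hT
  have h1 : ∀ v ∈ (Box s t H).filter Q, φ v ∈ T := by
    intro v hv
    have hv1 := (Finset.mem_filter.1 hv).1
    unfold Box at hv1
    rw [hT, Fintype.mem_piFinset]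
    intro j
    by_cases hj : j = i
    · subst hj
      rw [if_pos rfl, hφ]
      simp
    · rw [if_neg hj, hφ]
      simp only [Function.update_of_ne hj]
      exact Fintype.mem_piFinset.1 hv1 j
  rw [Finset.card_eq_sum_card_fiberwise h1]
  push_cast
  have h2 : ∀ w ∈ T, ((((Box s t H).filter Q).filter (fun v => φ v = w)).card : ℝ) ≤ κ * (H : ℝ) ^ 2 := by
    intro w _
    refine le_trans ?_ (h w)
    have h3 : (((Box s t H).filter Q).filter (fun v => φ v = w)).card ≤
        ((Ioc (s i) (s i + H) ×ˢ Ioc (t i) (t i + H)).filter (fun x => Q (Function.update w i x))).card := by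
      have hup : ∀ v : Fin k → ℕ × ℕ, φ v = w → Function.update w i (v i) = v := by
        intro v hv
        rw [← hv, hφ]
        simp
      refine Finset.card_le_card_of_injOn (fun v => v i) ?_ ?_
      · intro v hv
        obtain ⟨h4, h5⟩ := Finset.mem_filter.1 (Finset.mem_coe.1 hv)
        obtain ⟨h6, h7⟩ := Finset.mem_filter.1 h4
        unfold Box at h6
        refine Finset.mem_coe.2 (Finset.mem_filter.2 ⟨Fintype.mem_piFinset.1 h6 i, ?_⟩)
        show Q (Function.update w i (v i))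
        rw [hup v h5]; exact h7
      · intro v hv v' hv' hvv
        have h5 := (Finset.mem_filter.1 (Finset.mem_coe.1 hv)).2
        have h5' := (Finset.mem_filter.1 (Finset.mem_coe.1 hv')).2
        have h6 : v i = v' i := hvv
        rw [← hup v h5, ← hup v' h5', h6]
    exact_mod_cast h3
  have hcard : (T.card : ℝ) * (H : ℝ) ^ 2 = (H : ℝ) ^ (2 * k) := by
    rw [hT, Fintype.card_piFinset]
    push_cast
    have e1 : ∀ j : Fin k, (((if j = i then {((0, 0) : ℕ × ℕ)} else Ioc (s j) (s j + H) ×ˢ Ioc (t j) (t j + H)).card : ℕ) : ℝ) =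
        if j = i then 1 else (H : ℝ) ^ 2 := by
      intro j
      split_ifs
      · simp
      · rw [Finset.card_product, Nat.card_Ioc, Nat.card_Ioc, Nat.add_sub_cancel_left, Nat.add_sub_cancel_left]
        push_cast; ring
    rw [Finset.prod_congr rfl fun j _ => e1 j]
    rw [← Finset.mul_prod_erase univ _ (Finset.mem_univ i), if_pos rfl, one_mul]
    have e2 : ∏ x ∈ univ.erase i, (if x = i then (1 : ℝ) else (H : ℝ) ^ 2) = ∏ x ∈ univ.erase i, (H : ℝ) ^ 2 :=
      Finset.prod_congr rfl fun j hj => if_neg (Finset.ne_of_mem_erase hj)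
    rw [e2, Finset.prod_erase_mul univ (fun _ => (H : ℝ) ^ 2) (Finset.mem_univ i), Finset.prod_const, Finset.card_univ,
      Fintype.card_fin, ← pow_mul]
  calc _ ≤ ∑ w ∈ T, κ * (H : ℝ) ^ 2 := Finset.sum_le_sum h2
    _ = κ * (T.card * (H : ℝ) ^ 2) := by rw [Finset.sum_const, nsmul_eq_mul]; ring
    _ = _ := by rw [hcard]

/-- a union of conditions -/
lemma card_or {k : ℕ} {ι : Type*} [Fintype ι] (s t : Fin k → ℕ) (H : ℕ) (Q : ι → (Fin k → ℕ × ℕ) → Prop)
    [∀ i, DecidablePred (Q i)] [DecidablePred (fun v => ∃ i, Q i v)] (κ : ℝ)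
    (h : ∀ i, (((Box s t H).filter (Q i)).card : ℝ) ≤ κ * (H : ℝ) ^ (2 * k)) :
    (((Box s t H).filter (fun v => ∃ i, Q i v)).card : ℝ) ≤ Fintype.card ι * κ * (H : ℝ) ^ (2 * k) := by
  classical
  have h1 : (Box s t H).filter (fun v => ∃ i, Q i v) ⊆ (univ : Finset ι).biUnion (fun i => (Box s t H).filter (Q i)) := by
    intro v hv
    have h2 := Finset.mem_filter.1 hv
    obtain ⟨i, hi⟩ := h2.2
    exact Finset.mem_biUnion.2 ⟨i, Finset.mem_univ i, Finset.mem_filter.2 ⟨h2.1, hi⟩⟩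
  calc _ ≤ ((((univ : Finset ι).biUnion (fun i => (Box s t H).filter (Q i))).card : ℕ) : ℝ) := by
          exact_mod_cast Finset.card_le_card h1
    _ ≤ ∑ i : ι, (((Box s t H).filter (Q i)).card : ℝ) := by exact_mod_cast Finset.card_biUnion_le
    _ ≤ ∑ i : ι, κ * (H : ℝ) ^ (2 * k) := Finset.sum_le_sum fun i _ => h i
    _ = _ := by rw [Finset.sum_const, Finset.card_univ, nsmul_eq_mul]; ring

/-- multiples of `p` in an interval -/
lemma card_lin (s H p : ℕ) (hp : p.Prime) (c e : ℤ) (hc : ¬ (p : ℤ) ∣ c) :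
    (((Ioc s (s + H)).filter (fun a : ℕ => (p : ℤ) ∣ (a : ℤ) * c - e)).card : ℝ) ≤ H / p + 1 := by
  rcases ((Ioc s (s + H)).filter (fun a : ℕ => (p : ℤ) ∣ (a : ℤ) * c - e)).eq_empty_or_nonempty with h0 | ⟨a0, ha0⟩
  · rw [h0]; simp; positivity
  · refine le_trans ?_ (card_cls_le s H p a0 hp.pos)
    have h1 : (Ioc s (s + H)).filter (fun a : ℕ => (p : ℤ) ∣ (a : ℤ) * c - e) ⊆ cls s H p a0 := by
      intro a ha
      obtain ⟨h2, h3⟩ := Finset.mem_filter.1 ha
      refine Finset.mem_filter.2 ⟨h2, ?_⟩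
      have h4 := dvd_sub h3 (Finset.mem_filter.1 ha0).2
      have h5 : ((a : ℤ) * c - e) - (a0 * c - e) = (a - a0) * c := by ring
      rw [h5] at h4
      rcases (Nat.prime_iff_prime_int.1 hp).dvd_or_dvd h4 with h6 | h6
      · exact (Nat.modEq_iff_dvd.2 h6).symm
      · exact absurd h6 hc
    exact_mod_cast Finset.card_le_card h1

lemma card_mul (t H p : ℕ) (hp : p.Prime) : (((Ioc t (t + H)).filter (fun d : ℕ => p ∣ d)).card : ℝ) ≤ H / p + 1 := by
  have h1 := card_lin t H p hp 1 0 (by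
    intro h
    have := (Int.natCast_dvd_natCast (m := p) (n := 1)).1 (by exact_mod_cast h)
    exact hp.one_lt.ne' (Nat.dvd_one.1 this))
  refine le_trans (le_of_eq ?_) h1
  congr 2
  refine Finset.filter_congr fun a _ => ?_
  rw [mul_one, sub_zero]
  exact Int.natCast_dvd_natCast.symm

/-- `p` divides a determinant but not the leading coefficient of the second form -/
def Q2p {k : ℕ} (p : ℕ) (ij : Fin k × Fin k) (v : Fin k → ℕ × ℕ) : Prop := ij.1 ≠ ij.2 ∧ ¬ p ∣ (v ij.2).2 ∧
    (p : ℤ) ∣ ((v ij.1).1 : ℤ) * (v ij.2).2 - (v ij.2).1 * (v ij.1).2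

/-- a determinant vanishes -/
def Qd {k : ℕ} (ij : Fin k × Fin k) (v : Fin k → ℕ × ℕ) : Prop := ij.1 ≠ ij.2 ∧ 1 ≤ (v ij.2).2 ∧
      (v ij.1).1 * (v ij.2).2 = (v ij.2).1 * (v ij.1).2

open Classical in
lemma card_Ex {k : ℕ} (s t : Fin k → ℕ) (H p : ℕ) (hH : 1 ≤ H) (hp : p.Prime) :
    (((Box s t H).filter (fun v => Ex v p)).card : ℝ) ≤ 2 * (k : ℝ) ^ 2 * (1 / p + 1 / H) * (H : ℝ) ^ (2 * k) := by
  have hHr : (1 : ℝ) ≤ H := by exact_mod_cast hH
  have hpr : (0 : ℝ) < p := by exact_mod_cast hp.pos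
  set κ : ℝ := 1 / p + 1 / H with hκ
  have hκ0 : 0 < κ := by positivity
  have hκe : (H : ℝ) * (H / p + 1) = κ * H ^ 2 := by rw [hκ]; field_simp
  set Q1 : Fin k → (Fin k → ℕ × ℕ) → Prop := fun i v => p ∣ (v i).2 with hQ1
  have h1 : ∀ i, (((Box s t H).filter (Q1 i)).card : ℝ) ≤ κ * (H : ℝ) ^ (2 * k) := by
    intro i
    refine card_coord s t H i (fun y => p ∣ y.2) κ hκ0.le ?_
    have h2 : (Ioc (s i) (s i + H) ×ˢ Ioc (t i) (t i + H)).filter (fun y => p ∣ y.2) =
        Ioc (s i) (s i + H) ×ˢ ((Ioc (t i) (t i + H)).filter (fun d => p ∣ d)) := by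
      ext ⟨a, d⟩; simp only [mem_filter, mem_product]; tauto
    rw [h2, Finset.card_product, Nat.card_Ioc, Nat.add_sub_cancel_left]
    push_cast
    rw [← hκe]
    exact mul_le_mul_of_nonneg_left (card_mul (t i) H p hp) (by linarith)
  have h2 : ∀ ij, (((Box s t H).filter (Q2p p ij)).card : ℝ) ≤ κ * (H : ℝ) ^ (2 * k) := by
    rintro ⟨i, j⟩
    refine card_fib s t H i (Q2p p (i, j)) κ fun w => ?_
    by_cases hij : i ≠ j ∧ ¬ p ∣ (w j).2
    · have hu : ∀ x, Function.update w i x j = w j := fun x => Function.update_of_ne (Ne.symm hij.1) _ _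
      have h3 : ((Ioc (s i) (s i + H) ×ˢ Ioc (t i) (t i + H)).filter (fun x => Q2p p (i, j) (Function.update w i x))).card =
          ∑ d ∈ Ioc (t i) (t i + H), ((Ioc (s i) (s i + H)).filter
            (fun a : ℕ => (p : ℤ) ∣ (a : ℤ) * ((w j).2 : ℤ) - ((w j).1 * d : ℕ))).card := by
        simp only [Finset.card_filter]
        rw [Finset.sum_product_right]
        refine Finset.sum_congr rfl fun d _ => Finset.sum_congr rfl fun a _ => ?_
        unfold Q2p
        simp only [hu, Function.update_self]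
        push_cast
        congr 1
        exact propext ⟨fun h => h.2.2, fun h => ⟨hij.1, hij.2, h⟩⟩
      rw [h3]
      push_cast
      calc _ ≤ ∑ d ∈ Ioc (t i) (t i + H), ((H : ℝ) / p + 1) := by
            refine Finset.sum_le_sum fun d _ => ?_
            have := card_lin (s i) H p hp ((w j).2 : ℤ) ((w j).1 * d : ℕ) (by
              intro h; exact hij.2 (Int.natCast_dvd_natCast.1 h))
            push_cast at this
            exact this
        _ = _ := by
            rw [Finset.sum_const, Nat.card_Ioc, Nat.add_sub_cancel_left, nsmul_eq_mul, hκe]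
    · have h3 : (Ioc (s i) (s i + H) ×ˢ Ioc (t i) (t i + H)).filter (fun x => Q2p p (i, j) (Function.update w i x)) = ∅ := by
        rw [Finset.filter_eq_empty_iff]
        intro x _ hx
        unfold Q2p at hx
        simp only at hx
        refine hij ⟨hx.1, ?_⟩
        have := hx.2.1
        rwa [Function.update_of_ne (Ne.symm hx.1)] at this
      rw [h3, Finset.card_empty, Nat.cast_zero]
      positivity
  have hsub : (Box s t H).filter (fun v => Ex v p) ⊆ (Box s t H).filter (fun v => ∃ i, Q1 i v) ∪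
      (Box s t H).filter (fun v => ∃ ij, Q2p p ij v) := by
    intro v hv
    obtain ⟨hv1, hv2⟩ := Finset.mem_filter.1 hv
    by_cases h3 : ∃ i, Q1 i v
    · exact Finset.mem_union_left _ (Finset.mem_filter.2 ⟨hv1, h3⟩)
    · refine Finset.mem_union_right _ (Finset.mem_filter.2 ⟨hv1, ?_⟩)
      rcases hv2 with h4 | ⟨i, j, h4, h5⟩
      · exact absurd h4 h3
      · exact ⟨(i, j), h4, fun h6 => h3 ⟨j, h6⟩, h5⟩
  have h3 := card_or s t H Q1 κ h1
  have h4 := card_or s t H (Q2p p) κ h2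
  rw [Fintype.card_fin] at h3
  rw [Fintype.card_prod, Fintype.card_fin] at h4
  have h5 : (((Box s t H).filter (fun v => Ex v p)).card : ℝ) ≤
      (((Box s t H).filter (fun v => ∃ i, Q1 i v)).card : ℝ) + (((Box s t H).filter (fun v => ∃ ij, Q2p p ij v)).card : ℝ) := by
    exact_mod_cast (Finset.card_le_card hsub).trans (Finset.card_union_le _ _)
  refine h5.trans ((add_le_add h3 h4).trans ?_)
  push_cast
  have hk : (k : ℝ) ≤ (k : ℝ) ^ 2 := by
    rcases Nat.eq_zero_or_pos k with h6 | h6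
    · subst h6; simp
    · have : (1 : ℝ) ≤ k := by exact_mod_cast h6
      nlinarith
  have h7 : 0 ≤ κ * (H : ℝ) ^ (2 * k) := by positivity
  nlinarith

open Classical in
/-- degenerate pairs of forms -/
lemma card_deg {k : ℕ} (s t : Fin k → ℕ) (H : ℕ) (hH : 1 ≤ H) :
    (((Box s t H).filter (fun v => ∃ ij, Qd ij v)).card : ℝ) ≤ (k : ℝ) ^ 2 * (1 / H) * (H : ℝ) ^ (2 * k) := by
  have hHr : (1 : ℝ) ≤ H := by exact_mod_cast hH
  have h0 := card_or s t H Qd (1 / H) ?_
  · rw [Fintype.card_prod, Fintype.card_fin] at h0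
    push_cast at h0
    refine h0.trans (le_of_eq ?_)
    ring
  rintro ⟨i, j⟩
  refine card_fib s t H i (Qd (i, j)) (1 / H) fun w => ?_
  by_cases hij : i ≠ j ∧ 1 ≤ (w j).2
  · have hu : ∀ x, Function.update w i x j = w j := fun x => Function.update_of_ne (Ne.symm hij.1) _ _
    have h4 : ((Ioc (s i) (s i + H) ×ˢ Ioc (t i) (t i + H)).filter (fun x => Qd (i, j) (Function.update w i x))).card ≤
        (Ioc (t i) (t i + H)).card := by
      refine Finset.card_le_card_of_injOn (fun x => x.2) ?_ ?_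
      · intro x hx
        exact Finset.mem_coe.2 (Finset.mem_product.1 (Finset.mem_filter.1 (Finset.mem_coe.1 hx)).1).2
      · rintro ⟨a, d⟩ hx ⟨a', d'⟩ hx' hdd
        have h5 := (Finset.mem_filter.1 (Finset.mem_coe.1 hx)).2.2.2
        have h5' := (Finset.mem_filter.1 (Finset.mem_coe.1 hx')).2.2.2
        simp only [hu, Function.update_self] at h5 h5'
        have h6 : d = d' := hdd
        subst h6
        rw [← h5'] at h5
        have h7 : a = a' := Nat.eq_of_mul_eq_mul_right hij.2 h5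
        rw [h7]
    rw [Nat.card_Ioc, Nat.add_sub_cancel_left] at h4
    have h5 : (((Ioc (s i) (s i + H) ×ˢ Ioc (t i) (t i + H)).filter (fun x => Qd (i, j) (Function.update w i x))).card : ℝ) ≤ H := by
      exact_mod_cast h4
    refine h5.trans (le_of_eq ?_)
    field_simp
  · have h3 : (Ioc (s i) (s i + H) ×ˢ Ioc (t i) (t i + H)).filter (fun x => Qd (i, j) (Function.update w i x)) = ∅ := by
      rw [Finset.filter_eq_empty_iff]
      intro x _ hx
      refine hij ⟨hx.1, ?_⟩
      have := hx.2.1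
      rwa [Function.update_of_ne (Ne.symm hx.1)] at this
    rw [h3, Finset.card_empty, Nat.cast_zero]
    positivity

/-- pairs with a common prime factor above `z` -/
lemma card_common (s t H z Y : ℕ) (hH : 1 ≤ H) (hz : 1 ≤ z) (hs : s + H ≤ H * Y) (ht : t + H ≤ H * Y)
    [DecidablePred (fun x : ℕ × ℕ => ∃ p : ℕ, p.Prime ∧ z < p ∧ p ∣ x.1 ∧ p ∣ x.2)] :
    (((Ioc s (s + H) ×ˢ Ioc t (t + H)).filter (fun x : ℕ × ℕ => ∃ p : ℕ, p.Prime ∧ z < p ∧ p ∣ x.1 ∧ p ∣ x.2)).card : ℝ) ≤
      (4 / z + (Y : ℝ) ^ 2 / H) * (H : ℝ) ^ 2 := by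
  classical
  have hHr : (1 : ℝ) ≤ H := by exact_mod_cast hH
  have hzr : (1 : ℝ) ≤ z := by exact_mod_cast hz
  set S := (Ioc s (s + H) ×ˢ Ioc t (t + H)) with hS
  set A1 := (Ioc z H).biUnion (fun m => if m.Prime then S.filter (fun x => m ∣ x.1 ∧ m ∣ x.2) else ∅) with hA1
  set A2 := S.filter (fun x => ∃ p : ℕ, p.Prime ∧ H < p ∧ p ∣ x.1 ∧ p ∣ x.2) with hA2
  have hsub : S.filter (fun x : ℕ × ℕ => ∃ p : ℕ, p.Prime ∧ z < p ∧ p ∣ x.1 ∧ p ∣ x.2) ⊆ A1 ∪ A2 := by
    intro x hx
    obtain ⟨h1, p, hp, hzp, h2, h3⟩ := Finset.mem_filter.1 hx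
    by_cases hpH : p ≤ H
    · refine Finset.mem_union_left _ (Finset.mem_biUnion.2 ⟨p, mem_Ioc.2 ⟨hzp, hpH⟩, ?_⟩)
      rw [if_pos hp]
      exact Finset.mem_filter.2 ⟨h1, h2, h3⟩
    · exact Finset.mem_union_right _ (Finset.mem_filter.2 ⟨h1, p, hp, by omega, h2, h3⟩)
  have hc1 : (A1.card : ℝ) ≤ 4 / z * (H : ℝ) ^ 2 := by
    calc (A1.card : ℝ) ≤ ∑ m ∈ Ioc z H, (((if m.Prime then S.filter (fun x => m ∣ x.1 ∧ m ∣ x.2) else ∅).card : ℕ) : ℝ) := by
          exact_mod_cast Finset.card_biUnion_le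
      _ ≤ ∑ m ∈ Ioc z H, 4 * (H : ℝ) ^ 2 * ((m : ℝ) ^ 2)⁻¹ := by
          refine Finset.sum_le_sum fun m hm => ?_
          have hm1 := mem_Ioc.1 hm
          have hmr : (0 : ℝ) < m := by exact_mod_cast (by omega : 0 < m)
          have hmH : (m : ℝ) ≤ H := by exact_mod_cast hm1.2
          split_ifs with hmp
          · have h2 : S.filter (fun x => m ∣ x.1 ∧ m ∣ x.2) =
              ((Ioc s (s + H)).filter (fun a => m ∣ a)) ×ˢ ((Ioc t (t + H)).filter (fun a => m ∣ a)) := by
              ext ⟨a, d⟩; simp only [hS, mem_filter, mem_product]; tauto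
            rw [h2, Finset.card_product]
            push_cast
            have h3 : (H : ℝ) / m + 1 ≤ 2 * (H / m) := by
              have : 1 ≤ (H : ℝ) / m := by rw [one_le_div hmr]; exact hmH
              linarith
            have h4 := (card_mul s H m hmp).trans h3
            have h5 := (card_mul t H m hmp).trans h3
            calc _ ≤ (2 * (H / m : ℝ)) * (2 * (H / m)) := mul_le_mul h4 h5 (Nat.cast_nonneg _) (by positivity)
              _ = _ := by ring
          · simp; positivity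
      _ = 4 * (H : ℝ) ^ 2 * ∑ m ∈ Ioc z H, ((m : ℝ) ^ 2)⁻¹ := by rw [Finset.mul_sum]
      _ ≤ 4 * (H : ℝ) ^ 2 * (1 / z) := by
          refine mul_le_mul_of_nonneg_left ?_ (by positivity)
          by_cases hzH : z ≤ H
          · have h1 := sum_Ioc_inv_sq_le_sub (α := ℝ) (show z ≠ 0 by omega) hzH
            have : (0 : ℝ) ≤ (H : ℝ)⁻¹ := by positivity
            rw [one_div]; linarith
          · rw [Finset.Ioc_eq_empty (by omega)]; simp
      _ = _ := by ring
  have hc2 : (A2.card : ℝ) ≤ (H : ℝ) * Y * Y := by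
    have hex : ∀ x : ℕ × ℕ, ∃ p : ℕ, x ∈ A2 → p.Prime ∧ H < p ∧ p ∣ x.1 ∧ p ∣ x.2 := by
      intro x
      by_cases hx : x ∈ A2
      · obtain ⟨p, hp⟩ := (Finset.mem_filter.1 hx).2
        exact ⟨p, fun _ => hp⟩
      · exact ⟨0, fun h => absurd h hx⟩
    choose P hP using hex
    have h1 : A2.card ≤ (Ioc s (s + H) ×ˢ (range Y ×ˢ range Y)).card := by
      refine Finset.card_le_card_of_injOn (fun x => (x.1, (x.1 / P x, x.2 / P x))) ?_ ?_
      · intro x hx
        have hx' := Finset.mem_coe.1 hx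
        obtain ⟨hp, hH', hd1, hd2⟩ := hP x hx'
        have h2 := Finset.mem_product.1 (Finset.mem_filter.1 hx').1
        have h3 := mem_Ioc.1 h2.1
        have h4 := mem_Ioc.1 h2.2
        have h5 : ∀ y : ℕ, 0 < y → y ≤ H * Y → y / P x < Y := by
          intro y hy0 hy
          rw [Nat.div_lt_iff_lt_mul hp.pos]
          have hY : 0 < Y := by
            rcases Nat.eq_zero_or_pos Y with h6 | h6
            · subst h6; omega
            · exact h6
          calc y ≤ H * Y := hy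
            _ < P x * Y := Nat.mul_lt_mul_of_pos_right hH' hY
            _ = Y * P x := Nat.mul_comm _ _
        exact Finset.mem_coe.2 (Finset.mem_product.2 ⟨h2.1, Finset.mem_product.2
          ⟨Finset.mem_range.2 (h5 _ (by omega) (by omega)), Finset.mem_range.2 (h5 _ (by omega) (by omega))⟩⟩)
      · rintro x hx x' hx' hxx
        have hx1 := Finset.mem_coe.1 hx
        have hx2 := Finset.mem_coe.1 hx'
        obtain ⟨hp, hH', hd1, hd2⟩ := hP x hx1
        obtain ⟨hp', hH'', hd1', hd2'⟩ := hP x' hx2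
        simp only [Prod.mk.injEq] at hxx
        obtain ⟨e1, e2, e3⟩ := hxx
        have h2 := Finset.mem_product.1 (Finset.mem_filter.1 hx1).1
        have h3 := mem_Ioc.1 h2.1
        have f1 : x.1 / P x * P x = x.1 := Nat.div_mul_cancel hd1
        have f2 : x'.1 / P x' * P x' = x'.1 := Nat.div_mul_cancel hd1'
        have f3 : x.2 / P x * P x = x.2 := Nat.div_mul_cancel hd2
        have f4 : x'.2 / P x' * P x' = x'.2 := Nat.div_mul_cancel hd2'
        have f5 : 0 < x.1 / P x := Nat.pos_of_ne_zero (by intro h0; rw [h0, zero_mul] at f1; omega)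
        have f6 : P x = P x' := by
          have : x.1 / P x * P x = x.1 / P x * P x' := by rw [f1, e2, f2, e1]
          exact Nat.eq_of_mul_eq_mul_left f5 this
        refine Prod.ext e1 ?_
        rw [← f3, ← f4, e3, f6]
    rw [Finset.card_product, Finset.card_product, Finset.card_range, Nat.card_Ioc, Nat.add_sub_cancel_left] at h1
    calc (A2.card : ℝ) ≤ ((H * (Y * Y) : ℕ) : ℝ) := by exact_mod_cast h1
      _ = _ := by push_cast; ring
  have h1 : ((S.filter (fun x : ℕ × ℕ => ∃ p : ℕ, p.Prime ∧ z < p ∧ p ∣ x.1 ∧ p ∣ x.2)).card : ℝ) ≤ A1.card + A2.card := by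
    exact_mod_cast (Finset.card_le_card hsub).trans (Finset.card_union_le _ _)
  have h2 : (4 / z + (Y : ℝ) ^ 2 / H) * (H : ℝ) ^ 2 = 4 / z * (H : ℝ) ^ 2 + (H : ℝ) * Y * Y := by field_simp
  rw [h2]
  linarith

end Pool.Agent.H570.TH
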