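import Mathlib
import Pool.Agent.H570.TH.SS3
import Pool.Agent.H570.TH.Fin

/-! The formula with the full singular series. -/

set_option autoImplicit false

namespace Pool.Agent.H570.TH

open Finset Filter Topology Pool.Agent.H570.LQ

open Classical in
/-- the primes in `(z, P]` for which `v` is exceptional -/
noncomputable def FE {k : ℕ} (z P : ℕ) (v : Fin k → ℕ × ℕ) : Finset ℕ := (Ioc z P).filter (fun p => p.Prime ∧ Ex v p)

/-- a common prime factor above `z` -/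
def VBz {k : ℕ} (z : ℕ) (v : Fin k → ℕ × ℕ) : Prop := ∃ i, ∃ p : ℕ, p.Prime ∧ z < p ∧ p ∣ (v i).1 ∧ p ∣ (v i).2

/-- a zero determinant -/
def Dg {k : ℕ} (v : Fin k → ℕ × ℕ) : Prop := ∃ ij, Qd ij v

/-- many exceptional primes -/
def Mg {k : ℕ} (z P : ℕ) (η : ℝ) (v : Fin k → ℕ × ℕ) : Prop := η < ∑ p ∈ FE z P v, 1 / (p : ℝ)

lemma sum_inv_le (P : ℕ) (z : ℕ) : ∑ p ∈ Ioc z P, 1 / (p : ℝ) ≤ 1 + Real.log P := by
  have h1 := harmonic_le_one_add_log P
  refine le_trans ?_ h1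
  rw [harmonic_eq_sum_Icc]
  push_cast
  calc _ ≤ ∑ p ∈ Icc 1 P, 1 / (p : ℝ) := by
        refine Finset.sum_le_sum_of_subset_of_nonneg ?_ fun _ _ _ => by positivity
        intro p hp
        have := mem_Ioc.1 hp
        exact mem_Icc.2 ⟨by omega, this.2⟩
    _ = _ := Finset.sum_congr rfl fun p _ => by rw [one_div]

open Classical in
lemma card_Mg {k : ℕ} (s t : Fin k → ℕ) (H z P : ℕ) (η : ℝ) (hη : 0 < η) (hH : 1 ≤ H) (hz : 1 ≤ z) :
    (((Box s t H).filter (Mg z P η)).card : ℝ) ≤ 2 * (k : ℝ) ^ 2 / η * (1 / z + (1 + Real.log P) / H) * (H : ℝ) ^ (2 * k) := by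
  have hHr : (1 : ℝ) ≤ H := by exact_mod_cast hH
  have h1 : (((Box s t H).filter (Mg z P η)).card : ℝ) * η ≤ ∑ v ∈ Box s t H, ∑ p ∈ FE z P v, 1 / (p : ℝ) := by
    calc _ = ∑ v ∈ (Box s t H).filter (Mg z P η), η := by rw [Finset.sum_const, nsmul_eq_mul]
      _ ≤ ∑ v ∈ (Box s t H).filter (Mg z P η), ∑ p ∈ FE z P v, 1 / (p : ℝ) :=
          Finset.sum_le_sum fun v hv => (Finset.mem_filter.1 hv).2.le
      _ ≤ _ := Finset.sum_le_sum_of_subset_of_nonneg (Finset.filter_subset _ _) fun v _ _ =>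
          Finset.sum_nonneg fun p _ => by positivity
  have h2 : ∑ v ∈ Box s t H, ∑ p ∈ FE z P v, 1 / (p : ℝ) =
      ∑ p ∈ (Ioc z P).filter Nat.Prime, (((Box s t H).filter (fun v => Ex v p)).card : ℝ) * (1 / p) := by
    unfold FE
    have e1 : ∀ v : Fin k → ℕ × ℕ, ∑ p ∈ (Ioc z P).filter (fun p => p.Prime ∧ Ex v p), 1 / (p : ℝ) =
        ∑ p ∈ (Ioc z P).filter Nat.Prime, if Ex v p then 1 / (p : ℝ) else 0 := by
      intro v
      rw [← Finset.sum_filter, Finset.filter_filter]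
    simp only [e1]
    rw [Finset.sum_comm]
    refine Finset.sum_congr rfl fun p _ => ?_
    rw [← Finset.sum_filter, Finset.sum_const, nsmul_eq_mul]
  rw [h2] at h1
  have h3 : ∑ p ∈ (Ioc z P).filter Nat.Prime, (((Box s t H).filter (fun v => Ex v p)).card : ℝ) * (1 / p) ≤
      2 * (k : ℝ) ^ 2 * (1 / z + (1 + Real.log P) / H) * (H : ℝ) ^ (2 * k) := by
    calc _ ≤ ∑ p ∈ (Ioc z P).filter Nat.Prime,
          (2 * (k : ℝ) ^ 2 * (H : ℝ) ^ (2 * k)) * (((p : ℝ) ^ 2)⁻¹ + 1 / H * (1 / p)) := by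
          refine Finset.sum_le_sum fun p hp => ?_
          have hpp := (Finset.mem_filter.1 hp).2
          have := mul_le_mul_of_nonneg_right (card_Ex s t H p hH hpp) (show (0 : ℝ) ≤ 1 / p by positivity)
          refine this.trans (le_of_eq ?_)
          ring
      _ = (2 * (k : ℝ) ^ 2 * (H : ℝ) ^ (2 * k)) * (∑ p ∈ (Ioc z P).filter Nat.Prime, ((p : ℝ) ^ 2)⁻¹ +
          1 / H * ∑ p ∈ (Ioc z P).filter Nat.Prime, 1 / (p : ℝ)) := by
          rw [← Finset.mul_sum, Finset.sum_add_distrib, ← Finset.mul_sum]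
      _ ≤ (2 * (k : ℝ) ^ 2 * (H : ℝ) ^ (2 * k)) * (1 / z + 1 / H * (1 + Real.log P)) := by
          refine mul_le_mul_of_nonneg_left (add_le_add ?_ (mul_le_mul_of_nonneg_left ?_ (by positivity))) (by positivity)
          · calc _ ≤ ∑ p ∈ Ioc z P, ((p : ℝ) ^ 2)⁻¹ :=
                Finset.sum_le_sum_of_subset_of_nonneg (Finset.filter_subset _ _) fun _ _ _ => by positivity
              _ ≤ 1 / z := by
                by_cases hzP : z ≤ P
                · have h1 := sum_Ioc_inv_sq_le_sub (α := ℝ) (show z ≠ 0 by omega) hzP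
                  have : (0 : ℝ) ≤ (P : ℝ)⁻¹ := by positivity
                  rw [one_div]; linarith
                · rw [Finset.Ioc_eq_empty (by omega)]; simp
          · refine le_trans ?_ (sum_inv_le P z)
            exact Finset.sum_le_sum_of_subset_of_nonneg (Finset.filter_subset _ _) fun _ _ _ => by positivity
      _ = _ := by ring
  have h4 := h1.trans h3
  have h5 : (((Box s t H).filter (Mg z P η)).card : ℝ) ≤
      (2 * (k : ℝ) ^ 2 * (1 / z + (1 + Real.log P) / H) * (H : ℝ) ^ (2 * k)) / η := by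
    rw [le_div_iff₀ hη]; exact h4
  refine h5.trans (le_of_eq ?_)
  ring

open Classical in
lemma card_VBz {k : ℕ} (s t : Fin k → ℕ) (H z Y : ℕ) (hH : 1 ≤ H) (hz : 1 ≤ z) (hs : ∀ i, s i + H ≤ H * Y ∧ t i + H ≤ H * Y) :
    (((Box s t H).filter (VBz z)).card : ℝ) ≤ k * (4 / z + (Y : ℝ) ^ 2 / H) * (H : ℝ) ^ (2 * k) := by
  have h := card_or s t H (fun (i : Fin k) (v : Fin k → ℕ × ℕ) => ∃ p : ℕ, p.Prime ∧ z < p ∧ p ∣ (v i).1 ∧ p ∣ (v i).2)
    (4 / z + (Y : ℝ) ^ 2 / H) (fun i => card_coord s t H i (fun x : ℕ × ℕ => ∃ p : ℕ, p.Prime ∧ z < p ∧ p ∣ x.1 ∧ p ∣ x.2) _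
      (by positivity) (card_common (s i) (t i) H z Y hH hz (hs i).1 (hs i).2))
  rw [Fintype.card_fin] at h
  refine le_trans (le_of_eq ?_) h
  congr 2
  exact Finset.filter_congr fun v _ => Iff.rfl

lemma tail_box {k : ℕ} (s t : Fin k → ℕ) (H z Y : ℕ) (η : ℝ) (hz : 1 ≤ z)
    (hs : ∀ i, s i + H ≤ H * Y ∧ t i + H ≤ H * Y) (v : Fin k → ℕ × ℕ) (hv : v ∈ Box s t H) (h1 : ¬ VBz z v) (h2 : ¬ Dg v)
    (h3 : ¬ Mg z ((H * Y) ^ 2) η v) :
    ∃ S : ℝ, Tendsto (SP (g0 k) v) atTop (𝓝 S) ∧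
      |S - SP (g0 k) v z| ≤ (Real.exp (Ck k * (1 / z + η)) - 1) * SP (g0 k) v z := by
  classical
  have hb : ∀ i, 1 ≤ (v i).1 ∧ (v i).1 ≤ H * Y ∧ 1 ≤ (v i).2 ∧ (v i).2 ≤ H * Y := by
    intro i
    unfold Box at hv
    have h4 := Finset.mem_product.1 (Fintype.mem_piFinset.1 hv i)
    have h5 := mem_Ioc.1 h4.1
    have h6 := mem_Ioc.1 h4.2
    have := hs i
    omega
  refine tail v z ((H * Y) ^ 2) η hz (fun p hp hzp ⟨i, hi⟩ => h1 ⟨i, p, hp, hzp, hi.1, hi.2⟩) ?_ (FE z ((H * Y) ^ 2) v)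
    (fun p hp hzp hpP hE => Finset.mem_filter.2 ⟨mem_Ioc.2 ⟨hzp, hpP⟩, hp, hE⟩) ?_
  · intro p hp hpP hE
    rcases hE with ⟨i, hi⟩ | ⟨i, j, hij, hd⟩
    · have h4 := hb i
      have h5 := Nat.le_of_dvd (by omega) hi
      have h6 : H * Y ≤ (H * Y) ^ 2 := Nat.le_self_pow (by norm_num) _
      omega
    · have hi := hb i
      have hj := hb j
      have h4 : ((v i).1 : ℤ) * (v j).2 - (v j).1 * (v i).2 ≠ 0 := by
        intro h0
        refine h2 ⟨(i, j), hij, hj.2.2.1, ?_⟩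
        have : ((v i).1 : ℤ) * (v j).2 = (v j).1 * (v i).2 := by linarith
        exact_mod_cast this
      have h5 : |((v i).1 : ℤ) * (v j).2 - (v j).1 * (v i).2| < p := by
        have e1 : ((v i).1 : ℤ) * (v j).2 ≤ ((H * Y : ℕ) : ℤ) ^ 2 := by
          have : (v i).1 * (v j).2 ≤ (H * Y) ^ 2 := by
            rw [sq]; exact Nat.mul_le_mul hi.2.1 hj.2.2.2
          exact_mod_cast this
        have e2 : ((v j).1 : ℤ) * (v i).2 ≤ ((H * Y : ℕ) : ℤ) ^ 2 := by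
          have : (v j).1 * (v i).2 ≤ (H * Y) ^ 2 := by
            rw [sq]; exact Nat.mul_le_mul hj.2.1 hi.2.2.2
          exact_mod_cast this
        have e3 : 0 ≤ ((v i).1 : ℤ) * (v j).2 := by positivity
        have e4 : 0 ≤ ((v j).1 : ℤ) * (v i).2 := by positivity
        have e5 : (((H * Y : ℕ) : ℤ)) ^ 2 < p := by exact_mod_cast hpP
        rw [abs_lt]
        constructor <;> linarith
      exact h4 (Int.eq_zero_of_abs_lt_dvd hd h5)
  · unfold Mg at h3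
    push Not at h3
    exact h3

/-- the formula, with the full singular series, for all lengths between `lo` and `hi` -/
def FormS {k : ℕ} (ε lo hi x : ℝ) (v : Fin k → ℕ × ℕ) : Prop :=
  ∃ S : ℝ, Tendsto (SP (g0 k) v) atTop (𝓝 S) ∧
    ∀ T : ℕ, lo ≤ T → (T : ℝ) ≤ hi → |(PiK (g0 k) v T : ℝ) - S * T / x ^ k| ≤ ε * (S * T / x ^ k)

theorem main_full (k : ℕ) (hk : 1 ≤ k) (ε : ℝ) (hε : 0 < ε) : ∃ C : ℝ, 0 < C ∧ ∀ A : ℕ,
    ∀ᶠ H : ℕ in atTop, ∀ (s t : Fin k → ℕ),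
    (∀ i, (s i : ℝ) ≤ H * Real.log H ^ A ∧ (t i : ℝ) ≤ H * Real.log H ^ A) →
    ∀ F : Finset (Fin k → ℕ × ℕ), (∀ v ∈ F, v ∈ Box s t H ∧
      ¬ FormS ε (C * Real.log H ^ k) (Real.log H ^ A) (Real.log H) v) →
    (F.card : ℝ) ≤ ε * (H : ℝ) ^ (2 * k) := by
  classical
  set ε' : ℝ := min ε 1 / 8 with hε'
  have hε'0 : 0 < ε' := by positivity
  have hε'1 : ε' ≤ 1 / 8 := by have := min_le_right ε 1; linarith
  have hε'2 : ε' ≤ ε / 8 := by have := min_le_left ε 1; linarith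
  obtain ⟨z0, hz0⟩ := main_trunc k hk ε' hε'0
  have hCk := Ck_pos k
  set η : ℝ := Real.log (1 + ε') / (2 * Ck k) with hη
  have hη0 : 0 < η := div_pos (Real.log_pos (by linarith)) (by positivity)
  have hkr : (1 : ℝ) ≤ k := by exact_mod_cast hk
  obtain ⟨z1, hz1⟩ := exists_nat_ge (1 / η + 8 * (4 * k + 2 * k ^ 2 / η) / ε + 1)
  set z := max z0 z1 with hz
  have hzr : 1 / η + 8 * (4 * k + 2 * k ^ 2 / η) / ε + 1 ≤ z := hz1.trans (by exact_mod_cast le_max_right _ _)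
  have hp1 : 0 < 1 / η := by positivity
  have hp2 : 0 < 8 * (4 * k + 2 * (k : ℝ) ^ 2 / η) / ε := by positivity
  have hz1' : (1 : ℝ) ≤ z := by linarith
  have hz1n : 1 ≤ z := by exact_mod_cast hz1'
  have hzη : 1 / (z : ℝ) ≤ η := by
    rw [one_div_le (by linarith) hη0]; linarith
  have hexp : Real.exp (Ck k * (1 / z + η)) - 1 ≤ ε' := by
    have h1 : Ck k * (1 / z + η) ≤ Real.log (1 + ε') := by
      calc Ck k * (1 / z + η) ≤ Ck k * (η + η) := mul_le_mul_of_nonneg_left (by linarith) hCk.le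
        _ = Real.log (1 + ε') := by rw [hη]; field_simp; ring
    have h2 := Real.exp_le_exp.2 h1
    rw [Real.exp_log (by linarith)] at h2
    linarith
  have hzε : k * (4 / (z : ℝ)) + 2 * (k : ℝ) ^ 2 / η * (1 / z) ≤ ε / 8 := by
    have h1 : 8 * (4 * k + 2 * (k : ℝ) ^ 2 / η) / ε ≤ z := by linarith
    rw [div_le_iff₀ hε] at h1
    have h2 : k * (4 / (z : ℝ)) + 2 * (k : ℝ) ^ 2 / η * (1 / z) = (4 * k + 2 * (k : ℝ) ^ 2 / η) / z := by ring
    rw [h2, div_le_iff₀ (by linarith)]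
    linarith
  obtain ⟨C, hC0, hC⟩ := hz0 z (le_max_left _ _)
  refine ⟨C, hC0, fun A => ?_⟩
  set c : ℝ := ε / (8 * (k + k ^ 2 + 2 * k ^ 2 / η)) with hc
  have hc0 : 0 < c := by positivity
  filter_upwards [hC A, ev1 (max 3 (2 * A + 5)), ev4 (2 * A + 2) c hc0, eventually_ge_atTop 3] with H hmain hx hsm hH3 s t hst F hF
  set x := Real.log H with hxd
  have hx3 : 3 ≤ x := le_trans (le_max_left _ _) hx
  have hxA : 2 * (A : ℝ) + 5 ≤ x := le_trans (le_max_right _ _) hx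
  have hHr : (3 : ℝ) ≤ H := by exact_mod_cast hH3
  have hH1 : 1 ≤ H := by omega
  have hlogH : 0 < x := by linarith
  have hH2k : 0 < (H : ℝ) ^ (2 * k) := by positivity
  set Y : ℕ := ⌈x ^ A⌉₊ + 1 with hY
  have hxA1 : 1 ≤ x ^ A := one_le_pow₀ (by linarith)
  have hYr : (Y : ℝ) ≤ x ^ (A + 1) := by
    rw [hY]; push_cast
    have := (Nat.ceil_lt_add_one (show 0 ≤ x ^ A by linarith)).le
    rw [pow_succ]
    nlinarith
  have hYl : x ^ A + 1 ≤ Y := by
    rw [hY]; push_cast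
    have := Nat.le_ceil (x ^ A)
    linarith
  have hst' : ∀ i, s i + H ≤ H * Y ∧ t i + H ≤ H * Y := by
    intro i
    have h0 : (H : ℝ) * (x ^ A + 1) ≤ H * Y := mul_le_mul_of_nonneg_left hYl (by linarith)
    constructor
    · have h1 := (hst i).1
      have h2 : (s i : ℝ) + H ≤ H * Y := by linarith
      exact_mod_cast h2
    · have h1 := (hst i).2
      have h2 : (t i : ℝ) + H ≤ H * Y := by linarith
      exact_mod_cast h2
  have hY0 : (1 : ℝ) ≤ Y := by linarith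
  have hlogP : Real.log (((H * Y) ^ 2 : ℕ) : ℝ) ≤ (2 * A + 4) * x := by
    push_cast
    rw [Real.log_pow, Real.log_mul (by linarith) (by linarith)]
    have h1 : Real.log Y ≤ (A + 1 : ℕ) * Real.log x := by
      rw [← Real.log_pow]; exact Real.log_le_log (by linarith) hYr
    have h2 : Real.log x ≤ x := (Real.log_le_sub_one_of_pos hlogH).trans (by linarith)
    have h3 : ((A + 1 : ℕ) : ℝ) * Real.log x ≤ ((A + 1 : ℕ) : ℝ) * x := mul_le_mul_of_nonneg_left h2 (Nat.cast_nonneg _)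
    push_cast at h1 h3 ⊢
    linarith
  have hlogP2 : 1 + Real.log (((H * Y) ^ 2 : ℕ) : ℝ) ≤ x ^ (2 * A + 2) := by
    have h1 : 1 + (2 * (A : ℝ) + 4) * x ≤ x ^ 2 := by nlinarith
    have h2 : x ^ 2 ≤ x ^ (2 * A + 2) := pow_le_pow_right₀ (by linarith) (by omega)
    linarith
  have hY2 : (Y : ℝ) ^ 2 ≤ x ^ (2 * A + 2) := by
    calc (Y : ℝ) ^ 2 ≤ (x ^ (A + 1)) ^ 2 := pow_le_pow_left₀ (by linarith) hYr 2
      _ = x ^ (2 * A + 2) := by rw [← pow_mul]; congr 1; ring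
  have hxH : x ^ (2 * A + 2) / H ≤ c := by
    rw [div_le_iff₀ (by linarith)]
    refine hsm.trans (mul_le_mul_of_nonneg_left ?_ hc0.le)
    have h1 : 1 ≤ Real.sqrt H := by rw [Real.one_le_sqrt]; linarith
    have h2 := Real.mul_self_sqrt (show (0 : ℝ) ≤ H by linarith)
    nlinarith
  -- the bad sets
  have b1 := card_VBz s t H z Y hH1 hz1n hst'
  have b2 := card_deg s t H hH1
  have b3 := card_Mg s t H z ((H * Y) ^ 2) η hη0 hH1 hz1n
  have hX1 : 1 ≤ x ^ (2 * A + 2) := one_le_pow₀ (by linarith)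
  have btot : k * (4 / (z : ℝ) + (Y : ℝ) ^ 2 / H) + (k : ℝ) ^ 2 * (1 / H) +
      2 * (k : ℝ) ^ 2 / η * (1 / z + (1 + Real.log (((H * Y) ^ 2 : ℕ) : ℝ)) / H) ≤ ε / 4 := by
    have e1 : (Y : ℝ) ^ 2 / H ≤ c := (div_le_div_of_nonneg_right hY2 (by linarith)).trans hxH
    have e2 : 1 / (H : ℝ) ≤ c := (div_le_div_of_nonneg_right hX1 (by linarith)).trans hxH
    have e3 : (1 + Real.log (((H * Y) ^ 2 : ℕ) : ℝ)) / H ≤ c := (div_le_div_of_nonneg_right hlogP2 (by linarith)).trans hxH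
    have hcc : (k + (k : ℝ) ^ 2 + 2 * (k : ℝ) ^ 2 / η) * c = ε / 8 := by rw [hc]; field_simp
    calc _ = (k * (4 / (z : ℝ)) + 2 * (k : ℝ) ^ 2 / η * (1 / z)) + (k * ((Y : ℝ) ^ 2 / H) + (k : ℝ) ^ 2 * (1 / H) +
          2 * (k : ℝ) ^ 2 / η * ((1 + Real.log (((H * Y) ^ 2 : ℕ) : ℝ)) / H)) := by ring
      _ ≤ ε / 8 + (k * c + (k : ℝ) ^ 2 * c + 2 * (k : ℝ) ^ 2 / η * c) := by gcongr
      _ = ε / 8 + (k + (k : ℝ) ^ 2 + 2 * (k : ℝ) ^ 2 / η) * c := by ring
      _ = ε / 4 := by rw [hcc]; ring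
  -- the good set
  set G := F.filter (fun v => ¬ VBz z v ∧ ¬ Dg v ∧ ¬ Mg z ((H * Y) ^ 2) η v) with hG
  have hGc : (G.card : ℝ) ≤ ε' * (H : ℝ) ^ (2 * k) := by
    refine hmain s t (g0 k) (g0_poly k) (fun i => ⟨(hst i).1, (hst i).2, ?_⟩) G fun v hv => ?_
    · unfold g0; push_cast; positivity
    · obtain ⟨hvF, h1, h2, h3⟩ := Finset.mem_filter.1 hv
      obtain ⟨hvB, hvn⟩ := hF v hvF
      refine ⟨hvB, fun hform => hvn ?_⟩
      obtain ⟨S, hS1, hS2⟩ := tail_box s t H z Y η hz1n hst' v hvB h1 h2 h3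
      refine ⟨S, hS1, fun T hT0 hT1 => ?_⟩
      have h4 := hform T hT0 hT1
      rw [SZ_eq_SP (g0_poly k)] at h4
      have hSP0 : 0 ≤ SP (g0 k) v z := by rw [← SZ_eq_SP (g0_poly k)]; exact SZ_nonneg _ _ _
      set Sz := SP (g0 k) v z with hSz
      have h5 : |S - Sz| ≤ ε' * Sz := hS2.trans (mul_le_mul_of_nonneg_right hexp hSP0)
      set U : ℝ := (T : ℝ) / x ^ k with hU
      have hU0 : 0 ≤ U := by positivity
      have e1 : Sz * T / x ^ k = Sz * U := by rw [hU]; ring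
      have e2 : S * T / x ^ k = S * U := by rw [hU]; ring
      rw [e1] at h4
      rw [e2]
      have h6 : |(PiK (g0 k) v T : ℝ) - S * U| ≤ 2 * ε' * (Sz * U) := by
        have h7 : |Sz * U - S * U| ≤ ε' * (Sz * U) := by
          rw [← sub_mul, abs_mul, abs_of_nonneg hU0, abs_sub_comm]
          calc |S - Sz| * U ≤ (ε' * Sz) * U := mul_le_mul_of_nonneg_right h5 hU0
            _ = _ := by ring
        have h8 := abs_sub_le (PiK (g0 k) v T : ℝ) (Sz * U) (S * U)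
        linarith
      have h7 : Sz ≤ 2 * S := by
        have := (abs_le.1 h5).1
        nlinarith
      have h8 : Sz * U ≤ 2 * (S * U) := by
        have := mul_le_mul_of_nonneg_right h7 hU0
        linarith
      have h9 : 0 ≤ Sz * U := mul_nonneg hSP0 hU0
      have h10 : 0 ≤ S * U := by linarith
      calc _ ≤ 2 * ε' * (Sz * U) := h6
        _ ≤ 2 * ε' * (2 * (S * U)) := mul_le_mul_of_nonneg_left h8 (by positivity)
        _ = (4 * ε') * (S * U) := by ring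
        _ ≤ ε * (S * U) := mul_le_mul_of_nonneg_right (by linarith) h10
  have hsub : F ⊆ G ∪ ((Box s t H).filter (VBz z) ∪ ((Box s t H).filter (fun v => ∃ ij, Qd ij v) ∪
      (Box s t H).filter (Mg z ((H * Y) ^ 2) η))) := by
    intro v hv
    have hvB := (hF v hv).1
    by_cases h1 : VBz z v
    · exact Finset.mem_union_right _ (Finset.mem_union_left _ (Finset.mem_filter.2 ⟨hvB, h1⟩))
    by_cases h2 : Dg v
    · exact Finset.mem_union_right _ (Finset.mem_union_right _ (Finset.mem_union_left _ (Finset.mem_filter.2 ⟨hvB, h2⟩)))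
    by_cases h3 : Mg z ((H * Y) ^ 2) η v
    · exact Finset.mem_union_right _ (Finset.mem_union_right _ (Finset.mem_union_right _ (Finset.mem_filter.2 ⟨hvB, h3⟩)))
    exact Finset.mem_union_left _ (Finset.mem_filter.2 ⟨hv, h1, h2, h3⟩)
  have hcard := (Finset.card_le_card hsub).trans ((Finset.card_union_le _ _).trans
      (Nat.add_le_add_left ((Finset.card_union_le _ _).trans (Nat.add_le_add_left (Finset.card_union_le _ _) _)) _))
  have hcard' : (F.card : ℝ) ≤ G.card + (((Box s t H).filter (VBz z)).card + (((Box s t H).filter (fun v => ∃ ij, Qd ij v)).card +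
      ((Box s t H).filter (Mg z ((H * Y) ^ 2) η)).card)) := by exact_mod_cast hcard
  have hb := mul_le_mul_of_nonneg_right btot hH2k.le
  have hee : ε' * (H : ℝ) ^ (2 * k) ≤ ε / 8 * (H : ℝ) ^ (2 * k) := mul_le_mul_of_nonneg_right hε'2 hH2k.le
  have h0 : 0 ≤ ε * (H : ℝ) ^ (2 * k) := by positivity
  linarith

end Pool.Agent.H570.TH
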