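import Mathlib
import Pool.Agent.H570.LQ.Par

/-! Few systems have an `n` with prime values below the critical length. -/

set_option autoImplicit false

namespace Pool.Agent.H570.TH

open Finset Filter Topology Pool.Agent.H570.LQ

lemma low : ∃ C : ℝ, 1 ≤ C ∧ ∀ (k : ℕ) (s t : Fin k → ℕ) (H K0 : ℕ), 2 ≤ H →
    ∀ F : Finset (Fin k → ℕ × ℕ), (∀ v ∈ F, v ∈ Box s t H ∧ ∃ n : ℕ, 1 ≤ n ∧ n ≤ K0 ∧ ∀ i, ((v i).1 + n * (v i).2).Prime) →
    (F.card : ℝ) ≤ K0 * ((C / Real.log H) ^ k * (H : ℝ) ^ (2 * k)) := by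
  classical
  obtain ⟨C, hC, hBT⟩ := Pool.Agent.Helper602.MK.BTLib.brun_titchmarsh
  refine ⟨C, hC, fun k s t H K0 hH F hF => ?_⟩
  have hHr : (2 : ℝ) ≤ H := by exact_mod_cast hH
  have hlog : 0 < Real.log H := Real.log_pos (by linarith)
  -- a single pair
  have h1 : ∀ (i : Fin k) (q : ℕ), (((Ioc (s i) (s i + H) ×ˢ Ioc (t i) (t i + H)).filter
      (fun x => (x.1 + q * x.2).Prime)).card : ℝ) ≤ C / Real.log H * (H : ℝ) ^ 2 := by
    intro i q
    have h2 : ∀ d : ℕ, (((Ioc (s i) (s i + H)).filter (fun a => (a + q * d).Prime)).card : ℝ) ≤ C * H / Real.log H := by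
      intro d
      have h3 := hBT (s i + 1 + q * d) 1 H le_rfl hH
      simp only [Nat.totient_one, Nat.cast_one, div_one, mul_one] at h3
      refine le_trans ?_ h3
      have h4 : ((Ioc (s i) (s i + H)).filter (fun a => (a + q * d).Prime)).card ≤
          ((range H).filter (fun k => (s i + 1 + q * d + k).Prime)).card := by
        refine Finset.card_le_card_of_injOn (fun a => a - (s i + 1)) ?_ ?_
        · intro a ha
          have h5 := Finset.mem_filter.1 (Finset.mem_coe.1 ha)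
          have h6 := mem_Ioc.1 h5.1
          refine Finset.mem_coe.2 (Finset.mem_filter.2 ⟨Finset.mem_range.2 (by show a - (s i + 1) < H; omega), ?_⟩)
          have : s i + 1 + q * d + (a - (s i + 1)) = a + q * d := by omega
          show (s i + 1 + q * d + (a - (s i + 1))).Prime
          rw [this]; exact h5.2
        · intro a ha b hb hab
          have h5 := mem_Ioc.1 (Finset.mem_filter.1 (Finset.mem_coe.1 ha)).1
          have h6 := mem_Ioc.1 (Finset.mem_filter.1 (Finset.mem_coe.1 hb)).1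
          have : a - (s i + 1) = b - (s i + 1) := hab
          omega
      exact_mod_cast h4
    have h3 : ((Ioc (s i) (s i + H) ×ˢ Ioc (t i) (t i + H)).filter (fun x => (x.1 + q * x.2).Prime)).card =
        ∑ d ∈ Ioc (t i) (t i + H), ((Ioc (s i) (s i + H)).filter (fun a => (a + q * d).Prime)).card := by
      simp only [Finset.card_filter]
      rw [Finset.sum_product_right]
    rw [h3]
    push_cast
    calc _ ≤ ∑ d ∈ Ioc (t i) (t i + H), C * H / Real.log H := Finset.sum_le_sum fun d _ => h2 d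
      _ = _ := by
        rw [Finset.sum_const, Nat.card_Ioc, Nat.add_sub_cancel_left, nsmul_eq_mul]; ring
  -- all pairs
  have h2 : ∀ q : ℕ, (((Box s t H).filter (fun v => ∀ i, ((v i).1 + q * (v i).2).Prime)).card : ℝ) ≤
      (C / Real.log H) ^ k * (H : ℝ) ^ (2 * k) := by
    intro q
    have h3 : (Box s t H).filter (fun v => ∀ i, ((v i).1 + q * (v i).2).Prime) =
        Fintype.piFinset (fun i => (Ioc (s i) (s i + H) ×ˢ Ioc (t i) (t i + H)).filter (fun x => (x.1 + q * x.2).Prime)) := by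
      ext v
      simp only [Box, Fintype.mem_piFinset, mem_filter]
      exact ⟨fun h i => ⟨h.1 i, h.2 i⟩, fun h => ⟨fun i => (h i).1, fun i => (h i).2⟩⟩
    rw [h3, Fintype.card_piFinset]
    push_cast
    calc _ ≤ ∏ i : Fin k, (C / Real.log H * (H : ℝ) ^ 2) :=
          Finset.prod_le_prod (fun _ _ => Nat.cast_nonneg _) fun i _ => h1 i q
      _ = _ := by rw [Finset.prod_const, Finset.card_univ, Fintype.card_fin, mul_pow, ← pow_mul]
  have h3 : F ⊆ (Icc 1 K0).biUnion (fun q => (Box s t H).filter (fun v => ∀ i, ((v i).1 + q * (v i).2).Prime)) := by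
    intro v hv
    obtain ⟨hB, q, h1q, hq, hqi⟩ := hF v hv
    exact Finset.mem_biUnion.2 ⟨q, mem_Icc.2 ⟨h1q, hq⟩, Finset.mem_filter.2 ⟨hB, hqi⟩⟩
  calc _ ≤ ((((Icc 1 K0).biUnion
        (fun q => (Box s t H).filter (fun v => ∀ i, ((v i).1 + q * (v i).2).Prime))).card : ℕ) : ℝ) := by
          exact_mod_cast Finset.card_le_card h3
    _ ≤ ∑ q ∈ Icc 1 K0, (((Box s t H).filter (fun v => ∀ i, ((v i).1 + q * (v i).2).Prime)).card : ℝ) := by
          exact_mod_cast Finset.card_biUnion_le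
    _ ≤ ∑ q ∈ Icc 1 K0, (C / Real.log H) ^ k * (H : ℝ) ^ (2 * k) := Finset.sum_le_sum fun q _ => h2 q
    _ = _ := by rw [Finset.sum_const, Nat.card_Icc, Nat.add_sub_cancel, nsmul_eq_mul]

end Pool.Agent.H570.TH
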